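import Pool.Agent.Lib.MP_d8ef8f_an.Defs

namespace Pool.Agent.Lib.MP_d8ef8f_an

open Set Filter Topology MeasureTheory

/-- differentiation under the integral sign -/
theorem hasDerivAt_integral {T : Set ℝ} (hT : IsOpen T) (f ft : ℝ → ℝ → ℝ)
    (hc : ContinuousOn (fun p : ℝ × ℝ => ft p.1 p.2) (T ×ˢ Icc (0:ℝ) 1))
    (hf : ∀ t ∈ T, ContinuousOn (f t) (Icc (0:ℝ) 1))
    (hd : ∀ t ∈ T, ∀ x ∈ Icc (0:ℝ) 1, HasDerivAt (fun s => f s x) (ft t x) t) :
    ∀ t ∈ T, HasDerivAt (fun s => ∫ x in (0:ℝ)..1, f s x) (∫ x in (0:ℝ)..1, ft t x) t := by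
  intro t ht
  obtain ⟨r, hr, hball⟩ := Metric.isOpen_iff.1 hT t ht
  have hKT : Metric.closedBall t (r / 2) ⊆ T := fun s hs => hball (by
    rw [Metric.mem_closedBall] at hs
    rw [Metric.mem_ball]
    linarith)
  have hcomp : IsCompact (Metric.closedBall t (r / 2) ×ˢ Icc (0:ℝ) 1) :=
    (isCompact_closedBall t (r / 2)).prod isCompact_Icc
  have hc' : ContinuousOn (fun p : ℝ × ℝ => ft p.1 p.2) (Metric.closedBall t (r / 2) ×ˢ Icc (0:ℝ) 1) :=
    hc.mono (Set.prod_mono hKT le_rfl)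
  obtain ⟨C, hC⟩ := hcomp.exists_bound_of_continuousOn hc'
  have hs : Metric.closedBall t (r / 2) ∈ 𝓝 t := Metric.closedBall_mem_nhds t (by linarith)
  have huIoc : Set.uIoc (0:ℝ) 1 = Ioc 0 1 := Set.uIoc_of_le zero_le_one
  have hmeas : ∀ s ∈ T, AEStronglyMeasurable (f s) (volume.restrict (Set.uIoc (0:ℝ) 1)) := by
    intro s hsT
    rw [huIoc]
    exact ((hf s hsT).mono Ioc_subset_Icc_self).aestronglyMeasurable measurableSet_Ioc
  have hft : ContinuousOn (ft t) (Icc (0:ℝ) 1) := by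
    have : ContinuousOn (fun x : ℝ => ((t, x) : ℝ × ℝ)) (Icc (0:ℝ) 1) := by fun_prop
    exact hc.comp this fun x hx => ⟨ht, hx⟩
  refine (intervalIntegral.hasDerivAt_integral_of_dominated_loc_of_deriv_le (F := f) (F' := ft)
    (bound := fun _ => C) hs ?_ ?_ ?_ ?_ ?_ ?_).2
  · filter_upwards [hT.mem_nhds ht] with s hs
    exact hmeas s hs
  · exact ContinuousOn.intervalIntegrable (by rw [Set.uIcc_of_le zero_le_one]; exact hf t ht)
  · rw [huIoc]
    exact (hft.mono Ioc_subset_Icc_self).aestronglyMeasurable measurableSet_Ioc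
  · refine Filter.Eventually.of_forall fun x hx s hs => ?_
    rw [huIoc] at hx
    exact hC (s, x) ⟨hs, Ioc_subset_Icc_self hx⟩
  · exact intervalIntegrable_const
  · refine Filter.Eventually.of_forall fun x hx s hs => ?_
    rw [huIoc] at hx
    exact hd s (hKT hs) x (Ioc_subset_Icc_self hx)

end Pool.Agent.Lib.MP_d8ef8f_an
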