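import Pool.Agent.Lib.MP_d8ef8f_an.Defs

namespace Pool.Agent.Lib.MP_d8ef8f_an

open Set Filter Topology MeasureTheory

/-- integration by parts against a function with Neumann condition -/
theorem parts_neumann (f f' g' g'' : ℝ → ℝ)
    (hf : ∀ x ∈ Icc (0:ℝ) 1, HasDerivWithinAt f (f' x) (Icc (0:ℝ) 1) x)
    (hf' : ContinuousOn f' (Icc (0:ℝ) 1))
    (hg : ∀ x ∈ Icc (0:ℝ) 1, HasDerivWithinAt g' (g'' x) (Icc (0:ℝ) 1) x)
    (hg'' : ContinuousOn g'' (Icc (0:ℝ) 1)) (h0 : g' 0 = 0) (h1 : g' 1 = 0) :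
    ∫ x in (0:ℝ)..1, f x * g'' x = - ∫ x in (0:ℝ)..1, f' x * g' x := by
  have huIcc : uIcc (0:ℝ) 1 = Icc 0 1 := uIcc_of_le zero_le_one
  have hi1 : IntervalIntegrable f' volume 0 1 := by
    apply ContinuousOn.intervalIntegrable
    rw [huIcc]
    exact hf'
  have hi2 : IntervalIntegrable g'' volume 0 1 := by
    apply ContinuousOn.intervalIntegrable
    rw [huIcc]
    exact hg''
  have key := intervalIntegral.integral_mul_deriv_eq_deriv_mul_of_hasDerivWithinAt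
    (a := (0:ℝ)) (b := 1) (u := f) (v := g') (u' := f') (v' := g'')
    (by rw [huIcc]; exact hf) (by rw [huIcc]; exact hg) hi1 hi2
  rw [key, h0, h1]
  ring

end Pool.Agent.Lib.MP_d8ef8f_an
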