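import Pool.Agent.Lib.MP_d8ef8f_an.Defs

namespace Pool.Agent.Lib.MP_d8ef8f_an

open Set Filter Topology MeasureTheory

private theorem A3_ii {f : ℝ → ℝ} (hf : ContinuousOn f (Icc (0:ℝ) 1)) {a b : ℝ}
    (ha : a ∈ Icc (0:ℝ) 1) (hb : b ∈ Icc (0:ℝ) 1) : IntervalIntegrable f volume a b := by
  apply ContinuousOn.intervalIntegrable
  apply hf.mono
  intro x hx
  rw [mem_uIcc] at hx
  rcases hx with hx | hx
  · exact ⟨ha.1.trans hx.1, hx.2.trans hb.2⟩
  · exact ⟨hb.1.trans hx.1, hx.2.trans ha.2⟩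

private theorem A3_ii01 {f : ℝ → ℝ} (hf : ContinuousOn f (Icc (0:ℝ) 1)) :
    IntervalIntegrable f volume 0 1 :=
  A3_ii hf ⟨le_rfl, zero_le_one⟩ ⟨zero_le_one, le_rfl⟩

/-- Cauchy-Schwarz -/
theorem cauchy_schwarz (f g : ℝ → ℝ) (hf : ContinuousOn f (Icc (0:ℝ) 1))
    (hg : ContinuousOn g (Icc (0:ℝ) 1)) :
    (∫ x in (0:ℝ)..1, f x * g x) ^ 2 ≤
      (∫ x in (0:ℝ)..1, f x ^ 2) * (∫ x in (0:ℝ)..1, g x ^ 2) := by
  have hff := A3_ii01 (hf.pow 2)
  have hgg := A3_ii01 (hg.pow 2)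
  have hfg := A3_ii01 (hf.mul hg)
  have key : ∀ t : ℝ, 0 ≤ (∫ x in (0:ℝ)..1, f x ^ 2) * (t * t) +
      (2 * ∫ x in (0:ℝ)..1, f x * g x) * t + ∫ x in (0:ℝ)..1, g x ^ 2 := by
    intro t
    have h1 : 0 ≤ ∫ x in (0:ℝ)..1, (t * f x + g x) ^ 2 :=
      intervalIntegral.integral_nonneg zero_le_one (fun x _ => sq_nonneg _)
    have h2 : ∫ x in (0:ℝ)..1, (t * f x + g x) ^ 2 =
        (t * t) * (∫ x in (0:ℝ)..1, f x ^ 2) + (2 * t) * (∫ x in (0:ℝ)..1, f x * g x) +
          ∫ x in (0:ℝ)..1, g x ^ 2 := by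
      rw [← intervalIntegral.integral_const_mul, ← intervalIntegral.integral_const_mul,
        ← intervalIntegral.integral_add, ← intervalIntegral.integral_add]
      · apply intervalIntegral.integral_congr
        intro x _
        simp only
        ring
      · exact (hff.const_mul _).add (hfg.const_mul _)
      · exact hgg
      · exact hff.const_mul _
      · exact hfg.const_mul _
    rw [h2] at h1
    linarith
  have h3 := discrim_le_zero key
  unfold discrim at h3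
  nlinarith [h3]

/-- oscillation bound by the Dirichlet integral -/
theorem osc_le (f f' : ℝ → ℝ)
    (hf : ∀ x ∈ Icc (0:ℝ) 1, HasDerivWithinAt f (f' x) (Icc (0:ℝ) 1) x)
    (hf' : ContinuousOn f' (Icc (0:ℝ) 1)) (x y : ℝ) (hx : x ∈ Icc (0:ℝ) 1) (hy : y ∈ Icc (0:ℝ) 1) :
    |f x - f y| ≤ Real.sqrt (∫ z in (0:ℝ)..1, f' z ^ 2) := by
  have hcont : ContinuousOn f (Icc (0:ℝ) 1) := fun z hz => (hf z hz).continuousWithinAt
  have habs : ContinuousOn (fun z => |f' z|) (Icc (0:ℝ) 1) := hf'.abs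
  have hstep : ∫ z in (0:ℝ)..1, |f' z| ≤ Real.sqrt (∫ z in (0:ℝ)..1, f' z ^ 2) := by
    apply Real.le_sqrt_of_sq_le
    have h1 := cauchy_schwarz (fun z => |f' z|) (fun _ => 1) habs continuousOn_const
    simp only [mul_one, sq_abs, one_pow, intervalIntegral.integral_const, sub_zero, smul_eq_mul]
      at h1
    exact h1
  have main : ∀ a b : ℝ, a ∈ Icc (0:ℝ) 1 → b ∈ Icc (0:ℝ) 1 → a ≤ b →
      |f b - f a| ≤ ∫ z in (0:ℝ)..1, |f' z| := by
    intro a b ha hb hab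
    have hsub : Icc a b ⊆ Icc (0:ℝ) 1 := Icc_subset_Icc ha.1 hb.2
    have hftc : ∫ z in a..b, f' z = f b - f a := by
      apply intervalIntegral.integral_eq_sub_of_hasDerivAt_of_le hab (hcont.mono hsub)
      · intro z hz
        have hz01 : z ∈ Icc (0:ℝ) 1 := hsub (Ioo_subset_Icc_self hz)
        apply (hf z hz01).hasDerivAt
        exact Icc_mem_nhds (lt_of_le_of_lt ha.1 hz.1) (lt_of_lt_of_le hz.2 hb.2)
      · exact A3_ii hf' ha hb
    rw [← hftc]
    calc |∫ z in a..b, f' z| ≤ ∫ z in a..b, |f' z| :=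
          intervalIntegral.abs_integral_le_integral_abs hab
      _ ≤ ∫ z in (0:ℝ)..1, |f' z| := by
          apply intervalIntegral.integral_mono_interval ha.1 hab hb.2
          · exact Filter.Eventually.of_forall (fun z => abs_nonneg _)
          · exact A3_ii01 habs
  rcases le_total x y with hxy | hxy
  · rw [abs_sub_comm]
    exact (main x y hx hy hxy).trans hstep
  · exact (main y x hy hx hxy).trans hstep

/-- sup bound by the integral and the Dirichlet integral -/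
theorem sup_le (f f' : ℝ → ℝ)
    (hf : ∀ x ∈ Icc (0:ℝ) 1, HasDerivWithinAt f (f' x) (Icc (0:ℝ) 1) x)
    (hf' : ContinuousOn f' (Icc (0:ℝ) 1)) (x : ℝ) (hx : x ∈ Icc (0:ℝ) 1) :
    |f x - ∫ z in (0:ℝ)..1, f z| ≤ Real.sqrt (∫ z in (0:ℝ)..1, f' z ^ 2) := by
  have hcont : ContinuousOn f (Icc (0:ℝ) 1) := fun z hz => (hf z hz).continuousWithinAt
  have h1 : f x - ∫ z in (0:ℝ)..1, f z = ∫ z in (0:ℝ)..1, (f x - f z) := by
    rw [intervalIntegral.integral_sub intervalIntegrable_const (A3_ii01 hcont),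
      intervalIntegral.integral_const]
    simp
  rw [h1]
  have h2 : ‖∫ z in (0:ℝ)..1, (f x - f z)‖ ≤
      Real.sqrt (∫ z in (0:ℝ)..1, f' z ^ 2) * |(1:ℝ) - 0| := by
    apply intervalIntegral.norm_integral_le_of_norm_le_const
    intro z hz
    rw [Set.uIoc_of_le zero_le_one] at hz
    rw [Real.norm_eq_abs]
    exact osc_le f f' hf hf' x z hx (Ioc_subset_Icc_self hz)
  rw [Real.norm_eq_abs] at h2
  simpa using h2

end Pool.Agent.Lib.MP_d8ef8f_an
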