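import Pool.Agent.Lib.MP_d8ef8f_an.Defs

namespace Pool.Agent.Lib.MP_d8ef8f_an

open Set Filter Topology MeasureTheory

/-- second derivative test at a maximum on `[0,1]` (end points allowed because of Neumann) -/
theorem second_deriv_max (f f' f'' : ℝ → ℝ)
    (hf : ∀ x ∈ Icc (0:ℝ) 1, HasDerivWithinAt f (f' x) (Icc (0:ℝ) 1) x)
    (hf' : ∀ x ∈ Icc (0:ℝ) 1, HasDerivWithinAt f' (f'' x) (Icc (0:ℝ) 1) x)
    (h0 : f' 0 = 0) (h1 : f' 1 = 0) (x0 : ℝ) (hx0 : x0 ∈ Icc (0:ℝ) 1)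
    (hmax : ∀ x ∈ Icc (0:ℝ) 1, f x ≤ f x0) : f'' x0 ≤ 0 := by
  have hcont : ContinuousOn f (Icc (0:ℝ) 1) := fun z hz => (hf z hz).continuousWithinAt
  have hd : f' x0 = 0 := by
    rcases eq_or_lt_of_le hx0.1 with h | h
    · rw [← h, h0]
    rcases eq_or_lt_of_le hx0.2 with h' | h'
    · rw [h', h1]
    have hn : Icc (0:ℝ) 1 ∈ 𝓝 x0 := Icc_mem_nhds h h'
    have hloc : IsLocalMax f x0 := by
      filter_upwards [hn] with z hz
      exact hmax z hz
    exact hloc.hasDerivAt_eq_zero ((hf x0 hx0).hasDerivAt hn)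
  by_contra hcon
  push Not at hcon
  have hslope := hasDerivWithinAt_iff_tendsto_slope.1 (hf' x0 hx0)
  have hev : ∀ᶠ z in 𝓝[Icc (0:ℝ) 1 \ {x0}] x0, 0 < slope f' x0 z :=
    hslope.eventually (lt_mem_nhds hcon)
  rw [eventually_nhdsWithin_iff, Metric.eventually_nhds_iff] at hev
  obtain ⟨δ, hδ, hball⟩ := hev
  have hpos : ∀ z ∈ Icc (0:ℝ) 1, z ≠ x0 → |z - x0| < δ → 0 < (f' z) / (z - x0) := by
    intro z hz hne hzd
    have h2 := hball (y := z) (by rw [Real.dist_eq]; exact hzd) ⟨hz, hne⟩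
    rw [slope_def_field, hd, sub_zero] at h2
    exact h2
  rcases lt_or_ge x0 1 with hlt | hge
  · set x1 : ℝ := min 1 (x0 + δ / 2) with hx1
    have h01 : x0 < x1 := by
      rw [hx1]
      apply lt_min hlt
      linarith
    have h11 : x1 ≤ 1 := min_le_left _ _
    have h1d : x1 ≤ x0 + δ / 2 := min_le_right _ _
    have hsub : Icc x0 x1 ⊆ Icc (0:ℝ) 1 := Icc_subset_Icc hx0.1 h11
    obtain ⟨c, hc, hceq⟩ := exists_hasDerivAt_eq_slope f f' h01 (hcont.mono hsub) (by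
      intro z hz
      apply (hf z (hsub (Ioo_subset_Icc_self hz))).hasDerivAt
      exact Icc_mem_nhds (lt_of_le_of_lt hx0.1 hz.1) (lt_of_lt_of_le hz.2 h11))
    have h3 := hpos c (hsub (Ioo_subset_Icc_self hc)) (ne_of_gt hc.1) (by
      rw [abs_of_pos (by linarith [hc.1])]
      linarith [hc.2])
    have hc0 : 0 < c - x0 := by linarith [hc.1]
    have h4 : 0 < f' c := by
      rcases div_pos_iff.1 h3 with h | h
      · exact h.1
      · linarith [h.2]
    have h5 : f x1 ≤ f x0 := hmax x1 (hsub ⟨h01.le, le_rfl⟩)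
    have h6 : (f x1 - f x0) / (x1 - x0) ≤ 0 :=
      div_nonpos_of_nonpos_of_nonneg (by linarith) (by linarith)
    linarith
  · have hx01 : x0 = 1 := le_antisymm hx0.2 hge
    set x1 : ℝ := max 0 (x0 - δ / 2) with hx1
    have h01 : x1 < x0 := by
      rw [hx1]
      apply max_lt
      · rw [hx01]; exact one_pos
      · linarith
    have h11 : 0 ≤ x1 := le_max_left _ _
    have h1d : x0 - δ / 2 ≤ x1 := le_max_right _ _
    have hsub : Icc x1 x0 ⊆ Icc (0:ℝ) 1 := Icc_subset_Icc h11 hx0.2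
    obtain ⟨c, hc, hceq⟩ := exists_hasDerivAt_eq_slope f f' h01 (hcont.mono hsub) (by
      intro z hz
      apply (hf z (hsub (Ioo_subset_Icc_self hz))).hasDerivAt
      exact Icc_mem_nhds (lt_of_le_of_lt h11 hz.1) (lt_of_lt_of_le hz.2 hx0.2))
    have h3 := hpos c (hsub (Ioo_subset_Icc_self hc)) (ne_of_lt hc.2) (by
      rw [abs_of_neg (by linarith [hc.2])]
      linarith [hc.1])
    have hc0 : c - x0 < 0 := by linarith [hc.2]
    have h4 : f' c < 0 := by
      rcases div_pos_iff.1 h3 with h | h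
      · linarith [h.2]
      · exact h.1
    have h5 : f x1 ≤ f x0 := hmax x1 (hsub ⟨le_rfl, h01.le⟩)
    have h6 : 0 ≤ (f x0 - f x1) / (x0 - x1) :=
      div_nonneg (by linarith) (by linarith)
    linarith

end Pool.Agent.Lib.MP_d8ef8f_an
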