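import Pool.Agent.Lib.MP_d8ef8f_an.Defs
import Pool.Agent.Lib.MP_d8ef8f_an.A4

namespace Pool.Agent.Lib.MP_d8ef8f_an

open Set Filter Topology MeasureTheory

/-- one-sided first derivative test at a minimum over earlier times -/
private theorem A5_deriv_nonpos (g : ℝ → ℝ) (g' a t : ℝ) (hat : a < t) (hg : HasDerivAt g g' t)
    (hmin : ∀ s ∈ Ico a t, g t ≤ g s) : g' ≤ 0 := by
  have h1 : HasDerivWithinAt g g' (Iio t) t := hg.hasDerivWithinAt
  rw [hasDerivWithinAt_iff_tendsto_slope' (by simp)] at h1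
  refine le_of_tendsto h1 ?_
  have h2 : ∀ᶠ s in 𝓝[<] t, s ∈ Ico a t :=
    mem_of_superset (Ioo_mem_nhdsLT hat) Ioo_subset_Ico_self
  filter_upwards [h2] with s hs
  rw [slope_def_field]
  exact div_nonpos_of_nonneg_of_nonpos (sub_nonneg.2 (hmin s hs)) (by linarith [hs.2])

/-- parabolic comparison principle on `[a,b] × [0,1]` -/
theorem comparison (a b d K : ℝ) (hab : a < b) (hd : 0 ≤ d) (w wt wx wxx : ℝ → ℝ → ℝ)
    (hc : ContinuousOn (fun p : ℝ × ℝ => w p.1 p.2) (Icc a b ×ˢ Icc (0:ℝ) 1))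
    (ht : ∀ t ∈ Ioc a b, ∀ x ∈ Icc (0:ℝ) 1, HasDerivAt (fun s => w s x) (wt t x) t)
    (hx : ∀ t ∈ Ioc a b, ∀ x ∈ Icc (0:ℝ) 1, HasDerivWithinAt (w t) (wx t x) (Icc (0:ℝ) 1) x)
    (hxx : ∀ t ∈ Ioc a b, ∀ x ∈ Icc (0:ℝ) 1, HasDerivWithinAt (wx t) (wxx t x) (Icc (0:ℝ) 1) x)
    (h0 : ∀ t ∈ Ioc a b, wx t 0 = 0) (h1 : ∀ t ∈ Ioc a b, wx t 1 = 0)
    (hw : ∀ t ∈ Ioc a b, ∀ x ∈ Icc (0:ℝ) 1, w t x < 0 → d * wxx t x + K * w t x ≤ wt t x)
    (hi : ∀ x ∈ Icc (0:ℝ) 1, 0 ≤ w a x) :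
    ∀ t ∈ Icc a b, ∀ x ∈ Icc (0:ℝ) 1, 0 ≤ w t x := by
  have hcomp : IsCompact (Icc a b ×ˢ Icc (0:ℝ) 1) := isCompact_Icc.prod isCompact_Icc
  have hne : (Icc a b ×ˢ Icc (0:ℝ) 1).Nonempty :=
    ⟨(a, 0), ⟨⟨le_refl _, hab.le⟩, ⟨le_refl _, zero_le_one⟩⟩⟩
  have hgc : ContinuousOn (fun p : ℝ × ℝ => Real.exp (-(K + 1) * p.1) * w p.1 p.2)
      (Icc a b ×ˢ Icc (0:ℝ) 1) := by
    apply ContinuousOn.mul _ hc
    fun_prop
  obtain ⟨⟨t, x⟩, hmem, hmin⟩ := hcomp.exists_isMinOn hne hgc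
  have hmin' : ∀ s ∈ Icc a b, ∀ y ∈ Icc (0:ℝ) 1,
      Real.exp (-(K + 1) * t) * w t x ≤ Real.exp (-(K + 1) * s) * w s y := by
    intro s hs y hy
    exact hmin (show (s, y) ∈ Icc a b ×ˢ Icc (0:ℝ) 1 from ⟨hs, hy⟩)
  have htI : t ∈ Icc a b := hmem.1
  have hxI : x ∈ Icc (0:ℝ) 1 := hmem.2
  by_cases hneg : w t x < 0
  · exfalso
    have hta : t ≠ a := by
      rintro rfl
      have := hi x hxI
      linarith
    have htIoc : t ∈ Ioc a b := ⟨lt_of_le_of_ne htI.1 (Ne.symm hta), htI.2⟩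
    have hE : 0 < Real.exp (-(K + 1) * t) := Real.exp_pos _
    -- time derivative
    have hder : HasDerivAt (fun s => Real.exp (-(K + 1) * s) * w s x)
        (Real.exp (-(K + 1) * t) * (-(K + 1)) * w t x + Real.exp (-(K + 1) * t) * wt t x) t := by
      have e1 : HasDerivAt (fun s : ℝ => Real.exp (-(K + 1) * s))
          (Real.exp (-(K + 1) * t) * (-(K + 1))) t := by
        have := ((hasDerivAt_id t).const_mul (-(K + 1))).exp
        simpa using this
      exact e1.mul (ht t htIoc x hxI)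
    have hle := A5_deriv_nonpos _ _ a t htIoc.1 hder (fun s hs =>
      hmin' s ⟨hs.1, hs.2.le.trans htI.2⟩ x hxI)
    have h3 : wt t x ≤ (K + 1) * w t x := by
      have h4 : Real.exp (-(K + 1) * t) * (wt t x - (K + 1) * w t x) ≤ 0 := by
        have e : Real.exp (-(K + 1) * t) * (wt t x - (K + 1) * w t x) =
          Real.exp (-(K + 1) * t) * (-(K + 1)) * w t x + Real.exp (-(K + 1) * t) * wt t x := by
          ring
        rw [e]
        exact hle
      have h5 : wt t x - (K + 1) * w t x ≤ 0 := by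
        by_contra hcon
        push Not at hcon
        have := mul_pos hE hcon
        linarith
      linarith
    -- space derivative
    have h6 : -wxx t x ≤ 0 := by
      apply second_deriv_max (fun y => -w t y) (fun y => -wx t y) (fun y => -wxx t y)
        (fun y hy => (hx t htIoc y hy).neg) (fun y hy => (hxx t htIoc y hy).neg)
        (by simp only [h0 t htIoc, neg_zero]) (by simp only [h1 t htIoc, neg_zero]) x hxI
      intro y hy
      have h7 := hmin' t htI y hy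
      have h8 := le_of_mul_le_mul_left h7 hE
      linarith
    have h9 := hw t htIoc x hxI hneg
    have h10 : 0 ≤ d * wxx t x := mul_nonneg hd (by linarith)
    nlinarith
  · push Not at hneg
    intro s hs y hy
    have h2 := hmin' s hs y hy
    have h3 : 0 ≤ Real.exp (-(K + 1) * s) * w s y :=
      le_trans (mul_nonneg (Real.exp_pos _).le hneg) h2
    by_contra hcon
    push Not at hcon
    have := mul_neg_of_pos_of_neg (Real.exp_pos (-(K + 1) * s)) hcon
    linarith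

end Pool.Agent.Lib.MP_d8ef8f_an
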