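import Pool.Agent.Lib.MP_d8ef8f_an.Defs
import Pool.Agent.Lib.MP_d8ef8f_an.A4

namespace Pool.Agent.Lib.MP_d8ef8f_an

open Set Filter Topology MeasureTheory

theorem A6_p3 (z : ℝ) : HasDerivAt (fun z : ℝ => max z 0 ^ 3) (3 * max z 0 ^ 2) z := by
  rcases lt_trichotomy z 0 with h | h | h
  · have h1 : (fun z : ℝ => max z 0 ^ 3) =ᶠ[𝓝 z] fun _ => 0 := by
      filter_upwards [Iio_mem_nhds h] with y hy
      rw [max_eq_right (le_of_lt hy)]; norm_num
    have h2 : HasDerivAt (fun _ : ℝ => (0 : ℝ)) 0 z := hasDerivAt_const z 0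
    have h3 := h2.congr_of_eventuallyEq h1
    rw [max_eq_right h.le]; simpa using h3
  · subst h
    have h1 : HasDerivWithinAt (fun z : ℝ => max z 0 ^ 3) 0 (Iic 0) 0 := by
      refine (hasDerivWithinAt_const (0 : ℝ) (Iic 0) (0 : ℝ)).congr (fun y hy => ?_) (by simp)
      rw [max_eq_right hy]; norm_num
    have h2 : HasDerivWithinAt (fun z : ℝ => max z 0 ^ 3) 0 (Ici 0) 0 := by
      have h3 : HasDerivAt (fun z : ℝ => z ^ 3) 0 0 := by simpa using hasDerivAt_pow 3 (0 : ℝ)
      refine h3.hasDerivWithinAt.congr (fun y hy => ?_) (by simp)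
      rw [max_eq_left hy]
    have h4 := h1.union h2
    rw [Set.Iic_union_Ici] at h4
    simpa using h4
  · have h1 : (fun z : ℝ => max z 0 ^ 3) =ᶠ[𝓝 z] fun z => z ^ 3 := by
      filter_upwards [Ioi_mem_nhds h] with y hy
      rw [max_eq_left (le_of_lt hy)]
    have h2 : HasDerivAt (fun z : ℝ => z ^ 3) (3 * z ^ 2) z := by simpa using hasDerivAt_pow 3 z
    have h3 := h2.congr_of_eventuallyEq h1
    rw [max_eq_left h.le]; exact h3

theorem A6_p2 (z : ℝ) : HasDerivAt (fun z : ℝ => max z 0 ^ 2) (2 * max z 0) z := by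
  rcases lt_trichotomy z 0 with h | h | h
  · have h1 : (fun z : ℝ => max z 0 ^ 2) =ᶠ[𝓝 z] fun _ => 0 := by
      filter_upwards [Iio_mem_nhds h] with y hy
      rw [max_eq_right (le_of_lt hy)]; norm_num
    have h2 : HasDerivAt (fun _ : ℝ => (0 : ℝ)) 0 z := hasDerivAt_const z 0
    have h3 := h2.congr_of_eventuallyEq h1
    rw [max_eq_right h.le]; simpa using h3
  · subst h
    have h1 : HasDerivWithinAt (fun z : ℝ => max z 0 ^ 2) 0 (Iic 0) 0 := by
      refine (hasDerivWithinAt_const (0 : ℝ) (Iic 0) (0 : ℝ)).congr (fun y hy => ?_) (by simp)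
      rw [max_eq_right hy]; norm_num
    have h2 : HasDerivWithinAt (fun z : ℝ => max z 0 ^ 2) 0 (Ici 0) 0 := by
      have h3 : HasDerivAt (fun z : ℝ => z ^ 2) 0 0 := by simpa using hasDerivAt_pow 2 (0 : ℝ)
      refine h3.hasDerivWithinAt.congr (fun y hy => ?_) (by simp)
      rw [max_eq_left hy]
    have h4 := h1.union h2
    rw [Set.Iic_union_Ici] at h4
    simpa using h4
  · have h1 : (fun z : ℝ => max z 0 ^ 2) =ᶠ[𝓝 z] fun z => z ^ 2 := by
      filter_upwards [Ioi_mem_nhds h] with y hy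
      rw [max_eq_left (le_of_lt hy)]
    have h2 : HasDerivAt (fun z : ℝ => z ^ 2) (2 * z) z := by simpa using hasDerivAt_pow 2 z
    have h3 := h2.congr_of_eventuallyEq h1
    rw [max_eq_left h.le]; exact h3

/-- first derivative at a minimum on `[p,q]`: sign in the direction of `y` -/
theorem A6_dir (p q : ℝ) (f : ℝ → ℝ) (f' x0 y : ℝ) (hx0 : x0 ∈ Icc p q) (hy : y ∈ Icc p q)
    (hf : HasDerivWithinAt f f' (Icc p q) x0) (hmin : ∀ x ∈ Icc p q, f x0 ≤ f x) :
    0 ≤ f' * (y - x0) := by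
  have h1 : IsLocalMinOn f (Icc p q) x0 := by
    filter_upwards [self_mem_nhdsWithin] with x hx using hmin x hx
  have h2 : y - x0 ∈ posTangentConeAt (Icc p q) x0 :=
    sub_mem_posTangentConeAt_of_segment_subset ((convex_Icc p q).segment_subset hx0 hy)
  have h3 := h1.hasFDerivWithinAt_nonneg hf.hasFDerivWithinAt h2
  simpa [mul_comm] using h3

/-- second derivative at a minimum -/
theorem A6_second (f f' : ℝ → ℝ) (f2 x0 : ℝ) (hx0 : x0 ∈ Icc (0:ℝ) 1)
    (hf : ∀ x ∈ Icc (0:ℝ) 1, HasDerivWithinAt f (f' x) (Icc (0:ℝ) 1) x)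
    (hf' : HasDerivWithinAt f' f2 (Icc (0:ℝ) 1) x0) (h0 : f' x0 = 0)
    (hmin : ∀ x ∈ Icc (0:ℝ) 1, f x0 ≤ f x) : 0 ≤ f2 := by
  by_contra hneg
  push Not at hneg
  rw [hasDerivWithinAt_iff_tendsto_slope] at hf'
  have h1 : ∀ᶠ x in 𝓝[Icc (0:ℝ) 1 \ {x0}] x0, slope f' x0 x < 0 := hf'.eventually_lt_const hneg
  rw [eventually_nhdsWithin_iff, Metric.eventually_nhds_iff] at h1
  obtain ⟨δ, hδ, h1⟩ := h1
  have hcont : ContinuousOn f (Icc (0:ℝ) 1) := fun x hx => (hf x hx).continuousWithinAt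
  have hder : ∀ x ∈ Ioo (0:ℝ) 1, HasDerivAt f (f' x) x := fun x hx =>
    (hf x ⟨hx.1.le, hx.2.le⟩).hasDerivAt (Icc_mem_nhds hx.1 hx.2)
  rcases lt_or_ge x0 1 with hlt | hge
  · -- to the right
    set x1 := min (x0 + δ / 2) 1 with hx1
    have h2 : x0 < x1 := lt_min (by linarith) hlt
    have h3 : x1 ≤ x0 + δ / 2 := min_le_left _ _
    have h4 : x1 ≤ 1 := min_le_right _ _
    obtain ⟨ξ, hξ, h5⟩ := exists_hasDerivAt_eq_slope f f' h2
      (hcont.mono (Icc_subset_Icc hx0.1 h4))
      (fun x hx => hder x ⟨lt_of_le_of_lt hx0.1 hx.1, lt_of_lt_of_le hx.2 h4⟩)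
    have h6 := h1 (y := ξ) (by rw [Real.dist_eq, abs_of_pos (by linarith [hξ.1])]; linarith [hξ.2])
      ⟨⟨by linarith [hξ.1, hx0.1], by linarith [hξ.2]⟩, by
        simp only [mem_singleton_iff]; exact ne_of_gt hξ.1⟩
    rw [slope_def_field, h0, sub_zero] at h6
    have h7 : 0 < ξ - x0 := by linarith [hξ.1]
    have h8 : f' ξ < 0 := by
      by_contra h9
      push Not at h9
      exact absurd h6 (not_lt.2 (div_nonneg h9 h7.le))
    rw [h5] at h8
    have h10 : 0 ≤ (f x1 - f x0) / (x1 - x0) :=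
      div_nonneg (by linarith [hmin x1 ⟨by linarith [hx0.1], h4⟩]) (by linarith)
    linarith
  · -- to the left
    have hx1' : x0 = 1 := le_antisymm hx0.2 hge
    set x1 := max (x0 - δ / 2) 0 with hx1
    have h2 : x1 < x0 := max_lt (by linarith) (by linarith)
    have h3 : x0 - δ / 2 ≤ x1 := le_max_left _ _
    have h4 : 0 ≤ x1 := le_max_right _ _
    obtain ⟨ξ, hξ, h5⟩ := exists_hasDerivAt_eq_slope f f' h2
      (hcont.mono (Icc_subset_Icc h4 hx0.2))
      (fun x hx => hder x ⟨lt_of_le_of_lt h4 hx.1, lt_of_lt_of_le hx.2 hx0.2⟩)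
    have h6 := h1 (y := ξ) (by
        rw [Real.dist_eq, abs_of_neg (by linarith [hξ.2])]; linarith [hξ.1])
      ⟨⟨by linarith [hξ.1], by linarith [hξ.2, hx0.2]⟩, by
        simp only [mem_singleton_iff]; exact ne_of_lt hξ.2⟩
    rw [slope_def_field, h0, sub_zero] at h6
    have h7 : ξ - x0 < 0 := by linarith [hξ.2]
    have h8 : 0 < f' ξ := by
      by_contra h9
      push Not at h9
      exact absurd h6 (not_lt.2 (div_nonneg_of_nonpos h9 h7.le))
    rw [h5] at h8
    have h10 : (f x0 - f x1) / (x0 - x1) ≤ 0 :=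
      div_nonpos_of_nonpos_of_nonneg (by linarith [hmin x1 ⟨h4, by linarith [hx0.2]⟩])
        (by linarith)
    linarith

/-- the algebraic inequality behind the moving bump -/
theorem A6_alg (A C d r y m s : ℝ) (hd : 0 < d) (hr : 0 < r) (hr1 : r ≤ 1) (hC : |m| ≤ C)
    (hA : (6 * C + 30 * d) ^ 2 < 96 * A * d * r ^ 2) (hs : 0 < s) (hsy : s = r ^ 2 - y ^ 2) :
    -A * s ^ 3 + 3 * s ^ 2 * (2 * y * m) - d * (3 * (2 * s * (-2 * y) * (-2 * y) + s ^ 2 * (-2))) <
      0 := by
  have hy2 : y ^ 2 = r ^ 2 - s := by linarith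
  have hyabs : |y| ≤ 1 := by
    have : y ^ 2 ≤ 1 := by nlinarith
    exact abs_le_one_iff_mul_self_le_one.2 (by nlinarith)
  have hym : y * m ≤ C := by
    have h1 : y * m ≤ |y * m| := le_abs_self _
    rw [abs_mul] at h1
    have h2 : |y| * |m| ≤ 1 * C := mul_le_mul hyabs hC (abs_nonneg _) zero_le_one
    linarith
  have hC0 : 0 ≤ C := le_trans (abs_nonneg _) hC
  have hA0 : 0 < A := by
    by_contra h
    push Not at h
    have h1 : 96 * A * d * r ^ 2 ≤ 0 := by
      have : 0 ≤ d * r ^ 2 := by positivity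
      nlinarith
    nlinarith [sq_nonneg (6 * C + 30 * d)]
  have key : -A * s ^ 2 + (6 * C + 30 * d) * s - 24 * d * r ^ 2 < 0 := by
    have h1 : 4 * A * (A * s ^ 2 - (6 * C + 30 * d) * s + 24 * d * r ^ 2) =
        (2 * A * s - (6 * C + 30 * d)) ^ 2 + (96 * A * d * r ^ 2 - (6 * C + 30 * d) ^ 2) := by
      ring
    have h2 : 0 < 4 * A * (A * s ^ 2 - (6 * C + 30 * d) * s + 24 * d * r ^ 2) := by
      rw [h1]
      have := sq_nonneg (2 * A * s - (6 * C + 30 * d))
      linarith
    have h3 : 0 < A * s ^ 2 - (6 * C + 30 * d) * s + 24 * d * r ^ 2 := by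
      by_contra h5
      push Not at h5
      exact absurd h2 (not_lt.2 (mul_nonpos_of_nonneg_of_nonpos (by positivity) h5))
    linarith
  have e : -A * s ^ 3 + 3 * s ^ 2 * (2 * y * m) -
      d * (3 * (2 * s * (-2 * y) * (-2 * y) + s ^ 2 * (-2))) =
      s * (-A * s ^ 2 + 6 * (y * m) * s + 6 * d * s - 24 * d * y ^ 2) := by ring
  rw [e]
  apply mul_neg_of_pos_of_neg hs
  rw [hy2]
  nlinarith [mul_le_mul_of_nonneg_right hym hs.le]

set_option maxHeartbeats 1000000 in
/-- strong maximum principle: a nonnegative supersolution that is not identically zero at time `a`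
is positive everywhere at time `b` -/
theorem strong_pos (a b d K : ℝ) (hab : a < b) (hd : 0 < d) (v vt vx vxx : ℝ → ℝ → ℝ)
    (hc : ContinuousOn (fun p : ℝ × ℝ => v p.1 p.2) (Icc a b ×ˢ Icc (0:ℝ) 1))
    (ht : ∀ t ∈ Ioc a b, ∀ x ∈ Icc (0:ℝ) 1, HasDerivAt (fun s => v s x) (vt t x) t)
    (hx : ∀ t ∈ Ioc a b, ∀ x ∈ Icc (0:ℝ) 1, HasDerivWithinAt (v t) (vx t x) (Icc (0:ℝ) 1) x)
    (hxx : ∀ t ∈ Ioc a b, ∀ x ∈ Icc (0:ℝ) 1, HasDerivWithinAt (vx t) (vxx t x) (Icc (0:ℝ) 1) x)
    (h0 : ∀ t ∈ Ioc a b, vx t 0 = 0) (h1 : ∀ t ∈ Ioc a b, vx t 1 = 0)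
    (hnn : ∀ t ∈ Icc a b, ∀ x ∈ Icc (0:ℝ) 1, 0 ≤ v t x)
    (hw : ∀ t ∈ Ioc a b, ∀ x ∈ Icc (0:ℝ) 1, d * vxx t x - K * v t x ≤ vt t x)
    (hi : ∃ x ∈ Icc (0:ℝ) 1, v a x ≠ 0) : ∀ x ∈ Icc (0:ℝ) 1, 0 < v b x := by
  intro x1 hx1
  obtain ⟨x0, hx0, hne⟩ := hi
  have hba : 0 < b - a := sub_pos.2 hab
  have ha : a ∈ Icc a b := ⟨le_rfl, hab.le⟩
  have hv0 : 0 < v a x0 := lt_of_le_of_ne (hnn a ha x0 hx0) (Ne.symm hne)
  -- the radius
  obtain ⟨δ, hδ, hδ'⟩ := Metric.continuousOn_iff.1 hc (a, x0) ⟨ha, hx0⟩ (v a x0 / 2) (by linarith)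
  set r := min (δ / 2) 1 with hr
  have hr0 : 0 < r := lt_min (by linarith) one_pos
  have hr1 : r ≤ 1 := min_le_right _ _
  have hrδ : r < δ := lt_of_le_of_lt (min_le_left _ _) (by linarith)
  set ε := v a x0 / 2 with hε
  have hε0 : 0 < ε := by positivity
  have hρ : ∀ x ∈ Icc (0:ℝ) 1, |x - x0| < r → ε ≤ v a x := by
    intro x hxI hxr
    have h2 := hδ' (a, x) ⟨ha, hxI⟩ (by
      rw [Prod.dist_eq, dist_self, Real.dist_eq]
      exact max_lt hδ (lt_trans hxr hrδ))
    rw [Real.dist_eq] at h2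
    have h3 := (abs_lt.1 h2).1
    have h4 : v a x - v a x0 > -(v a x0 / 2) := h3
    linarith
  -- the bump
  set m := (x1 - x0) / (b - a) with hm
  set C := 1 / (b - a) with hC
  have hmC : |m| ≤ C := by
    rw [hm, hC, abs_div, abs_of_pos hba]
    apply div_le_div_of_nonneg_right _ hba.le
    rw [abs_le]
    constructor <;> linarith [hx0.1, hx0.2, hx1.1, hx1.2]
  set A := (6 * C + 30 * d) ^ 2 / (96 * d * r ^ 2) + 1 with hA
  have hA' : (6 * C + 30 * d) ^ 2 < 96 * A * d * r ^ 2 := by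
    have h2 : 0 < 96 * d * r ^ 2 := by positivity
    have h3 : 96 * A * d * r ^ 2 = (6 * C + 30 * d) ^ 2 + 96 * d * r ^ 2 := by
      rw [hA]; field_simp
    rw [h3]; linarith
  let c : ℝ → ℝ := fun t => x0 + (t - a) * m
  have hcI : ∀ t ∈ Icc a b, c t ∈ Icc (0:ℝ) 1 := by
    intro t htI
    have h2 : (t - a) * m = ((t - a) / (b - a)) * (x1 - x0) := by rw [hm]; ring
    have h3 : 0 ≤ (t - a) / (b - a) := div_nonneg (by linarith [htI.1]) hba.le
    have h4 : (t - a) / (b - a) ≤ 1 := (div_le_one hba).2 (by linarith [htI.2])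
    change x0 + (t - a) * m ∈ Icc (0:ℝ) 1
    rw [h2]
    constructor
    · nlinarith [hx0.1, hx0.2, hx1.1, hx1.2]
    · nlinarith [hx0.1, hx0.2, hx1.1, hx1.2]
  have hcd : ∀ t, HasDerivAt c m t := by
    intro t
    have h2 : HasDerivAt (fun t : ℝ => (t - a) * m) (1 * m) t :=
      ((hasDerivAt_id t).sub_const a).mul_const m
    exact (h2.const_add x0).congr_deriv (one_mul m)
  let E : ℝ → ℝ := fun t => ε * Real.exp (-(A + K) * (t - a))
  have hE0 : ∀ t, 0 < E t := fun t => mul_pos hε0 (Real.exp_pos _)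
  have hEd : ∀ t, HasDerivAt E (-(A + K) * E t) t := by
    intro t
    have h2 : HasDerivAt (fun t : ℝ => -(A + K) * (t - a)) (-(A + K) * 1) t :=
      ((hasDerivAt_id t).sub_const a).const_mul _
    have h3 := (h2.exp).const_mul ε
    refine h3.congr_deriv ?_
    change ε * (Real.exp (-(A + K) * (t - a)) * (-(A + K) * 1)) =
      -(A + K) * (ε * Real.exp (-(A + K) * (t - a)))
    ring
  let z : ℝ → ℝ → ℝ := fun t x => r ^ 2 - (x - c t) ^ 2
  have hzt : ∀ t x, HasDerivAt (fun s => z s x) (2 * (x - c t) * m) t := by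
    intro t x
    have h2 : HasDerivAt (fun s => x - c s) (-m) t := (hcd t).const_sub x
    have h3 := (h2.pow 2).const_sub (r ^ 2)
    refine h3.congr_deriv ?_
    push_cast
    ring
  have hzx : ∀ t x, HasDerivAt (fun y => z t y) (-2 * (x - c t)) x := by
    intro t x
    have h2 : HasDerivAt (fun y => y - c t) 1 x := (hasDerivAt_id x).sub_const _
    have h3 := (h2.pow 2).const_sub (r ^ 2)
    refine h3.congr_deriv ?_
    push_cast
    ring
  let s : ℝ → ℝ → ℝ := fun t x => max (z t x) 0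
  have hs0 : ∀ t x, 0 ≤ s t x := fun t x => le_max_right _ _
  let ψ : ℝ → ℝ → ℝ := fun t x => E t * s t x ^ 3
  have hψt : ∀ t x, HasDerivAt (fun t => ψ t x)
      (-(A + K) * E t * s t x ^ 3 + E t * (3 * s t x ^ 2 * (2 * (x - c t) * m))) t := by
    intro t x
    have h2 : HasDerivAt (fun τ => s τ x ^ 3) (3 * s t x ^ 2 * (2 * (x - c t) * m)) t :=
      HasDerivAt.comp (h₂ := fun z : ℝ => max z 0 ^ 3) (h := fun τ => z τ x) t
        (A6_p3 (z t x)) (hzt t x)
    exact (hEd t).mul h2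
  let ψx : ℝ → ℝ → ℝ := fun t x => E t * (3 * (s t x ^ 2 * (-2 * (x - c t))))
  have hψx : ∀ t x, HasDerivAt (fun y => ψ t y) (ψx t x) x := by
    intro t x
    have h2 := ((A6_p3 (z t x)).comp x (hzx t x)).const_mul (E t)
    refine h2.congr_deriv ?_
    change E t * (3 * max (z t x) 0 ^ 2 * (-2 * (x - c t))) =
      E t * (3 * (max (z t x) 0 ^ 2 * (-2 * (x - c t))))
    ring
  have hψxx : ∀ t x, HasDerivAt (fun y => ψx t y)
      (E t * (3 * (2 * s t x * (-2 * (x - c t)) * (-2 * (x - c t)) + s t x ^ 2 * (-2)))) x := by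
    intro t x
    have h2 := (A6_p2 (z t x)).comp x (hzx t x)
    have h3 : HasDerivAt (fun y => -2 * (y - c t)) (-2) x := by
      simpa using ((hasDerivAt_id x).sub_const (c t)).const_mul (-2)
    exact ((h2.mul h3).const_mul 3).const_mul (E t)
  -- continuity
  have hcc : Continuous c := by fun_prop
  have hEc : Continuous E := by fun_prop
  have hsc : Continuous fun p : ℝ × ℝ => s p.1 p.2 := by
    change Continuous fun p : ℝ × ℝ => max (r ^ 2 - (p.2 - c p.1) ^ 2) 0
    fun_prop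
  have hψc : Continuous fun p : ℝ × ℝ => ψ p.1 p.2 :=
    (hEc.comp continuous_fst).mul (hsc.pow 3)
  let g : ℝ × ℝ → ℝ := fun p => Real.exp (K * (p.1 - a)) * (v p.1 p.2 - ψ p.1 p.2)
  have hgc : ContinuousOn g (Icc a b ×ˢ Icc (0:ℝ) 1) := by
    refine ContinuousOn.mul (by fun_prop) (hc.sub hψc.continuousOn)
  obtain ⟨⟨t, x⟩, ⟨htI, hxI⟩, hmin⟩ := (isCompact_Icc.prod isCompact_Icc).exists_isMinOn
    ⟨(a, x0), ha, hx0⟩ hgc
  simp only at htI hxI
  have hmin' : ∀ t' ∈ Icc a b, ∀ x' ∈ Icc (0:ℝ) 1, g (t, x) ≤ g (t', x') :=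
    fun t' ht' x' hx' => hmin ⟨ht', hx'⟩
  -- the minimum is nonnegative
  have hpos : 0 ≤ g (t, x) := by
    by_contra hneg
    push Not at hneg
    have hwneg : v t x - ψ t x < 0 := by
      by_contra h2
      push Not at h2
      exact absurd hneg (not_lt.2 (mul_nonneg (Real.exp_pos _).le h2))
    have hψpos : 0 < ψ t x := by linarith [hnn t htI x hxI]
    have hspos : 0 < s t x := by
      rcases (hs0 t x).lt_or_eq with h2 | h2
      · exact h2
      · exfalso
        have : ψ t x = 0 := by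
          change E t * s t x ^ 3 = 0
          rw [← h2]; simp
        linarith
    have hzpos : 0 < z t x := by
      by_contra h2
      push Not at h2
      have : s t x = 0 := max_eq_right h2
      linarith
    have hsz : s t x = r ^ 2 - (x - c t) ^ 2 := max_eq_left hzpos.le
    -- not at time a
    have hta : a < t := by
      rcases htI.1.lt_or_eq with h2 | h2
      · exact h2
      · exfalso
        subst h2
        have e1 : c a = x0 := by
          change x0 + (a - a) * m = x0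
          ring
        have e2 : E a = ε := by
          change ε * Real.exp (-(A + K) * (a - a)) = ε
          simp
        rw [e1] at hsz
        have h3 : |x - x0| < r := by
          apply abs_lt_of_sq_lt_sq _ hr0.le
          linarith
        have h4 := hρ x hxI h3
        have h5 : s a x ≤ 1 := by rw [hsz]; nlinarith [sq_nonneg (x - x0)]
        have h6 : s a x ^ 3 ≤ 1 := pow_le_one₀ (hs0 a x) h5
        have h7 : ψ a x ≤ ε := by
          change E a * s a x ^ 3 ≤ ε
          rw [e2]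
          nlinarith
        linarith
    have htI' : t ∈ Ioc a b := ⟨hta, htI.2⟩
    -- time derivative
    have hwt := (ht t htI' x hxI).sub (hψt t x)
    set wt := vt t x -
      (-(A + K) * E t * s t x ^ 3 + E t * (3 * s t x ^ 2 * (2 * (x - c t) * m))) with hwtdef
    have hexp : HasDerivAt (fun τ : ℝ => Real.exp (K * (τ - a)))
        (Real.exp (K * (t - a)) * K) t := by
      have h2 : HasDerivAt (fun τ : ℝ => K * (τ - a)) (K * 1) t :=
        ((hasDerivAt_id t).sub_const a).const_mul K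
      simpa using h2.exp
    have hgt := (hexp.mul hwt).hasDerivWithinAt (s := Icc a b)
    have h2 := A6_dir a b _ _ t a htI ha hgt (fun t' ht' => hmin' t' ht' x hxI)
    have h3 : Real.exp (K * (t - a)) * K * (v t x - ψ t x) + Real.exp (K * (t - a)) * wt ≤ 0 := by
      by_contra h4
      push Not at h4
      have h5 : (Real.exp (K * (t - a)) * K * (v t x - ψ t x) + Real.exp (K * (t - a)) * wt) *
          (a - t) < 0 := mul_neg_of_pos_of_neg h4 (by linarith)
      exact absurd h2 (not_le.2 h5)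
    have h4 : K * (v t x - ψ t x) + wt ≤ 0 := by
      by_contra h5
      push Not at h5
      have h6 := mul_pos (Real.exp_pos (K * (t - a))) h5
      have h7 : Real.exp (K * (t - a)) * (K * (v t x - ψ t x) + wt) =
        Real.exp (K * (t - a)) * K * (v t x - ψ t x) + Real.exp (K * (t - a)) * wt := by ring
      linarith
    -- space derivatives
    have hwx : ∀ y ∈ Icc (0:ℝ) 1, HasDerivWithinAt (fun y => v t y - ψ t y) (vx t y - ψx t y)
        (Icc (0:ℝ) 1) y := fun y hy => (hx t htI' y hy).sub (hψx t y).hasDerivWithinAt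
    have hwxx := (hxx t htI' x hxI).sub ((hψxx t x).hasDerivWithinAt (s := Icc (0:ℝ) 1))
    have hminx : ∀ y ∈ Icc (0:ℝ) 1, v t x - ψ t x ≤ v t y - ψ t y := by
      intro y hy
      have h5 := hmin' t htI y hy
      exact le_of_mul_le_mul_left h5 (Real.exp_pos _)
    have hx00 : vx t x - ψx t x = 0 := by
      have hc1 := hcI t htI
      rcases hxI.1.lt_or_eq with hl | hl
      · rcases hxI.2.lt_or_eq with hr' | hr'
        · have h5 := A6_dir 0 1 _ _ x 0 hxI ⟨le_rfl, zero_le_one⟩ (hwx x hxI) hminx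
          have h6 := A6_dir 0 1 _ _ x 1 hxI ⟨zero_le_one, le_rfl⟩ (hwx x hxI) hminx
          apply le_antisymm
          · by_contra h7
            push Not at h7
            exact absurd h5 (not_le.2 (mul_neg_of_pos_of_neg h7 (by linarith)))
          · by_contra h7
            push Not at h7
            exact absurd h6 (not_le.2 (mul_neg_of_neg_of_pos h7 (by linarith)))
        · -- x = 1
          have h5 := A6_dir 0 1 _ _ x 0 hxI ⟨le_rfl, zero_le_one⟩ (hwx x hxI) hminx
          have h6 : vx t x = 0 := by rw [hr']; exact h1 t htI'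
          have h7 : ψx t x ≤ 0 := by
            change E t * (3 * (s t x ^ 2 * (-2 * (x - c t)))) ≤ 0
            have : 0 ≤ x - c t := by rw [hr']; linarith [hc1.2]
            have h8 : 0 ≤ E t * (3 * (s t x ^ 2 * (2 * (x - c t)))) := by
              have := hE0 t
              positivity
            linarith
          apply le_antisymm
          · by_contra h9
            push Not at h9
            exact absurd h5 (not_le.2 (mul_neg_of_pos_of_neg h9 (by linarith)))
          · rw [h6]; linarith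
      · -- x = 0
        have h5 := A6_dir 0 1 _ _ x 1 hxI ⟨zero_le_one, le_rfl⟩ (hwx x hxI) hminx
        have h6 : vx t x = 0 := by rw [← hl]; exact h0 t htI'
        have h7 : 0 ≤ ψx t x := by
          change 0 ≤ E t * (3 * (s t x ^ 2 * (-2 * (x - c t))))
          have : 0 ≤ c t - x := by rw [← hl]; linarith [hc1.1]
          have h8 : 0 ≤ E t * (3 * (s t x ^ 2 * (2 * (c t - x)))) := by
            have := hE0 t
            positivity
          linarith
        apply le_antisymm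
        · rw [h6]; linarith
        · by_contra h9
          push Not at h9
          exact absurd h5 (not_le.2 (mul_neg_of_neg_of_pos h9 (by linarith)))
    have h5 := A6_second _ (fun y => vx t y - ψx t y) _ x hxI hwx hwxx hx00 hminx
    -- the equation
    have h6 := hw t htI' x hxI
    have h7 := A6_alg A C d r (x - c t) m (s t x) hd hr0 hr1 hmC hA' hspos hsz
    have h8 := mul_neg_of_pos_of_neg (hE0 t) h7
    have h9 : ψ t x = E t * s t x ^ 3 := rfl
    rw [h9] at h4 hwneg
    rw [hwtdef] at h4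
    have h10 := mul_nonneg hd.le h5
    have h11 : d * (vxx t x - E t * (3 * (2 * s t x * (-2 * (x - c t)) * (-2 * (x - c t)) +
        s t x ^ 2 * (-2)))) = d * vxx t x + E t * (- d * (3 * (2 * s t x * (-2 * (x - c t)) *
        (-2 * (x - c t)) + s t x ^ 2 * (-2)))) := by ring
    rw [h11] at h10
    have h12 : E t * (-A * s t x ^ 3 + 3 * s t x ^ 2 * (2 * (x - c t) * m) -
        d * (3 * (2 * s t x * (-2 * (x - c t)) * (-2 * (x - c t)) + s t x ^ 2 * (-2)))) =
        -A * (E t * s t x ^ 3) + E t * (3 * s t x ^ 2 * (2 * (x - c t) * m)) +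
        E t * (- d * (3 * (2 * s t x * (-2 * (x - c t)) *
        (-2 * (x - c t)) + s t x ^ 2 * (-2)))) := by ring
    rw [h12] at h8
    have h13 : K * (v t x - E t * s t x ^ 3) + (vt t x - (-(A + K) * E t * s t x ^ 3 +
        E t * (3 * s t x ^ 2 * (2 * (x - c t) * m)))) = K * v t x + vt t x +
        A * (E t * s t x ^ 3) - E t * (3 * s t x ^ 2 * (2 * (x - c t) * m)) := by ring
    rw [h13] at h4
    linarith
  -- conclusion
  have hb : b ∈ Icc a b := ⟨hab.le, le_rfl⟩
  have h2 := hmin' b hb x1 hx1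
  have h3 : 0 ≤ v b x1 - ψ b x1 := by
    have h4 : 0 ≤ Real.exp (K * (b - a)) * (v b x1 - ψ b x1) := le_trans hpos h2
    exact nonneg_of_mul_nonneg_right h4 (Real.exp_pos _)
  have h4 : 0 < ψ b x1 := by
    have e1 : c b = x1 := by
      change x0 + (b - a) * m = x1
      rw [hm]; field_simp; ring
    have e2 : s b x1 = r ^ 2 := by
      change max (r ^ 2 - (x1 - c b) ^ 2) 0 = r ^ 2
      rw [e1, max_eq_left]
      · ring
      · have : 0 ≤ r ^ 2 := sq_nonneg r
        nlinarith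
    change 0 < E b * s b x1 ^ 3
    rw [e2]
    have := hE0 b
    positivity
  linarith

end Pool.Agent.Lib.MP_d8ef8f_an
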