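import Pool.Agent.Lib.MP_d8ef8f_an.L4

namespace Pool.Agent.Lib.MP_d8ef8f_an

open Set Filter Topology MeasureTheory

variable {ι : Type} [Fintype ι] [LinearOrder ι]

theorem C2_int {f : ℝ → ℝ} (hf : ContinuousOn f (Icc (0:ℝ) 1)) :
    IntervalIntegrable f volume 0 1 := by
  apply ContinuousOn.intervalIntegrable
  rwa [uIcc_of_le zero_le_one]

theorem C2_wgt {θ : ℝ → ℝ} (hθ : ContinuousOn θ (Icc (0:ℝ) 1))
    (hθpos : ∀ x ∈ Icc (0:ℝ) 1, 0 < θ x) (α : ℝ) : ContinuousOn (wgt θ α) (Icc (0:ℝ) 1) := by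
  unfold wgt
  apply Real.continuous_exp.comp_continuousOn
  apply ContinuousOn.add continuousOn_const
  apply ContinuousOn.mul continuousOn_const
  exact hθ.log (fun x hx => (hθpos x hx).ne')

theorem C2_ent_cont {θ v : ℝ → ℝ} (hθ : ContinuousOn θ (Icc (0:ℝ) 1))
    (hθpos : ∀ x ∈ Icc (0:ℝ) 1, 0 < θ x) (hv : ContinuousOn v (Icc (0:ℝ) 1))
    (hvpos : ∀ x ∈ Icc (0:ℝ) 1, 0 < v x) :
    ContinuousOn (fun x => θ x ^ 2 * (v x / θ x - 1 - Real.log (v x / θ x))) (Icc (0:ℝ) 1) := by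
  have h1 : ContinuousOn (fun x => v x / θ x) (Icc (0:ℝ) 1) :=
    hv.div hθ (fun x hx => (hθpos x hx).ne')
  exact (hθ.pow 2).mul ((h1.sub continuousOn_const).sub
    (h1.log (fun x hx => (div_pos (hvpos x hx) (hθpos x hx)).ne')))

/-- entropy integrand near `p = 1` -/
theorem C2_G {p φ : ℝ} (hφ0 : 0 < φ) (hφ : φ ≤ 1 / 2) (hp : |p - 1| ≤ φ) :
    p - 1 - Real.log p ≤ 2 * φ ^ 2 := by
  have h1 := (abs_le.1 hp).1
  have hp0 : 1 / 2 ≤ p := by linarith
  have hpp : 0 < p := by linarith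
  have h2 := Real.one_sub_inv_le_log_of_pos hpp
  have h3 : p - 1 - (1 - p⁻¹) = (p - 1) ^ 2 / p := by
    field_simp
  have h4 : (p - 1) ^ 2 / p ≤ 2 * φ ^ 2 := by
    rw [div_le_iff₀ hpp]
    have h5 : (p - 1) ^ 2 ≤ φ ^ 2 := by
      rw [← sq_abs]
      exact pow_le_pow_left₀ (abs_nonneg _) hp 2
    have h6 : 0 ≤ φ ^ 2 := sq_nonneg _
    nlinarith
  linarith

/-- `Lam` is small if `v k ≈ θ` and the faster species are small -/
theorem lam_small {θ : ℝ → ℝ} {B dk : ℝ} (hB0 : 0 < B) (hdk : 4 * B ≤ dk)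
    (d : ι → ℝ) (k : ι) (hk : d k = dk) (hd : ∀ j, k < j → dk < d j)
    (hθ : ContinuousOn θ (Icc (0:ℝ) 1)) (hθpos : ∀ x ∈ Icc (0:ℝ) 1, 0 < θ x)
    (hθB : ∀ x ∈ Icc (0:ℝ) 1, θ x ≤ B)
    (hy : ∀ x ∈ Icc (0:ℝ) 1, |Real.log (θ x) - Real.log (θ 0)| ≤ 4 * B / dk) :
    ∀ ε > 0, ∃ φ > 0, ∀ v : ι → ℝ → ℝ,
      (∀ j, ContinuousOn (v j) (Icc (0:ℝ) 1)) → (∀ j, ∀ x ∈ Icc (0:ℝ) 1, 0 < v j x) →
      (∀ x ∈ Icc (0:ℝ) 1, |v k x / θ x - 1| ≤ φ) →
      (∑ j ∈ Finset.univ.filter (fun j => k < j), ∫ x in (0:ℝ)..1, v j x) ≤ φ →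
      Lam d θ k v < ε := by
  intro ε hε
  have hdk0 : 0 < dk := by linarith
  have hθ0 : 0 < θ 0 := hθpos 0 ⟨le_rfl, zero_le_one⟩
  have hτ1 : 4 * B / dk ≤ 1 := by rw [div_le_one hdk0]; exact hdk
  have hα : ∀ j, k < j → 0 ≤ d k / d j ∧ d k / d j ≤ 1 := by
    intro j hj
    have h1 := hd j hj
    rw [hk]
    have h2 : 0 < d j := hdk0.trans h1
    exact ⟨by positivity, by rw [div_le_one h2]; exact h1.le⟩
  set M := 2 * B ^ 2 + 3 * θ 0 with hM
  have hM0 : 0 < M := by positivity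
  refine ⟨min (1 / 2) (ε / (2 * M)), lt_min (by norm_num) (by positivity), ?_⟩
  intro v hv hvpos hclose hsum
  set φ := min (1 / 2) (ε / (2 * M)) with hφ
  have hφ0 : 0 < φ := lt_min (by norm_num) (by positivity)
  have hφ1 : φ ≤ 1 / 2 := min_le_left _ _
  have hφ2 : M * φ ≤ ε / 2 := by
    have h1 : φ ≤ ε / (2 * M) := min_le_right _ _
    have h2 := mul_le_mul_of_nonneg_left h1 hM0.le
    refine h2.trans (le_of_eq ?_)
    field_simp
  have hent : ent θ (v k) ≤ B ^ 2 * (2 * φ ^ 2) := by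
    unfold ent
    have h1 : (∫ x in (0:ℝ)..1, θ x ^ 2 * (v k x / θ x - 1 - Real.log (v k x / θ x))) ≤
        ∫ _ in (0:ℝ)..1, B ^ 2 * (2 * φ ^ 2) := by
      apply intervalIntegral.integral_mono_on zero_le_one
        (C2_int (C2_ent_cont hθ hθpos (hv k) (hvpos k))) (C2_int continuousOn_const)
      intro x hx
      have h2 := C2_G hφ0 hφ1 (hclose x hx)
      have h3 : θ x ^ 2 ≤ B ^ 2 := pow_le_pow_left₀ (hθpos x hx).le (hθB x hx) 2
      have h4 : 0 ≤ v k x / θ x - 1 - Real.log (v k x / θ x) := by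
        have := Real.log_le_sub_one_of_pos (div_pos (hvpos k x hx) (hθpos x hx))
        linarith
      exact mul_le_mul h3 h2 h4 (sq_nonneg _)
    simpa using h1
  have hrest : (∑ j ∈ Finset.univ.filter (fun j => k < j),
      ∫ x in (0:ℝ)..1, wgt θ (d k / d j) x * v j x) ≤ 3 * θ 0 * φ := by
    have h1 : (∑ j ∈ Finset.univ.filter (fun j => k < j),
      ∫ x in (0:ℝ)..1, wgt θ (d k / d j) x * v j x) ≤
      ∑ j ∈ Finset.univ.filter (fun j => k < j), 3 * θ 0 * ∫ x in (0:ℝ)..1, v j x := by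
      apply Finset.sum_le_sum
      intro j hj
      have hj' := (Finset.mem_filter.mp hj).2
      rw [← intervalIntegral.integral_const_mul]
      apply intervalIntegral.integral_mono_on zero_le_one
        (C2_int ((C2_wgt hθ hθpos _).mul (hv j))) (C2_int (continuousOn_const.mul (hv j)))
      intro x hx
      have h2 := (wgt_bounds (θ := θ) (x := x) (α := d k / d j) (τ := 4 * B / dk) hθ0 (hθpos x hx)
        (hα j hj').1 (hα j hj').2 (hy x hx) hτ1).2.1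
      exact mul_le_mul_of_nonneg_right h2 (hvpos j x hx).le
    rw [← Finset.mul_sum] at h1
    refine h1.trans ?_
    exact mul_le_mul_of_nonneg_left hsum (by positivity)
  unfold Lam
  have hsq : φ ^ 2 ≤ φ := by nlinarith
  have hB2 : 0 ≤ B ^ 2 := sq_nonneg _
  have h5 : B ^ 2 * (2 * φ ^ 2) ≤ 2 * B ^ 2 * φ := by nlinarith
  have h6 : M * φ = 2 * B ^ 2 * φ + 3 * θ 0 * φ := by rw [hM]; ring
  linarith

/-- `Lam` controls the faster species, and the entropy part is nonnegative -/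
theorem lam_lower {θ : ℝ → ℝ} {B dk : ℝ} (hB0 : 0 < B) (hdk : 4 * B ≤ dk)
    (d : ι → ℝ) (k : ι) (hk : d k = dk) (hd : ∀ j, k < j → dk < d j)
    (hθ : ContinuousOn θ (Icc (0:ℝ) 1)) (hθpos : ∀ x ∈ Icc (0:ℝ) 1, 0 < θ x)
    (hy : ∀ x ∈ Icc (0:ℝ) 1, |Real.log (θ x) - Real.log (θ 0)| ≤ 4 * B / dk)
    (v : ι → ℝ → ℝ) (hv : ∀ j, ContinuousOn (v j) (Icc (0:ℝ) 1))
    (hvpos : ∀ j, ∀ x ∈ Icc (0:ℝ) 1, 0 < v j x) :
    0 ≤ ent θ (v k) ∧
    θ 0 / 3 * (∑ j ∈ Finset.univ.filter (fun j => k < j), ∫ x in (0:ℝ)..1, v j x) + ent θ (v k)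
      ≤ Lam d θ k v := by
  have hdk0 : 0 < dk := by linarith
  have hθ0 : 0 < θ 0 := hθpos 0 ⟨le_rfl, zero_le_one⟩
  have hτ1 : 4 * B / dk ≤ 1 := by rw [div_le_one hdk0]; exact hdk
  have hα : ∀ j, k < j → 0 ≤ d k / d j ∧ d k / d j ≤ 1 := by
    intro j hj
    have h1 := hd j hj
    rw [hk]
    have h2 : 0 < d j := hdk0.trans h1
    exact ⟨by positivity, by rw [div_le_one h2]; exact h1.le⟩
  constructor
  · unfold ent
    apply intervalIntegral.integral_nonneg zero_le_one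
    intro x hx
    apply mul_nonneg (sq_nonneg _)
    have := Real.log_le_sub_one_of_pos (div_pos (hvpos k x hx) (hθpos x hx))
    linarith
  · unfold Lam
    have h1 : θ 0 / 3 * (∑ j ∈ Finset.univ.filter (fun j => k < j), ∫ x in (0:ℝ)..1, v j x) ≤
        ∑ j ∈ Finset.univ.filter (fun j => k < j),
          ∫ x in (0:ℝ)..1, wgt θ (d k / d j) x * v j x := by
      rw [Finset.mul_sum]
      apply Finset.sum_le_sum
      intro j hj
      have hj' := (Finset.mem_filter.mp hj).2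
      rw [← intervalIntegral.integral_const_mul]
      apply intervalIntegral.integral_mono_on zero_le_one
        (C2_int (continuousOn_const.mul (hv j))) (C2_int ((C2_wgt hθ hθpos _).mul (hv j)))
      intro x hx
      have h2 := (wgt_bounds (θ := θ) (x := x) (α := d k / d j) (τ := 4 * B / dk) hθ0 (hθpos x hx)
        (hα j hj').1 (hα j hj').2 (hy x hx) hτ1).1
      exact mul_le_mul_of_nonneg_right h2 (hvpos j x hx).le
    linarith

end Pool.Agent.Lib.MP_d8ef8f_an
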