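import Pool.Agent.Lib.MP_d8ef8f_an.S1
import Pool.Agent.Lib.MP_d8ef8f_an.A3

namespace Pool.Agent.Lib.MP_d8ef8f_an

open Set Filter Topology MeasureTheory

variable {ι : Type} [Fintype ι]

private theorem S3_slice {f : ℝ → ℝ → ℝ} {T : Set ℝ}
    (h : ContinuousOn (fun p : ℝ × ℝ => f p.1 p.2) (T ×ˢ Icc (0:ℝ) 1)) {t : ℝ} (ht : t ∈ T) :
    ContinuousOn (f t) (Icc (0:ℝ) 1) := by
  have h1 : ContinuousOn (fun x : ℝ => ((t, x) : ℝ × ℝ)) (Icc (0:ℝ) 1) := by fun_prop
  exact h.comp h1 (fun x hx => ⟨ht, hx⟩)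

private theorem S3_int {f : ℝ → ℝ} (h : ContinuousOn f (Icc (0:ℝ) 1)) :
    IntervalIntegrable f volume 0 1 := by
  apply ContinuousOn.intervalIntegrable
  rwa [uIcc_of_le zero_le_one]

private theorem S3_mono {f g : ℝ → ℝ} (hf : ContinuousOn f (Icc (0:ℝ) 1))
    (hg : ContinuousOn g (Icc (0:ℝ) 1)) (h : ∀ x ∈ Icc (0:ℝ) 1, f x ≤ g x) :
    ∫ x in (0:ℝ)..1, f x ≤ ∫ x in (0:ℝ)..1, g x :=
  intervalIntegral.integral_mono_on zero_le_one (S3_int hf) (S3_int hg) h

/-- `R ≥ 1` -/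
theorem one_le_rat {d : ι → ℝ} {m : ℝ → ℝ} {T : Set ℝ} {u ut ux uxx : ι → ℝ → ℝ → ℝ}
    (hs : IsSol d m T u ut ux uxx) (hpos : ∀ j, ∀ t ∈ T, ∀ x ∈ Icc (0:ℝ) 1, 0 < u j t x)
    (j : ι) : ∀ t ∈ T, 0 < mass u j t ∧ 1 ≤ rat u j t := by
  intro t ht
  have hc := S3_slice (hs.c0 j) ht
  have h1 : 0 < mass u j t := by
    refine intervalIntegral.intervalIntegral_pos_of_pos_on (S3_int hc) (fun x hx => ?_) zero_lt_one
    exact hpos j t ht x (Ioo_subset_Icc_self hx)
  refine ⟨h1, ?_⟩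
  have h2 := cauchy_schwarz (u j t) (fun _ => 1) hc continuousOn_const
  simp only [mul_one, one_pow, intervalIntegral.integral_const, sub_zero, smul_eq_mul] at h2
  rw [rat, le_div_iff₀ (by positivity), one_mul]
  exact h2

/-- differential inequality for the ratio of the species with the largest ratio -/
theorem rat_deriv_le {d : ι → ℝ} {m : ℝ → ℝ} {T : Set ℝ} {u ut ux uxx : ι → ℝ → ℝ → ℝ} {B : ℝ}
    (hB0 : 0 < B) (hd : ∀ j, 0 < d j)
    (hT : IsOpen T) (hm : ContinuousOn m (Icc (0:ℝ) 1)) (hB : ∀ x ∈ Icc (0:ℝ) 1, |m x| ≤ B)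
    (hs : IsSol d m T u ut ux uxx) (hpos : ∀ j, ∀ t ∈ T, ∀ x ∈ Icc (0:ℝ) 1, 0 < u j t x)
    (t : ℝ) (ht : t ∈ T) (hS : ∑ j, mass u j t ≤ 2 * B) (j : ι) :
    ∃ D : ℝ, HasDerivAt (rat u j) D t ∧ ((∀ k, rat u k t ≤ rat u j t) →
      D ≤ - 2 * d j * (rat u j t - 1) ^ 2 + 8 * B * rat u j t ^ 2) := by
  have hc : ∀ k, ContinuousOn (u k t) (Icc (0:ℝ) 1) := fun k => S3_slice (hs.c0 k) ht
  have hcx : ContinuousOn (ux j t) (Icc (0:ℝ) 1) := S3_slice (hs.cx j) ht
  have hU : ContinuousOn (fun x => ∑ k, u k t x) (Icc (0:ℝ) 1) :=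
    continuousOn_finsetSum _ (fun k _ => hc k)
  have hU0 : ∀ x ∈ Icc (0:ℝ) 1, 0 ≤ ∑ k, u k t x := fun x hx =>
    Finset.sum_nonneg fun k _ => hs.nonneg k t ht x hx
  have hs1 := fun k => one_le_rat hs hpos k t ht
  have hmd := mass_deriv hT hs j t ht
  have hsd := sq_deriv hT hm hs j t ht
  set s := mass u j t with hsdef
  set q := sq u j t with hqdef
  set G := ∫ x in (0:ℝ)..1, ux j t x ^ 2 with hG
  set A1 := ∫ x in (0:ℝ)..1, u j t x * (m x - ∑ k, u k t x) with hA1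
  set A2 := ∫ x in (0:ℝ)..1, u j t x ^ 2 * (m x - ∑ k, u k t x) with hA2
  have hspos : 0 < s := (hs1 j).1
  have hG0 : 0 ≤ G := intervalIntegral.integral_nonneg zero_le_one fun x _ => sq_nonneg _
  refine ⟨((- 2 * d j * G + 2 * A2) * s ^ 2 - q * (2 * s * A1)) / (s ^ 2) ^ 2, ?_, ?_⟩
  · have h1 : HasDerivAt (fun t => mass u j t ^ 2) (2 * s * A1) t := by
      have h0 := hmd.mul hmd
      have e : (mass u j * mass u j) = fun t => mass u j t ^ 2 := by
        funext z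
        simp [pow_two]
      rw [e] at h0
      have e2 : 2 * s * A1 = A1 * mass u j t + mass u j t * A1 := by
        rw [hsdef]; ring
      rw [e2]
      exact h0
    exact hsd.div h1 (by positivity)
  intro hmax
  set R := rat u j t with hR
  have hR1 : 1 ≤ R := (hs1 j).2
  have hqR : q = R * s ^ 2 := by
    rw [hR, rat, div_mul_cancel₀ _ (by positivity)]
  -- A2 ≤ B q
  have hA2' : A2 ≤ B * q := by
    rw [hA2, hqdef, sq, ← intervalIntegral.integral_const_mul]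
    refine S3_mono (((hc j).pow 2).mul (hm.sub hU)) (continuousOn_const.mul ((hc j).pow 2))
      fun x hx => ?_
    have h1 := (abs_le.1 (hB x hx)).2
    have h2 := hU0 x hx
    have h3 : 0 ≤ u j t x ^ 2 := sq_nonneg _
    nlinarith
  -- the cross terms
  have hcross : ∀ k, ∫ x in (0:ℝ)..1, u j t x * u k t x ≤ s * mass u k t * R := by
    intro k
    have h1 := cauchy_schwarz (u j t) (u k t) (hc j) (hc k)
    have h2 : (∫ x in (0:ℝ)..1, u k t x ^ 2) = rat u k t * mass u k t ^ 2 := by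
      have : (∫ x in (0:ℝ)..1, u k t x ^ 2) = sq u k t := rfl
      rw [this, rat, div_mul_cancel₀ _ (by have := (hs1 k).1; positivity)]
    have h3 : (∫ x in (0:ℝ)..1, u j t x ^ 2) = R * s ^ 2 := hqR
    rw [h2, h3] at h1
    have h4 : (∫ x in (0:ℝ)..1, u j t x * u k t x) ^ 2 ≤ (s * mass u k t * R) ^ 2 := by
      refine h1.trans ?_
      have h5 := hmax k
      have h6 : 0 ≤ R * s ^ 2 * mass u k t ^ 2 := by positivity
      calc R * s ^ 2 * (rat u k t * mass u k t ^ 2)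
          = (R * s ^ 2 * mass u k t ^ 2) * rat u k t := by ring
        _ ≤ (R * s ^ 2 * mass u k t ^ 2) * R := mul_le_mul_of_nonneg_left h5 h6
        _ = (s * mass u k t * R) ^ 2 := by ring
    exact (abs_le_of_sq_le_sq' h4 (by have := (hs1 k).1; positivity)).2
  have hW : ∫ x in (0:ℝ)..1, u j t x * ∑ k, u k t x ≤ 2 * B * s * R := by
    have h1 : (∫ x in (0:ℝ)..1, u j t x * ∑ k, u k t x)
        = ∑ k, ∫ x in (0:ℝ)..1, u j t x * u k t x := by
      have h0 := intervalIntegral.integral_finsetSum (μ := volume) (a := 0) (b := 1)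
        (s := Finset.univ) (f := fun (k : ι) x => u j t x * u k t x)
        (fun k _ => S3_int ((hc j).mul (hc k)))
      rw [← h0]
      simp_rw [Finset.mul_sum]
    rw [h1]
    calc ∑ k, ∫ x in (0:ℝ)..1, u j t x * u k t x ≤ ∑ k, s * mass u k t * R :=
          Finset.sum_le_sum fun k _ => hcross k
      _ = (∑ k, mass u k t) * (s * R) := by
          rw [Finset.sum_mul]
          exact Finset.sum_congr rfl fun k _ => by ring
      _ ≤ (2 * B) * (s * R) := mul_le_mul_of_nonneg_right hS (by positivity)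
      _ = 2 * B * s * R := by ring
  -- A1 ≥ - B s - W
  have hA1' : - (B * s + 2 * B * s * R) ≤ A1 := by
    have h1 : A1 = (∫ x in (0:ℝ)..1, u j t x * m x) - ∫ x in (0:ℝ)..1, u j t x * ∑ k, u k t x := by
      have h0 := intervalIntegral.integral_sub (μ := volume) (a := 0) (b := 1)
        (f := fun x => u j t x * m x) (g := fun x => u j t x * ∑ k, u k t x)
        (S3_int ((hc j).mul hm)) (S3_int ((hc j).mul hU))
      rw [hA1, ← h0]
      simp_rw [mul_sub]
    have h2 : - (B * s) ≤ ∫ x in (0:ℝ)..1, u j t x * m x := by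
      have : - (B * s) = ∫ x in (0:ℝ)..1, (-B) * u j t x := by
        rw [intervalIntegral.integral_const_mul, hsdef, mass]
        ring
      rw [this]
      refine S3_mono (continuousOn_const.mul (hc j)) ((hc j).mul hm) fun x hx => ?_
      have h3 := (abs_le.1 (hB x hx)).1
      have h4 := hs.nonneg j t ht x hx
      nlinarith
    rw [h1]
    linarith
  -- (R-1)^2 s^2 ≤ G
  have hG1 : (R - 1) ^ 2 * s ^ 2 ≤ G := by
    have h1 : q ≤ s * (s + Real.sqrt G) := by
      have h2 : s * (s + Real.sqrt G) = ∫ x in (0:ℝ)..1, (s + Real.sqrt G) * u j t x := by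
        rw [intervalIntegral.integral_const_mul, hsdef, mass]
        ring
      rw [h2, hqdef, sq]
      refine S3_mono ((hc j).pow 2) (continuousOn_const.mul (hc j)) fun x hx => ?_
      have h3 := (abs_le.1 (sup_le (u j t) (ux j t) (hs.dx j t ht) hcx x hx)).2
      have h4 := hs.nonneg j t ht x hx
      have h5 : u j t x ≤ s + Real.sqrt G := by
        have : (∫ z in (0:ℝ)..1, u j t z) = s := rfl
        rw [this] at h3
        linarith
      rw [pow_two]
      exact mul_le_mul_of_nonneg_right h5 h4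
    rw [hqR] at h1
    have h6 : (R - 1) * s ≤ Real.sqrt G := by
      have h7 : s * ((R - 1) * s) ≤ s * Real.sqrt G := by nlinarith
      exact le_of_mul_le_mul_left h7 hspos
    have h8 : 0 ≤ (R - 1) * s := mul_nonneg (by linarith) hspos.le
    calc (R - 1) ^ 2 * s ^ 2 = ((R - 1) * s) ^ 2 := by ring
      _ ≤ (Real.sqrt G) ^ 2 := pow_le_pow_left₀ h8 h6 2
      _ = G := Real.sq_sqrt hG0
  have hdj := hd j
  rw [div_le_iff₀ (by positivity)]
  rw [hqR] at hA2' ⊢
  have e1 : 0 < s ^ 2 := by positivity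
  have h1 : (- 2 * d j * G + 2 * A2) * s ^ 2 ≤
      (- 2 * d j * ((R - 1) ^ 2 * s ^ 2) + 2 * (B * (R * s ^ 2))) * s ^ 2 := by
    apply mul_le_mul_of_nonneg_right _ e1.le
    have : d j * ((R - 1) ^ 2 * s ^ 2) ≤ d j * G := mul_le_mul_of_nonneg_left hG1 hdj.le
    linarith
  have h2 : R * s ^ 2 * (2 * s * A1) ≥ R * s ^ 2 * (2 * s * (-(B * s + 2 * B * s * R))) := by
    apply mul_le_mul_of_nonneg_left _ (by positivity)
    exact mul_le_mul_of_nonneg_left hA1' (by positivity)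
  have h3 : (- 2 * d j * ((R - 1) ^ 2 * s ^ 2) + 2 * (B * (R * s ^ 2))) * s ^ 2 -
      R * s ^ 2 * (2 * s * (-(B * s + 2 * B * s * R))) ≤
      (-2 * d j * (R - 1) ^ 2 + 8 * B * R ^ 2) * (s ^ 2) ^ 2 := by
    have e2 : (-2 * d j * (R - 1) ^ 2 + 8 * B * R ^ 2) * (s ^ 2) ^ 2 -
      ((- 2 * d j * ((R - 1) ^ 2 * s ^ 2) + 2 * (B * (R * s ^ 2))) * s ^ 2 -
      R * s ^ 2 * (2 * s * (-(B * s + 2 * B * s * R)))) = 4 * B * (R * (R - 1)) * (s ^ 2) ^ 2 := by
      ring
    have e3 : 0 ≤ 4 * B * (R * (R - 1)) * (s ^ 2) ^ 2 := by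
      have : 0 ≤ R - 1 := by linarith
      positivity
    linarith
  linarith

end Pool.Agent.Lib.MP_d8ef8f_an
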