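import Pool.Agent.Lib.MP_d8ef8f_an.Defs

namespace Pool.Agent.Lib.MP_d8ef8f_an

open Set Filter Topology MeasureTheory

private theorem O1_eps {ι : Type} [Fintype ι] (f f' : ι → ℝ → ℝ) (a b c : ℝ)
    (hd : ∀ i, ∀ t ∈ Icc a b, HasDerivAt (f i) (f' i t) t)
    (h : ∀ t ∈ Icc a b, ∀ i, (∀ j, f j t ≤ f i t) → f' i t ≤ -c)
    (M : ℝ) (hM : ∀ j, f j a ≤ M) (ε : ℝ) (hε : 0 < ε) :
    ∀ t ∈ Icc a b, ∀ j, f j t ≤ M - (c - ε) * (t - a) + ε := by
  intro t1 ht1 j1
  by_contra hcon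
  push Not at hcon
  have hcont : ∀ i, ContinuousOn (f i) (Icc a b) := fun i t ht =>
    (hd i t ht).continuousAt.continuousWithinAt
  have hφc : Continuous fun t : ℝ => M - (c - ε) * (t - a) + ε := by fun_prop
  set D : Set ℝ := ⋃ j, {t | t ∈ Icc a b ∧ M - (c - ε) * (t - a) + ε ≤ f j t} with hD
  have hDcl : IsClosed D :=
    isClosed_iUnion_of_finite fun j => isClosed_Icc.isClosed_le hφc.continuousOn (hcont j)
  have hDsub : D ⊆ Icc a b := by
    intro t ht
    obtain ⟨j, hj⟩ := mem_iUnion.1 ht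
    exact hj.1
  have hDcpt : IsCompact D := isCompact_Icc.of_isClosed_subset hDcl hDsub
  have hDne : D.Nonempty := ⟨t1, mem_iUnion.2 ⟨j1, ht1, hcon.le⟩⟩
  obtain ⟨s, hsD, hsmin⟩ := hDcpt.exists_isLeast hDne
  have hs := hDsub hsD
  have hlt : ∀ t ∈ Icc a b, t < s → ∀ i, f i t < M - (c - ε) * (t - a) + ε := by
    intro t ht hts i
    by_contra hge
    push Not at hge
    exact absurd (hsmin (mem_iUnion.2 ⟨i, ht, hge⟩)) (not_le.2 hts)
  obtain ⟨j, -, hj⟩ := mem_iUnion.1 hsD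
  have has : a < s := by
    rcases eq_or_lt_of_le hs.1 with h0 | h0
    · exfalso
      rw [← h0, sub_self, mul_zero, sub_zero] at hj
      linarith [hM j]
    · exact h0
  have hev : ∀ᶠ t in 𝓝[<] s, t ∈ Icc a b ∧ t < s := by
    have h1 : Ioo a s ∈ 𝓝[<] s := Ioo_mem_nhdsLT has
    filter_upwards [h1] with t ht
    exact ⟨⟨ht.1.le, ht.2.le.trans hs.2⟩, ht.2⟩
  haveI : (𝓝[<] s).NeBot := inferInstance
  have hle : ∀ i, f i s ≤ M - (c - ε) * (s - a) + ε := by
    intro i
    have h1 : Tendsto (f i) (𝓝[<] s) (𝓝 (f i s)) :=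
      (hd i s hs).continuousAt.tendsto.mono_left nhdsWithin_le_nhds
    have h2 : Tendsto (fun t : ℝ => M - (c - ε) * (t - a) + ε) (𝓝[<] s)
        (𝓝 (M - (c - ε) * (s - a) + ε)) :=
      (hφc.tendsto s).mono_left nhdsWithin_le_nhds
    refine le_of_tendsto_of_tendsto h1 h2 ?_
    filter_upwards [hev] with t ht
    exact (hlt t ht.1 ht.2 i).le
  have hjeq : f j s = M - (c - ε) * (s - a) + ε := le_antisymm (hle j) hj
  have hder := h s hs j (fun i => by rw [hjeq]; exact hle i)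
  have hg : HasDerivAt (fun t => f j t - (M - (c - ε) * (t - a) + ε))
      (f' j s - (-((c - ε) * 1))) s := by
    refine (hd j s hs).sub ?_
    have h3 : HasDerivAt (fun t : ℝ => t - a) 1 s := (hasDerivAt_id s).sub_const a
    exact ((h3.const_mul (c - ε)).const_sub M).add_const ε
  have hslope := (hasDerivWithinAt_iff_tendsto_slope' (s := Iio s) (by simp)).1
    hg.hasDerivWithinAt
  have hnn : 0 ≤ f' j s - (-((c - ε) * 1)) := by
    refine ge_of_tendsto hslope ?_
    filter_upwards [hev] with t ht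
    rw [slope_def_field]
    have h4 := hlt t ht.1 ht.2 j
    apply div_nonneg_of_nonpos
    · rw [hjeq]
      linarith
    · linarith [ht.2]
  linarith

/-- if at every time of `[a,b]` every function realising the maximum of the finite family has
derivative at most `-c`, then the maximum decreases at rate `c` -/
theorem fam_decrease {ι : Type} [Fintype ι] (f f' : ι → ℝ → ℝ) (a b c : ℝ) (hab : a ≤ b)
    (hd : ∀ i, ∀ t ∈ Icc a b, HasDerivAt (f i) (f' i t) t)
    (h : ∀ t ∈ Icc a b, ∀ i, (∀ j, f j t ≤ f i t) → f' i t ≤ -c)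
    (M : ℝ) (hM : ∀ j, f j a ≤ M) : ∀ j, f j b ≤ M - c * (b - a) := by
  intro j
  refine le_of_forall_pos_le_add fun δ hδ => ?_
  have hb : 0 < b - a + 1 := by linarith
  have h1 := O1_eps f f' a b c hd h M hM (δ / (b - a + 1)) (by positivity) b ⟨hab, le_rfl⟩ j
  have h2 : δ / (b - a + 1) * (b - a + 1) = δ := div_mul_cancel₀ _ hb.ne'
  nlinarith

end Pool.Agent.Lib.MP_d8ef8f_an
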