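import Pool.Agent.Lib.MP_d8ef8f_an.Defs
import Pool.Agent.Lib.MP_d8ef8f_an.O1

namespace Pool.Agent.Lib.MP_d8ef8f_an

open Set Filter Topology MeasureTheory

/-- if some member exceeds `K` at time `t1` then for all earlier times some member is at least the
maximal value at `t1` plus `c * (t1 - t)`; here the decrease property is assumed only above level `K` -/
theorem o3_backward {ι : Type} [Fintype ι] (f f' : ι → ℝ → ℝ) (K c : ℝ) (hc : 0 < c)
    (hd : ∀ i t, HasDerivAt (f i) (f' i t) t)
    (h : ∀ t i, (∀ j, f j t ≤ f i t) → K ≤ f i t → f' i t ≤ -c)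
    (i1 : ι) (t1 : ℝ) (hi1 : K < f i1 t1) (t : ℝ) (ht : t ≤ t1) :
    ∃ j, f i1 t1 + c * (t1 - t) ≤ f j t := by
  classical
  haveI : Nonempty ι := ⟨i1⟩
  -- the running maximum
  set M : ℝ → ℝ := fun s => Finset.univ.sup' Finset.univ_nonempty (fun i => f i s) with hM
  have hMle : ∀ s j, f j s ≤ M s := fun s j => Finset.le_sup' (fun i => f i s) (Finset.mem_univ j)
  have hMex : ∀ s, ∃ j, M s = f j s := fun s => by
    obtain ⟨j, -, hj⟩ := Finset.exists_mem_eq_sup' Finset.univ_nonempty (fun i => f i s)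
    exact ⟨j, hj⟩
  have hMc : Continuous M := by
    have h1 : Continuous (Finset.univ.sup' Finset.univ_nonempty fun i => f i) :=
      Continuous.finset_sup' (s := Finset.univ) Finset.univ_nonempty
        (fun i _ => continuous_iff_continuousAt.mpr (fun s => (hd i s).continuousAt))
    have h2 : M = Finset.univ.sup' Finset.univ_nonempty fun i => f i := by
      ext s
      rw [hM, Finset.sup'_apply]
    rw [h2]
    exact h1
  -- claim: M > K on (-∞, t1]
  have hgt : ∀ s ≤ t1, K < M s := by
    intro s hs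
    by_contra hcon
    push Not at hcon
    -- the last time r in [s,t1] with M r ≤ K
    set A : Set ℝ := {r | r ∈ Icc s t1 ∧ M r ≤ K} with hA
    have hAc : IsCompact A := by
      have : A = Icc s t1 ∩ M ⁻¹' (Iic K) := rfl
      rw [this]
      exact isCompact_Icc.inter_right (isClosed_Iic.preimage hMc)
    have hAne : A.Nonempty := ⟨s, ⟨le_refl _, hs⟩, hcon⟩
    obtain ⟨r, hr, hrmax⟩ := hAc.exists_isGreatest hAne
    have hM1 : K < M t1 := lt_of_lt_of_le hi1 (hMle t1 i1)
    have hrt : r < t1 := by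
      rcases lt_or_eq_of_le hr.1.2 with h1 | h1
      · exact h1
      · rw [h1] at hr
        exact absurd hr.2 (not_le.mpr hM1)
    have hMr : K ≤ M r := by
      by_contra hlt
      push Not at hlt
      -- by continuity M < K slightly to the right of r
      have hev : ∀ᶠ y in 𝓝 r, M y < K := hMc.continuousAt.eventually (gt_mem_nhds hlt)
      have hev2 : ∀ᶠ y in 𝓝[>] r, M y < K := hev.filter_mono nhdsWithin_le_nhds
      have hev3 : ∀ᶠ y in 𝓝[>] r, y < t1 := by
        filter_upwards [Ioo_mem_nhdsGT hrt] with y hy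
        exact hy.2
      obtain ⟨y, ⟨hy1, hy2⟩, hy3⟩ := ((hev2.and hev3).and self_mem_nhdsWithin).exists
      have hy3' : r < y := hy3
      have : y ∈ A := ⟨⟨le_trans hr.1.1 hy3'.le, hy2.le⟩, hy1.le⟩
      exact absurd (hrmax this) (not_le.mpr hy3')
    have hMrK : M r = K := le_antisymm hr.2 hMr
    have hge : ∀ y ∈ Icc r t1, K ≤ M y := by
      intro y hy
      by_contra hlt
      push Not at hlt
      have hyr : r < y := by
        rcases lt_or_eq_of_le hy.1 with h1 | h1
        · exact h1
        · rw [← h1, hMrK] at hlt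
          exact absurd hlt (lt_irrefl _)
      have : y ∈ A := ⟨⟨le_trans hr.1.1 hy.1, hy.2⟩, hlt.le⟩
      exact absurd (hrmax this) (not_le.mpr hyr)
    have hdec := fam_decrease f f' r t1 c hrt.le (fun i y _ => hd i y)
      (fun y hy i hi => h y i hi (by
        have h1 := hge y hy
        obtain ⟨j, hj⟩ := hMex y
        rw [hj] at h1
        exact le_trans h1 (hi j))) K (fun j => le_trans (hMle r j) hMrK.le) i1
    have : 0 < c * (t1 - r) := mul_pos hc (by linarith)
    linarith
  -- now apply the decrease on [t,t1]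
  have hge : ∀ y ∈ Icc t t1, K ≤ M y := fun y hy => (hgt y hy.2).le
  have hdec := fam_decrease f f' t t1 c ht (fun i y _ => hd i y)
    (fun y hy i hi => h y i hi (by
      have h1 := hge y hy
      obtain ⟨j, hj⟩ := hMex y
      rw [hj] at h1
      exact le_trans h1 (hi j))) (M t) (hMle t) i1
  obtain ⟨j, hj⟩ := hMex t
  exact ⟨j, by rw [← hj]; linarith⟩

/-- entire families whose maximum satisfies `f' ≤ - c f²` above level `K` stay below `K`
(otherwise blow up backward in time) -/
theorem fam_entire_le {ι : Type} [Fintype ι] (f f' : ι → ℝ → ℝ) (K c : ℝ) (hc : 0 < c) (hK : 0 < K)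
    (hd : ∀ i t, HasDerivAt (f i) (f' i t) t)
    (h : ∀ t i, (∀ j, f j t ≤ f i t) → K ≤ f i t → f' i t ≤ -c * f i t ^ 2) :
    ∀ t i, f i t ≤ K := by
  intro t1 i1
  by_contra hcon
  push Not at hcon
  set g : ι → ℝ → ℝ := fun i s => Real.arctan (f i s) with hg
  set g' : ι → ℝ → ℝ := fun i s => 1 / (1 + f i s ^ 2) * f' i s with hg'
  have hgd : ∀ i t, HasDerivAt (g i) (g' i t) t := fun i t => (hd i t).arctan
  set c' : ℝ := c * K ^ 2 / (1 + K ^ 2) with hc'
  have hc'pos : 0 < c' := by positivity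
  have hgh : ∀ t i, (∀ j, g j t ≤ g i t) → Real.arctan K ≤ g i t → g' i t ≤ -c' := by
    intro t i hi hKi
    have h1 : ∀ j, f j t ≤ f i t := fun j => Real.arctan_strictMono.le_iff_le.mp (hi j)
    have h2 : K ≤ f i t := Real.arctan_strictMono.le_iff_le.mp hKi
    have h3 := h t i h1 h2
    have h4 : 0 < 1 + f i t ^ 2 := by positivity
    have h5 : K ^ 2 ≤ f i t ^ 2 := pow_le_pow_left₀ hK.le h2 2
    rw [hg', hc']
    simp only
    rw [one_div, inv_mul_eq_div, div_le_iff₀ h4]
    have h6 : K ^ 2 / (1 + K ^ 2) * (1 + f i t ^ 2) ≤ f i t ^ 2 := by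
      rw [div_mul_eq_mul_div, div_le_iff₀ (by positivity)]
      nlinarith
    have h7 : c * K ^ 2 / (1 + K ^ 2) * (1 + f i t ^ 2) = c * (K ^ 2 / (1 + K ^ 2) * (1 + f i t ^ 2)) := by
      ring
    have h8 := mul_le_mul_of_nonneg_left h6 hc.le
    nlinarith
  set t : ℝ := t1 - (Real.pi) / c' with ht
  have htt : t ≤ t1 := by
    have : 0 ≤ Real.pi / c' := by positivity
    linarith
  obtain ⟨j, hj⟩ := o3_backward g g' (Real.arctan K) c' hc'pos hgd hgh i1 t1
    (Real.arctan_strictMono hcon) t htt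
  have h1 : c' * (t1 - t) = Real.pi := by
    rw [ht]; field_simp; ring
  have h2 : g j t < Real.pi / 2 := Real.arctan_lt_pi_div_two _
  have h3 : -(Real.pi / 2) < g i1 t1 := Real.neg_pi_div_two_lt_arctan _
  linarith

end Pool.Agent.Lib.MP_d8ef8f_an
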