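import Pool.Agent.Lib.MP_d8ef8f_an.S1
import Pool.Agent.Lib.MP_d8ef8f_an.S3
import Pool.Agent.Lib.MP_d8ef8f_an.A3
import Pool.Agent.Lib.MP_d8ef8f_an.O3

namespace Pool.Agent.Lib.MP_d8ef8f_an

open Set Filter Topology MeasureTheory

variable {ι : Type} [Fintype ι]

theorem S5_int {f : ℝ → ℝ} (hf : ContinuousOn f (Icc (0:ℝ) 1)) :
    IntervalIntegrable f volume 0 1 := by
  apply ContinuousOn.intervalIntegrable
  rwa [uIcc_of_le zero_le_one]

theorem S5_slice {T : Set ℝ} {f : ℝ → ℝ → ℝ}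
    (h : ContinuousOn (fun p : ℝ × ℝ => f p.1 p.2) (T ×ˢ Icc (0:ℝ) 1)) {t : ℝ} (ht : t ∈ T) :
    ContinuousOn (f t) (Icc (0:ℝ) 1) := by
  have h1 : ContinuousOn (fun x : ℝ => ((t, x) : ℝ × ℝ)) (Icc (0:ℝ) 1) :=
    (Continuous.prodMk_right t).continuousOn
  exact h.comp h1 (fun x hx => ⟨ht, hx⟩)

/-- `log s ≤ ∫ log v + ‖v'/v‖₂` -/
theorem S5_log {v v' : ℝ → ℝ} (hv : ∀ x ∈ Icc (0:ℝ) 1, HasDerivWithinAt v (v' x) (Icc (0:ℝ) 1) x)
    (hv' : ContinuousOn v' (Icc (0:ℝ) 1)) (hpos : ∀ x ∈ Icc (0:ℝ) 1, 0 < v x)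
    (hs : 0 < ∫ x in (0:ℝ)..1, v x) :
    Real.log (∫ x in (0:ℝ)..1, v x) - (∫ x in (0:ℝ)..1, Real.log (v x)) ≤
      Real.sqrt (∫ x in (0:ℝ)..1, (v' x / v x) ^ 2) := by
  have hvc : ContinuousOn v (Icc (0:ℝ) 1) := fun x hx => (hv x hx).continuousWithinAt
  have h1 := fun x hx => sup_le (fun x => Real.log (v x)) (fun x => v' x / v x)
    (fun y hy => (hv y hy).log (hpos y hy).ne')
    (hv'.div hvc (fun y hy => (hpos y hy).ne')) x hx
  set I := ∫ x in (0:ℝ)..1, Real.log (v x) with hI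
  set D := Real.sqrt (∫ x in (0:ℝ)..1, (v' x / v x) ^ 2) with hD
  have h2 : ∀ x ∈ Icc (0:ℝ) 1, v x ≤ Real.exp (D + I) := by
    intro x hx
    have h3 := le_of_abs_le (h1 x hx)
    rw [← Real.log_le_iff_le_exp (hpos x hx)]
    linarith
  have h4 : ∫ x in (0:ℝ)..1, v x ≤ Real.exp (D + I) := by
    have h5 : ∫ x in (0:ℝ)..1, v x ≤ ∫ _ in (0:ℝ)..1, Real.exp (D + I) :=
      intervalIntegral.integral_mono_on zero_le_one (S5_int hvc) (S5_int continuousOn_const) h2
    simpa using h5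
  have h6 := (Real.log_le_iff_le_exp hs).2 h4
  linarith

/-- `J = log s - ∫ log u` is bounded above on entire trajectories -/
theorem logmean_entire {d : ι → ℝ} {m : ℝ → ℝ} {u ut ux uxx : ι → ℝ → ℝ → ℝ} {B : ℝ}
    (hB0 : 0 < B) (hm : ContinuousOn m (Icc (0:ℝ) 1)) (hB : ∀ x ∈ Icc (0:ℝ) 1, |m x| ≤ B)
    (hs : IsSol d m univ u ut ux uxx)
    (hpos : ∀ j, ∀ t ∈ (univ : Set ℝ), ∀ x ∈ Icc (0:ℝ) 1, 0 < u j t x)
    (hS : ∀ t, ∑ j, mass u j t ≤ 2 * B) (j : ι) (hd : 0 < d j) :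
    ∃ C : ℝ, ∀ t, Real.log (mass u j t) - (∫ x in (0:ℝ)..1, Real.log (u j t x)) ≤ C := by
  have hmass : ∀ t, 0 < mass u j t := fun t => (one_le_rat hs hpos j t (mem_univ t)).1
  have huc : ∀ i t, ContinuousOn (u i t) (Icc (0:ℝ) 1) := fun i t => S5_slice (hs.c0 i) (mem_univ t)
  have hutc : ∀ i t, ContinuousOn (ut i t) (Icc (0:ℝ) 1) :=
    fun i t => S5_slice (hs.ct i) (mem_univ t)
  have huxc : ∀ i t, ContinuousOn (ux i t) (Icc (0:ℝ) 1) :=
    fun i t => S5_slice (hs.cx i) (mem_univ t)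
  have huxxc : ∀ i t, ContinuousOn (uxx i t) (Icc (0:ℝ) 1) :=
    fun i t => S5_slice (hs.cxx i) (mem_univ t)
  have hp : ∀ i t, ∀ x ∈ Icc (0:ℝ) 1, 0 < u i t x := fun i t x hx => hpos i t (mem_univ t) x hx
  have hUc : ∀ t, ContinuousOn (fun x => ∑ k, u k t x) (Icc (0:ℝ) 1) := fun t =>
    continuousOn_finsetSum _ (fun i _ => huc i t)
  have hmUc : ∀ t, ContinuousOn (fun x => m x - ∑ k, u k t x) (Icc (0:ℝ) 1) := fun t =>
    hm.sub (hUc t)
  -- the derivative
  have hder : ∀ t, HasDerivAt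
      (fun t => Real.log (mass u j t) - (∫ x in (0:ℝ)..1, Real.log (u j t x)))
      ((∫ x in (0:ℝ)..1, u j t x * (m x - ∑ k, u k t x)) / mass u j t -
        ∫ x in (0:ℝ)..1, ut j t x / u j t x) t := by
    intro t
    have h1 := (mass_deriv isOpen_univ hs j t (mem_univ t)).log (hmass t).ne'
    have h2 := hasDerivAt_integral (T := univ) isOpen_univ (fun s x => Real.log (u j s x))
      (fun s x => ut j s x / u j s x)
      ((hs.ct j).div (hs.c0 j) (fun p hp' => (hpos j p.1 hp'.1 p.2 hp'.2).ne'))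
      (fun s _ => (huc j s).log (fun x hx => (hp j s x hx).ne'))
      (fun s _ x hx => (hs.dt j s (mem_univ s) x hx).log (hp j s x hx).ne') t (mem_univ t)
    exact h1.sub h2
  -- the bound
  have hbd : ∀ t, (∫ x in (0:ℝ)..1, u j t x * (m x - ∑ k, u k t x)) / mass u j t -
        (∫ x in (0:ℝ)..1, ut j t x / u j t x) ≤
        4 * B - d j * ∫ x in (0:ℝ)..1, (ux j t x / u j t x) ^ 2 := by
    intro t
    have hne : ∀ x ∈ Icc (0:ℝ) 1, u j t x ≠ 0 := fun x hx => (hp j t x hx).ne'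
    have e1 : (∫ x in (0:ℝ)..1, ut j t x / u j t x) =
        d j * (∫ x in (0:ℝ)..1, (ux j t x / u j t x) ^ 2) +
          ∫ x in (0:ℝ)..1, (m x - ∑ k, u k t x) := by
      have h1 := parts_neumann (fun x => (u j t x)⁻¹) (fun x => -(ux j t x) / (u j t x) ^ 2)
        (ux j t) (uxx j t)
        (fun x hx => (hs.dx j t (mem_univ t) x hx).inv (hne x hx))
        ((huxc j t).neg.div ((huc j t).pow 2) (fun x hx => pow_ne_zero 2 (hne x hx)))
        (fun x hx => hs.dxx j t (mem_univ t) x hx) (huxxc j t)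
        (hs.bc0 j t (mem_univ t)) (hs.bc1 j t (mem_univ t))
      have h2 : (∫ x in (0:ℝ)..1, ut j t x / u j t x) =
          ∫ x in (0:ℝ)..1, (d j * ((u j t x)⁻¹ * uxx j t x) + (m x - ∑ k, u k t x)) := by
        apply intervalIntegral.integral_congr
        intro x hx
        rw [uIcc_of_le zero_le_one] at hx
        have h3 := hs.eq j t (mem_univ t) x hx
        have h4 := hne x hx
        simp only
        rw [h3, add_div, mul_div_assoc, mul_div_cancel_left₀ _ h4]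
        congr 1
        rw [div_eq_mul_inv]
        ring
      rw [h2, intervalIntegral.integral_add, intervalIntegral.integral_const_mul, h1]
      · congr 2
        rw [← intervalIntegral.integral_neg]
        apply intervalIntegral.integral_congr
        intro x _
        simp only
        rw [div_pow]
        ring
      · exact S5_int (continuousOn_const.mul (((huc j t).inv₀ hne).mul (huxxc j t)))
      · exact S5_int (hmUc t)
    have e2 : (∫ x in (0:ℝ)..1, u j t x * (m x - ∑ k, u k t x)) / mass u j t ≤ B := by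
      rw [div_le_iff₀ (hmass t)]
      unfold mass
      rw [← intervalIntegral.integral_const_mul]
      apply intervalIntegral.integral_mono_on zero_le_one (S5_int ((huc j t).mul (hmUc t)))
        (S5_int (continuousOn_const.mul (huc j t)))
      intro x hx
      have h1 : 0 ≤ ∑ k, u k t x := Finset.sum_nonneg (fun k _ => (hp k t x hx).le)
      have h2 := le_of_abs_le (hB x hx)
      have h3 := hp j t x hx
      have h4 : m x - ∑ k, u k t x ≤ B := by linarith
      show u j t x * (m x - ∑ k, u k t x) ≤ B * u j t x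
      rw [mul_comm B]
      exact mul_le_mul_of_nonneg_left h4 h3.le
    have e3 : -(∫ x in (0:ℝ)..1, (m x - ∑ k, u k t x)) ≤ 3 * B := by
      rw [intervalIntegral.integral_sub (S5_int hm) (S5_int (hUc t)),
        intervalIntegral.integral_finsetSum (fun k _ => S5_int (huc k t))]
      have h1 : -B ≤ ∫ x in (0:ℝ)..1, m x := by
        have h2 : ∫ _ in (0:ℝ)..1, (-B) ≤ ∫ x in (0:ℝ)..1, m x :=
          intervalIntegral.integral_mono_on zero_le_one (S5_int continuousOn_const) (S5_int hm)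
            (fun x hx => (abs_le.1 (hB x hx)).1)
        simpa using h2
      have h3 : ∑ k, (∫ x in (0:ℝ)..1, u k t x) ≤ 2 * B := hS t
      linarith
    rw [e1]
    linarith
  set K := Real.sqrt (8 * B / d j) with hK
  have hK0 : 0 < K := Real.sqrt_pos.2 (by positivity)
  have hK2 : d j * K ^ 2 = 8 * B := by
    rw [hK, Real.sq_sqrt (by positivity)]
    field_simp
  refine ⟨K, fun t => ?_⟩
  refine fam_entire_le (ι := Unit)
    (fun _ t => Real.log (mass u j t) - (∫ x in (0:ℝ)..1, Real.log (u j t x)))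
    (fun _ t => (∫ x in (0:ℝ)..1, u j t x * (m x - ∑ k, u k t x)) / mass u j t -
        ∫ x in (0:ℝ)..1, ut j t x / u j t x) K (d j / 2) (by positivity) hK0
    (fun _ t => hder t) ?_ t ()
  intro t _ _ hge
  have h1 := hbd t
  have h2 := S5_log (v := u j t) (v' := ux j t) (fun x hx => hs.dx j t (mem_univ t) x hx)
    (huxc j t) (hp j t) (hmass t)
  have h2' : Real.log (mass u j t) - (∫ x in (0:ℝ)..1, Real.log (u j t x)) ≤
      Real.sqrt (∫ x in (0:ℝ)..1, (ux j t x / u j t x) ^ 2) := h2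
  set J := Real.log (mass u j t) - (∫ x in (0:ℝ)..1, Real.log (u j t x)) with hJ
  have hge' : K ≤ J := hge
  have h3 : 0 ≤ ∫ x in (0:ℝ)..1, (ux j t x / u j t x) ^ 2 :=
    intervalIntegral.integral_nonneg zero_le_one (fun x _ => sq_nonneg _)
  have h4 : J ^ 2 ≤ ∫ x in (0:ℝ)..1, (ux j t x / u j t x) ^ 2 := by
    rw [← Real.sq_sqrt h3]
    exact pow_le_pow_left₀ (hK0.le.trans hge') h2' 2
  have h5 : K ^ 2 ≤ J ^ 2 := pow_le_pow_left₀ hK0.le hge' 2
  have h6 := mul_le_mul_of_nonneg_left h4 hd.le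
  have h7 := mul_le_mul_of_nonneg_left h5 hd.le
  show _ ≤ -(d j / 2) * J ^ 2
  linarith

end Pool.Agent.Lib.MP_d8ef8f_an
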