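import Pool.Agent.Lib.MP_d8ef8f_an.Defs
import Pool.Agent.Lib.MP_d8ef8f_an.A4

namespace Pool.Agent.Lib.MP_d8ef8f_an

open Set Filter Topology MeasureTheory

theorem theta_le {d B : ℝ} {m θ θ' θ'' : ℝ → ℝ} (hd : 0 < d) (h : Steady d m θ θ' θ'')
    (hB : ∀ x ∈ Icc (0:ℝ) 1, |m x| ≤ B) : ∀ x ∈ Icc (0:ℝ) 1, θ x ≤ B := by
  have hcont : ContinuousOn θ (Icc (0:ℝ) 1) := fun z hz => (h.d1 z hz).continuousWithinAt
  obtain ⟨x0, hx0, hmax⟩ := isCompact_Icc.exists_isMaxOn (nonempty_Icc.2 (zero_le_one' ℝ)) hcont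
  have hmax' : ∀ x ∈ Icc (0:ℝ) 1, θ x ≤ θ x0 := fun x hx => hmax hx
  have h2 := second_deriv_max θ θ' θ'' h.d1 h.d2 h.bc0 h.bc1 x0 hx0 hmax'
  have h3 := h.eq x0 hx0
  have h4 : 0 ≤ θ x0 * (m x0 - θ x0) := by nlinarith
  have h5 := h.pos x0 hx0
  have h6 : 0 ≤ m x0 - θ x0 := nonneg_of_mul_nonneg_right h4 h5
  have h7 := (abs_le.1 (hB x0 hx0)).2
  intro x hx
  have := hmax' x hx
  linarith

end Pool.Agent.Lib.MP_d8ef8f_an
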