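import Pool.Agent.Lib.MP_d8ef8f_an.Defs
import Pool.Agent.Lib.MP_d8ef8f_an.T1

namespace Pool.Agent.Lib.MP_d8ef8f_an

open Set Filter Topology MeasureTheory

theorem T2_int {f : ℝ → ℝ} (hf : ContinuousOn f (Icc (0:ℝ) 1)) {a b : ℝ} (ha : 0 ≤ a)
    (hab : a ≤ b) (hb : b ≤ 1) : IntervalIntegrable f volume a b := by
  apply ContinuousOn.intervalIntegrable
  rw [uIcc_of_le hab]
  exact hf.mono (Icc_subset_Icc ha hb)

/-- the logarithmic derivative `z = θ'/θ` satisfies `z' = (θ-m)/d - z²` -/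
theorem T2_z {d : ℝ} {m θ θ' θ'' : ℝ → ℝ} (hd : 0 < d) (h : Steady d m θ θ' θ'') :
    ∀ x ∈ Icc (0:ℝ) 1, HasDerivWithinAt (fun x => θ' x / θ x)
      ((θ x - m x) / d - (θ' x / θ x) ^ 2) (Icc (0:ℝ) 1) x := by
  intro x hx
  have h1 := (h.d2 x hx).div (h.d1 x hx) (h.pos x hx).ne'
  have h2 := h.eq x hx
  have h3 := (h.pos x hx).ne'
  have h4 : (θ'' x * θ x - θ' x * θ' x) / θ x ^ 2 = (θ x - m x) / d - (θ' x / θ x) ^ 2 := by
    have h5 : θ'' x = θ x * (θ x - m x) / d := by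
      rw [eq_div_iff hd.ne']
      linarith
    rw [h5]
    field_simp
  rw [h4] at h1
  exact h1

theorem T2_cont {d : ℝ} {m θ θ' θ'' : ℝ → ℝ} (h : Steady d m θ θ' θ'') :
    ContinuousOn θ (Icc (0:ℝ) 1) ∧ ContinuousOn (fun x => θ' x / θ x) (Icc (0:ℝ) 1) := by
  have h1 : ContinuousOn θ (Icc (0:ℝ) 1) := fun x hx => (h.d1 x hx).continuousWithinAt
  have h2 : ContinuousOn θ' (Icc (0:ℝ) 1) := fun x hx => (h.d2 x hx).continuousWithinAt
  exact ⟨h1, h2.div h1 (fun x hx => (h.pos x hx).ne')⟩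

theorem T2_ftc {d : ℝ} {m θ θ' θ'' : ℝ → ℝ} (hd : 0 < d)
    (hm : ContinuousOn m (Icc (0:ℝ) 1)) (h : Steady d m θ θ' θ'') {y : ℝ}
    (hy : y ∈ Icc (0:ℝ) 1) :
    (∫ x in (0:ℝ)..y, ((θ x - m x) / d - (θ' x / θ x) ^ 2)) = θ' y / θ y := by
  obtain ⟨h1, h2⟩ := T2_cont h
  have h3 := intervalIntegral.integral_eq_sub_of_hasDerivAt_of_le (f := fun x => θ' x / θ x)
    (f' := fun x => (θ x - m x) / d - (θ' x / θ x) ^ 2) hy.1
    (h2.mono (Icc_subset_Icc le_rfl hy.2))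
    (fun x hx => (T2_z hd h x ⟨hx.1.le, hx.2.le.trans hy.2⟩).hasDerivAt
      (Icc_mem_nhds hx.1 (hx.2.trans_le hy.2)))
    (T2_int (((h1.sub hm).div_const d).sub (h2.pow 2)) le_rfl hy.1 hy.2)
  rw [h3, h.bc0, zero_div, sub_zero]

theorem theta_dirichlet {d B : ℝ} {m θ θ' θ'' : ℝ → ℝ} (hd : 0 < d)
    (hm : ContinuousOn m (Icc (0:ℝ) 1)) (h : Steady d m θ θ' θ'')
    (hB : ∀ x ∈ Icc (0:ℝ) 1, |m x| ≤ B) :
    d * (∫ x in (0:ℝ)..1, (θ' x / θ x) ^ 2) = ∫ x in (0:ℝ)..1, (θ x - m x) := by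
  obtain ⟨h1, h2⟩ := T2_cont h
  have h3 := T2_ftc hd hm h (y := 1) ⟨zero_le_one, le_rfl⟩
  have c1 : ContinuousOn (fun x => (θ x - m x) / d) (Icc (0:ℝ) 1) := (h1.sub hm).div_const d
  have c2 : ContinuousOn (fun x => (θ' x / θ x) ^ 2) (Icc (0:ℝ) 1) := h2.pow 2
  rw [intervalIntegral.integral_sub
    (T2_int c1 le_rfl zero_le_one le_rfl)
    (T2_int c2 le_rfl zero_le_one le_rfl), h.bc1, zero_div,
    intervalIntegral.integral_div] at h3
  have h4 : (∫ x in (0:ℝ)..1, (θ' x / θ x) ^ 2) = (∫ x in (0:ℝ)..1, (θ x - m x)) / d := by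
    linarith
  rw [h4]
  field_simp

theorem theta_logderiv {d B : ℝ} {m θ θ' θ'' : ℝ → ℝ} (hd : 0 < d)
    (hm : ContinuousOn m (Icc (0:ℝ) 1)) (h : Steady d m θ θ' θ'')
    (hB : ∀ x ∈ Icc (0:ℝ) 1, |m x| ≤ B) : ∀ x ∈ Icc (0:ℝ) 1, |θ' x / θ x| ≤ 4 * B / d := by
  intro y hy
  obtain ⟨h1, h2⟩ := T2_cont h
  have hle := theta_le hd h hB
  have hbd : ∀ x ∈ Icc (0:ℝ) 1, |θ x - m x| ≤ 2 * B := by
    intro x hx
    have h3 := abs_le.1 (hB x hx)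
    have h4 := hle x hx
    have h5 := h.pos x hx
    rw [abs_le]
    constructor <;> linarith [h3.1, h3.2]
  have hD : (∫ x in (0:ℝ)..1, (θ' x / θ x) ^ 2) ≤ 2 * B / d := by
    rw [le_div_iff₀ hd, mul_comm, theta_dirichlet hd hm h hB]
    have h3 : ∫ x in (0:ℝ)..1, (θ x - m x) ≤ ∫ _ in (0:ℝ)..1, (2 * B) :=
      intervalIntegral.integral_mono_on zero_le_one
        (T2_int (h1.sub hm) le_rfl zero_le_one le_rfl)
        (T2_int continuousOn_const le_rfl zero_le_one le_rfl)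
        (fun x hx => le_of_abs_le (hbd x hx))
    simpa using h3
  rw [← T2_ftc hd hm h hy]
  have hfc : ContinuousOn (fun x => (θ x - m x) / d - (θ' x / θ x) ^ 2) (Icc (0:ℝ) 1) :=
    ((h1.sub hm).div_const d).sub (h2.pow 2)
  have h6 := intervalIntegral.abs_integral_le_integral_abs
    (f := fun x => (θ x - m x) / d - (θ' x / θ x) ^ 2) (μ := volume) hy.1
  refine h6.trans ?_
  have h7 : (∫ x in (0:ℝ)..y, |(θ x - m x) / d - (θ' x / θ x) ^ 2|) ≤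
      ∫ x in (0:ℝ)..y, (2 * B / d + (θ' x / θ x) ^ 2) := by
    apply intervalIntegral.integral_mono_on hy.1 (T2_int hfc.abs le_rfl hy.1 hy.2)
      (T2_int (continuousOn_const.add (h2.pow 2)) le_rfl hy.1 hy.2)
    intro x hx
    have hx' : x ∈ Icc (0:ℝ) 1 := ⟨hx.1, hx.2.trans hy.2⟩
    have h8 : |(θ x - m x) / d| ≤ 2 * B / d := by
      rw [abs_div, abs_of_pos hd]
      exact div_le_div_of_nonneg_right (hbd x hx') hd.le
    have h9 := abs_sub ((θ x - m x) / d) ((θ' x / θ x) ^ 2)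
    rw [abs_of_nonneg (sq_nonneg (θ' x / θ x))] at h9
    show |(θ x - m x) / d - (θ' x / θ x) ^ 2| ≤ 2 * B / d + (θ' x / θ x) ^ 2
    linarith
  refine h7.trans ?_
  have hB0 : 0 ≤ 2 * B / d := by
    have h10 := (abs_nonneg _).trans (hbd 0 ⟨le_rfl, zero_le_one⟩)
    exact div_nonneg h10 hd.le
  have h11 : (∫ x in (0:ℝ)..y, (2 * B / d + (θ' x / θ x) ^ 2)) ≤
      ∫ x in (0:ℝ)..1, (2 * B / d + (θ' x / θ x) ^ 2) := by
    apply intervalIntegral.integral_mono_interval le_rfl hy.1 hy.2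
    · filter_upwards with x
      have := sq_nonneg (θ' x / θ x)
      show 0 ≤ 2 * B / d + (θ' x / θ x) ^ 2
      linarith
    · exact T2_int (continuousOn_const.add (h2.pow 2)) le_rfl zero_le_one le_rfl
  refine h11.trans ?_
  have c2 : ContinuousOn (fun x => (θ' x / θ x) ^ 2) (Icc (0:ℝ) 1) := h2.pow 2
  have c3 : ContinuousOn (fun _ : ℝ => 2 * B / d) (Icc (0:ℝ) 1) := continuousOn_const
  rw [intervalIntegral.integral_add (T2_int c3 le_rfl zero_le_one le_rfl)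
    (T2_int c2 le_rfl zero_le_one le_rfl)]
  have h12 : (∫ _ in (0:ℝ)..1, 2 * B / d) = 2 * B / d := by simp
  rw [h12]
  have h13 : 4 * B / d = 2 * B / d + 2 * B / d := by ring
  rw [h13]
  linarith

theorem theta_harnack {d B : ℝ} {m θ θ' θ'' : ℝ → ℝ} (hd : 0 < d)
    (hm : ContinuousOn m (Icc (0:ℝ) 1)) (h : Steady d m θ θ' θ'')
    (hB : ∀ x ∈ Icc (0:ℝ) 1, |m x| ≤ B) :
    ∀ x ∈ Icc (0:ℝ) 1, ∀ y ∈ Icc (0:ℝ) 1, |Real.log (θ x) - Real.log (θ y)| ≤ 4 * B / d := by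
  intro x hx y hy
  have h1 := (convex_Icc (0:ℝ) 1).norm_image_sub_le_of_norm_hasDerivWithin_le
    (f := fun x => Real.log (θ x)) (f' := fun x => θ' x / θ x) (C := 4 * B / d)
    (fun z hz => (h.d1 z hz).log (h.pos z hz).ne')
    (fun z hz => theta_logderiv hd hm h hB z hz) hy hx
  simp only [Real.norm_eq_abs] at h1
  refine h1.trans ?_
  have h2 : |x - y| ≤ 1 := by
    rw [abs_le]
    constructor <;> linarith [hx.1, hx.2, hy.1, hy.2]
  have h3 : 0 ≤ 4 * B / d := (abs_nonneg _).trans (theta_logderiv hd hm h hB x hx)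
  nlinarith [abs_nonneg (x - y)]

end Pool.Agent.Lib.MP_d8ef8f_an
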