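import Pool.Agent.Lib.MP_d8ef8f_an.Setup
import Pool.Agent.Lib.MP_d8ef8f_an.S5
import Pool.Agent.Lib.MP_d8ef8f_an.C2
import Pool.Agent.Lib.MP_d8ef8f_an.T2
import Pool.Agent.Lib.MP_d8ef8f_an.S3

namespace Pool.Agent.Lib.MP_d8ef8f_an

open Set Filter Topology MeasureTheory

variable {ι : Type} [Fintype ι] [LinearOrder ι]

/-- entropy bound by the logarithm of the mass -/
theorem b1_ent_le {th v : ℝ → ℝ} {B C : ℝ} (hB : 0 < B) (hth : ContinuousOn th (Icc (0:ℝ) 1))
    (hthp : ∀ x ∈ Icc (0:ℝ) 1, 0 < th x) (hthB : ∀ x ∈ Icc (0:ℝ) 1, th x ≤ B)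
    (hv : ContinuousOn v (Icc (0:ℝ) 1)) (hvp : ∀ x ∈ Icc (0:ℝ) 1, 0 < v x)
    (hS : (∫ x in (0:ℝ)..1, v x) ≤ 2 * B)
    (hC : Real.log (∫ x in (0:ℝ)..1, v x) - (∫ x in (0:ℝ)..1, Real.log (v x)) ≤ C) :
    ent th v ≤ 2 * B ^ 2 + B ^ 2 * (1 + C) + (∫ x in (0:ℝ)..1, th x ^ 2 * Real.log (th x))
      - Real.log (∫ x in (0:ℝ)..1, v x) * (∫ x in (0:ℝ)..1, th x ^ 2) := by
  set s : ℝ := ∫ x in (0:ℝ)..1, v x with hs
  have hspos : 0 < s := intervalIntegral.integral_pos zero_lt_one hv
    (fun x hx => (hvp x (Ioc_subset_Icc_self hx)).le)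
    ⟨0, ⟨le_refl _, zero_le_one⟩, hvp 0 ⟨le_refl _, zero_le_one⟩⟩
  have hu : Icc (0:ℝ) 1 = uIcc (0:ℝ) 1 := (uIcc_of_le zero_le_one).symm
  have hlv : ContinuousOn (fun x => Real.log (v x)) (Icc (0:ℝ) 1) :=
    hv.log (fun x hx => (hvp x hx).ne')
  have hlth : ContinuousOn (fun x => Real.log (th x)) (Icc (0:ℝ) 1) :=
    hth.log (fun x hx => (hthp x hx).ne')
  have i1 : IntervalIntegrable v volume 0 1 := (hu ▸ hv).intervalIntegrable
  have i2 : IntervalIntegrable (fun x => Real.log (v x)) volume 0 1 :=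
    (hu ▸ hlv).intervalIntegrable
  have i3 : IntervalIntegrable (fun x => th x ^ 2) volume 0 1 :=
    (hu ▸ (hth.pow 2)).intervalIntegrable
  have i4 : IntervalIntegrable (fun x => th x ^ 2 * Real.log (th x)) volume 0 1 :=
    (hu ▸ ((hth.pow 2).mul hlth)).intervalIntegrable
  have i5 : IntervalIntegrable (fun x => th x ^ 2 * (v x / th x - 1 - Real.log (v x / th x))) volume 0 1 := by
    have hdiv : ContinuousOn (fun y => v y / th y) (Icc (0:ℝ) 1) :=
      hv.div hth (fun y hy => (hthp y hy).ne')
    have hlog : ContinuousOn (fun y => Real.log (v y / th y)) (Icc (0:ℝ) 1) :=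
      hdiv.log (fun y hy => (div_pos (hvp y hy) (hthp y hy)).ne')
    exact (hu ▸ ((hth.pow 2).mul ((hdiv.sub continuousOn_const).sub hlog))).intervalIntegrable
  have i6 : IntervalIntegrable (fun x => B * v x + B ^ 2 * (v x / s - (Real.log (v x) - Real.log s))
      + th x ^ 2 * Real.log (th x) - Real.log s * th x ^ 2) volume 0 1 :=
    (((i1.const_mul B).add (((i1.div_const s).sub (i2.sub intervalIntegrable_const)).const_mul (B ^ 2))).add
      i4).sub (i3.const_mul (Real.log s))
  have hpt : ∀ x ∈ Icc (0:ℝ) 1, th x ^ 2 * (v x / th x - 1 - Real.log (v x / th x)) ≤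
      B * v x + B ^ 2 * (v x / s - (Real.log (v x) - Real.log s))
      + th x ^ 2 * Real.log (th x) - Real.log s * th x ^ 2 := by
    intro x hx
    have h1 := hthp x hx
    have h2 := hthB x hx
    have h3 := hvp x hx
    have e1 : Real.log (v x / th x) = Real.log (v x) - Real.log (th x) :=
      Real.log_div h3.ne' h1.ne'
    have e2 : Real.log (v x / s) = Real.log (v x) - Real.log s := Real.log_div h3.ne' hspos.ne'
    have e3 : th x ^ 2 * (v x / th x) = th x * v x := by field_simp
    set l := Real.log (v x) - Real.log s with hl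
    have hvs : 0 < v x / s := div_pos h3 hspos
    have h4 : l ≤ v x / s - 1 := by
      have := Real.log_le_sub_one_of_pos hvs
      rw [e2] at this
      exact this
    have h5 : - (th x ^ 2 * l) ≤ B ^ 2 * (v x / s - l) := by
      rcases le_or_gt 0 l with hl0 | hl0
      · have : 0 ≤ th x ^ 2 * l := by positivity
        have h6 : 0 ≤ B ^ 2 * (v x / s - l) := mul_nonneg (by positivity) (by linarith)
        linarith
      · have h6 : th x ^ 2 ≤ B ^ 2 := pow_le_pow_left₀ h1.le h2 2
        have h7 : - (th x ^ 2 * l) ≤ B ^ 2 * (-l) := by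
          have := mul_le_mul_of_nonneg_right h6 (by linarith : (0:ℝ) ≤ -l)
          linarith
        have h8 : B ^ 2 * (-l) ≤ B ^ 2 * (v x / s - l) :=
          mul_le_mul_of_nonneg_left (by linarith) (by positivity)
        linarith
    have h9 : th x * v x ≤ B * v x := mul_le_mul_of_nonneg_right h2 h3.le
    have h10 : 0 ≤ th x ^ 2 := sq_nonneg _
    have e4 : Real.log (v x) = l + Real.log s := by rw [hl]; ring
    rw [e1, e4]
    have e5 : th x ^ 2 * (v x / th x - 1 - (l + Real.log s - Real.log (th x))) =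
        th x * v x - th x ^ 2 - th x ^ 2 * l - Real.log s * th x ^ 2 + th x ^ 2 * Real.log (th x) := by
      rw [← e3]; ring
    rw [e5]
    linarith
  have hint : ent th v ≤ ∫ x in (0:ℝ)..1, (B * v x + B ^ 2 * (v x / s - (Real.log (v x) - Real.log s))
      + th x ^ 2 * Real.log (th x) - Real.log s * th x ^ 2) := by
    unfold ent
    exact intervalIntegral.integral_mono_on zero_le_one i5 i6 hpt
  have hcalc : (∫ x in (0:ℝ)..1, (B * v x + B ^ 2 * (v x / s - (Real.log (v x) - Real.log s))
      + th x ^ 2 * Real.log (th x) - Real.log s * th x ^ 2)) =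
      B * s + B ^ 2 * (1 - ((∫ x in (0:ℝ)..1, Real.log (v x)) - Real.log s))
      + (∫ x in (0:ℝ)..1, th x ^ 2 * Real.log (th x)) - Real.log s * ∫ x in (0:ℝ)..1, th x ^ 2 := by
    rw [intervalIntegral.integral_sub ((((i1.const_mul B).add
        (((i1.div_const s).sub (i2.sub intervalIntegrable_const)).const_mul (B ^ 2))).add i4))
        (i3.const_mul (Real.log s)),
      intervalIntegral.integral_add ((i1.const_mul B).add
        (((i1.div_const s).sub (i2.sub intervalIntegrable_const)).const_mul (B ^ 2))) i4,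
      intervalIntegral.integral_add (i1.const_mul B)
        (((i1.div_const s).sub (i2.sub intervalIntegrable_const)).const_mul (B ^ 2)),
      intervalIntegral.integral_const_mul, intervalIntegral.integral_const_mul,
      intervalIntegral.integral_const_mul,
      intervalIntegral.integral_sub (i1.div_const s) (i2.sub intervalIntegrable_const),
      intervalIntegral.integral_sub i2 intervalIntegrable_const,
      intervalIntegral.integral_div, intervalIntegral.integral_const]
    simp only [sub_zero, one_smul]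
    rw [← hs, div_self hspos.ne']
  rw [hcalc] at hint
  have h11 : B * s ≤ 2 * B ^ 2 := by nlinarith
  have h12 : B ^ 2 * (1 - ((∫ x in (0:ℝ)..1, Real.log (v x)) - Real.log s)) ≤ B ^ 2 * (1 + C) :=
    mul_le_mul_of_nonneg_left (by linarith) (by positivity)
  linarith

/-- for entire solutions `Lam → ∞` forces the mass of the base species to vanish -/
theorem mass_zero_of_lam {d : ι → ℝ} {m : ℝ → ℝ} {θ θ' θ'' : ι → ℝ → ℝ} {B c δ : ℝ}
    (H : Data d m θ θ' θ'' B c δ) {u ut ux uxx : ι → ℝ → ℝ → ℝ}
    (hs : IsSol d m univ u ut ux uxx)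
    (hpos : ∀ j, ∀ t ∈ (univ : Set ℝ), ∀ x ∈ Icc (0:ℝ) 1, 0 < u j t x)
    (htame : ∀ t, Tame u B δ t) (k : ι)
    (hlam : Tendsto (fun t => Lam d (θ k) k (fun j => u j t)) atBot atTop) :
    Tendsto (fun t => mass u k t) atBot (𝓝 0) := by
  classical
  have hdpos : ∀ j, 0 < d j := fun j => lt_of_lt_of_le (by have := H.hB0; linarith) (H.dB j)
  have hB0 := H.hB0
  have h00 : (0:ℝ) ∈ Icc (0:ℝ) 1 := ⟨le_refl _, zero_le_one⟩
  have hθc : ContinuousOn (θ k) (Icc (0:ℝ) 1) := fun x hx => ((H.st k).d1 x hx).continuousWithinAt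
  have hu : Icc (0:ℝ) 1 = uIcc (0:ℝ) 1 := (uIcc_of_le zero_le_one).symm
  have hcont : ∀ j t, ContinuousOn (u j t) (Icc (0:ℝ) 1) :=
    fun j t x hx => (hs.dx j t (mem_univ t) x hx).continuousWithinAt
  have hmpos : ∀ j t, 0 < mass u j t := fun j t =>
    intervalIntegral.integral_pos zero_lt_one (hcont j t)
      (fun x hx => (hpos j t (mem_univ t) x (Ioc_subset_Icc_self hx)).le)
      ⟨0, h00, hpos j t (mem_univ t) 0 h00⟩
  obtain ⟨C, hC⟩ := logmean_entire hB0 H.hm H.hB hs hpos (fun t => (htame t).1) k (hdpos k)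
  have hth0 : 0 < θ k 0 := (H.st k).pos 0 h00
  set K2 : ℝ := ∫ x in (0:ℝ)..1, θ k x ^ 2 with hK2
  have hK2pos : 0 < K2 := intervalIntegral.integral_pos zero_lt_one (hθc.pow 2)
    (fun x _ => sq_nonneg _) ⟨0, h00, pow_pos hth0 2⟩
  set K1 : ℝ := 2 * B ^ 2 + B ^ 2 * (1 + C) + (∫ x in (0:ℝ)..1, θ k x ^ 2 * Real.log (θ k x))
    + 3 * θ k 0 * (2 * B) with hK1
  have hbound : ∀ t, Lam d (θ k) k (fun j => u j t) ≤ K1 - Real.log (mass u k t) * K2 := by
    intro t
    have hmk : mass u k t ≤ 2 * B := by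
      refine le_trans ?_ (htame t).1
      exact Finset.single_le_sum (f := fun i => mass u i t) (fun i _ => (hmpos i t).le)
        (Finset.mem_univ k)
    have h1 := b1_ent_le hB0 hθc (H.st k).pos (theta_le (hdpos k) (H.st k) H.hB) (hcont k t)
      (fun x hx => hpos k t (mem_univ t) x hx) hmk (hC t)
    have h2 : ∑ j ∈ Finset.univ.filter (fun j => k < j),
        ∫ x in (0:ℝ)..1, wgt (θ k) (d k / d j) x * u j t x ≤ 3 * θ k 0 * (2 * B) := by
      calc ∑ j ∈ Finset.univ.filter (fun j => k < j),
            ∫ x in (0:ℝ)..1, wgt (θ k) (d k / d j) x * u j t x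
          ≤ ∑ j ∈ Finset.univ.filter (fun j => k < j), 3 * θ k 0 * mass u j t := by
            apply Finset.sum_le_sum
            intro j hj
            have hkj : k < j := by simpa using hj
            have hα : 0 ≤ d k / d j := (div_pos (hdpos k) (hdpos j)).le
            have hα1 : d k / d j ≤ 1 := (div_le_one (hdpos j)).mpr (H.mono hkj).le
            unfold mass
            rw [← intervalIntegral.integral_const_mul]
            have hlth : ContinuousOn (fun x => Real.log (θ k x)) (Icc (0:ℝ) 1) :=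
              hθc.log (fun x hx => ((H.st k).pos x hx).ne')
            have hwc : ContinuousOn (fun x => wgt (θ k) (d k / d j) x) (Icc (0:ℝ) 1) := by
              unfold wgt
              exact (continuousOn_const.add (continuousOn_const.mul hlth)).rexp
            apply intervalIntegral.integral_mono_on zero_le_one
              (hu ▸ (hwc.mul (hcont j t))).intervalIntegrable
              (((hu ▸ (hcont j t)).intervalIntegrable).const_mul _)
            intro x hx
            have h3 := (wgt_bounds (θ := θ k) (x := x) (τ := 4 * B / d k) hth0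
              ((H.st k).pos x hx) hα hα1
              (theta_harnack (hdpos k) H.hm (H.st k) H.hB x hx 0 h00)
              ((div_le_one (hdpos k)).mpr (H.dB k))).2.1
            exact mul_le_mul_of_nonneg_right h3 (hpos j t (mem_univ t) x hx).le
        _ = 3 * θ k 0 * ∑ j ∈ Finset.univ.filter (fun j => k < j), mass u j t := by
            rw [Finset.mul_sum]
        _ ≤ 3 * θ k 0 * (2 * B) := by
            apply mul_le_mul_of_nonneg_left _ (by positivity)
            refine le_trans ?_ (htame t).1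
            exact Finset.sum_le_sum_of_subset_of_nonneg (Finset.filter_subset _ _)
              (fun i _ _ => (hmpos i t).le)
    have h1' : ent (θ k) (u k t) ≤ 2 * B ^ 2 + B ^ 2 * (1 + C)
        + (∫ x in (0:ℝ)..1, θ k x ^ 2 * Real.log (θ k x)) - Real.log (mass u k t) * K2 := h1
    unfold Lam
    rw [hK1]
    linarith
  have hlog : Tendsto (fun t => Real.log (mass u k t)) atBot atBot := by
    rw [tendsto_atBot]
    intro b
    have h1 := (tendsto_atTop.mp hlam) (K1 - b * K2)
    filter_upwards [h1] with t ht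
    have h2 := hbound t
    have h3 : Real.log (mass u k t) * K2 ≤ b * K2 := by linarith
    exact le_of_mul_le_mul_right h3 hK2pos
  have h1 := Real.tendsto_exp_atBot.comp hlog
  refine h1.congr (fun t => ?_)
  simp only [Function.comp]
  exact Real.exp_log (hmpos k t)

end Pool.Agent.Lib.MP_d8ef8f_an
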