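import Pool.Agent.Lib.MP_d8ef8f_an.A3

namespace Pool.Agent.Lib.MP_d8ef8f_an

open Set Filter Topology MeasureTheory

private theorem C1_aux (mu dk : ℝ) (hmu : 0 < mu) (hdk : 0 < dk) (ε : ℝ) (hε : 0 < ε) :
    ∃ φ > 0, (1 + (Real.sqrt (φ / mu) + φ) / mu) * Real.exp (Real.sqrt (φ / dk) / mu) - 1 ≤ ε ∧
      1 - (1 - (Real.sqrt (φ / mu) + φ) / mu) * Real.exp (-(Real.sqrt (φ / dk) / mu)) ≤ ε := by
  have h1 : Continuous (fun φ : ℝ =>
      (1 + (Real.sqrt (φ / mu) + φ) / mu) * Real.exp (Real.sqrt (φ / dk) / mu) - 1) := by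
    fun_prop
  have h2 : Continuous (fun φ : ℝ =>
      1 - (1 - (Real.sqrt (φ / mu) + φ) / mu) * Real.exp (-(Real.sqrt (φ / dk) / mu))) := by
    fun_prop
  have e1 : ∀ᶠ φ in 𝓝 (0:ℝ),
      (1 + (Real.sqrt (φ / mu) + φ) / mu) * Real.exp (Real.sqrt (φ / dk) / mu) - 1 < ε := by
    refine h1.continuousAt.eventually_lt_const ?_
    simpa using hε
  have e2 : ∀ᶠ φ in 𝓝 (0:ℝ),
      1 - (1 - (Real.sqrt (φ / mu) + φ) / mu) * Real.exp (-(Real.sqrt (φ / dk) / mu)) < ε := by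
    refine h2.continuousAt.eventually_lt_const ?_
    simpa using hε
  have e3 : ∀ᶠ φ in 𝓝[>] (0:ℝ), 0 < φ := self_mem_nhdsWithin
  obtain ⟨φ, ⟨ha, hb⟩, hc⟩ := (((e1.and e2).filter_mono nhdsWithin_le_nhds).and e3).exists
  exact ⟨φ, hc, ha.le, hb.le⟩

variable {ι : Type} [Fintype ι] [LinearOrder ι]

/-- coercivity: small dissipation and small other species force `v k ≈ θ` uniformly -/
theorem coercive {θ θ' : ℝ → ℝ} {dk : ℝ} (hdk : 0 < dk)
    (hθ : ∀ x ∈ Icc (0:ℝ) 1, HasDerivWithinAt θ (θ' x) (Icc (0:ℝ) 1) x)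
    (hθ' : ContinuousOn θ' (Icc (0:ℝ) 1)) (hθpos : ∀ x ∈ Icc (0:ℝ) 1, 0 < θ x) :
    ∀ ε > 0, ∃ φ > 0, ∀ (k : ι) (v v' : ι → ℝ → ℝ),
      (∀ j, ContinuousOn (v j) (Icc (0:ℝ) 1)) → (∀ j, ∀ x ∈ Icc (0:ℝ) 1, 0 < v j x) →
      (∀ x ∈ Icc (0:ℝ) 1, HasDerivWithinAt (v k) (v' k x) (Icc (0:ℝ) 1) x) →
      ContinuousOn (v' k) (Icc (0:ℝ) 1) →
      dk * gradDiss θ θ' (v k) (v' k) ≤ φ →
      (∫ x in (0:ℝ)..1, θ x * ((∑ i, v i x) - θ x) ^ 2) ≤ φ →
      (∑ j ∈ Finset.univ.filter (fun j => j ≠ k), ∫ x in (0:ℝ)..1, v j x) ≤ φ →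
      ∀ x ∈ Icc (0:ℝ) 1, |v k x / θ x - 1| ≤ ε := by
  intro ε hε
  have hcθ : ContinuousOn θ (Icc (0:ℝ) 1) := fun x hx => (hθ x hx).continuousWithinAt
  have hne : (Icc (0:ℝ) 1).Nonempty := ⟨0, by simp⟩
  obtain ⟨x0, hx0, hmin⟩ := isCompact_Icc.exists_isMinOn hne hcθ
  set mu := θ x0 with hmudef
  have hmu : 0 < mu := hθpos x0 hx0
  have hmin' : ∀ x ∈ Icc (0:ℝ) 1, mu ≤ θ x := fun x hx => hmin hx
  obtain ⟨φ, hφ, hA, hB⟩ := C1_aux mu dk hmu hdk ε hε
  refine ⟨φ, hφ, ?_⟩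
  intro k v v' hvc hvpos hvd hv'c hD hE hF x hx
  have huIcc : uIcc (0:ℝ) 1 = Icc (0:ℝ) 1 := uIcc_of_le zero_le_one
  -- integrability helper
  have hint : ∀ f : ℝ → ℝ, ContinuousOn f (Icc (0:ℝ) 1) → IntervalIntegrable f volume 0 1 := by
    intro f hf
    apply ContinuousOn.intervalIntegrable
    rwa [huIcc]
  have hmono : ∀ f g : ℝ → ℝ, ContinuousOn f (Icc (0:ℝ) 1) → ContinuousOn g (Icc (0:ℝ) 1) →
      (∀ x ∈ Icc (0:ℝ) 1, f x ≤ g x) → (∫ x in (0:ℝ)..1, f x) ≤ ∫ x in (0:ℝ)..1, g x := by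
    intro f g hf hg h
    exact intervalIntegral.integral_mono_on zero_le_one (hint f hf) (hint g hg) h
  -- the log quotient
  set f : ℝ → ℝ := fun y => Real.log (v k y) - Real.log (θ y) with hf
  set f' : ℝ → ℝ := fun y => v' k y / v k y - θ' y / θ y with hf'
  have hfd : ∀ y ∈ Icc (0:ℝ) 1, HasDerivWithinAt f (f' y) (Icc (0:ℝ) 1) y := by
    intro y hy
    exact ((hvd y hy).log (hvpos k y hy).ne').sub ((hθ y hy).log (hθpos y hy).ne')
  have hf'c : ContinuousOn f' (Icc (0:ℝ) 1) := by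
    apply ContinuousOn.sub
    · exact hv'c.div (hvc k) (fun y hy => (hvpos k y hy).ne')
    · exact hθ'.div hcθ (fun y hy => (hθpos y hy).ne')
  have hfint : (∫ z in (0:ℝ)..1, f' z ^ 2) ≤ φ / dk / mu ^ 2 := by
    have h1 : mu ^ 2 * (∫ z in (0:ℝ)..1, f' z ^ 2) ≤ gradDiss θ θ' (v k) (v' k) := by
      rw [← intervalIntegral.integral_const_mul]
      unfold gradDiss
      apply hmono
      · exact continuousOn_const.mul (hf'c.pow 2)
      · exact (hcθ.pow 2).mul (hf'c.pow 2)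
      · intro y hy
        have := hmin' y hy
        have h2 : mu ^ 2 ≤ θ y ^ 2 := by
          exact pow_le_pow_left₀ hmu.le this 2
        exact mul_le_mul_of_nonneg_right h2 (sq_nonneg _)
    have h3 : gradDiss θ θ' (v k) (v' k) ≤ φ / dk := by
      rw [le_div_iff₀ hdk]; linarith [mul_comm dk (gradDiss θ θ' (v k) (v' k))]
    rw [le_div_iff₀ (by positivity)]
    nlinarith [h1, h3]
  have hosc : ∀ y ∈ Icc (0:ℝ) 1, ∀ z ∈ Icc (0:ℝ) 1, |f y - f z| ≤ Real.sqrt (φ / dk) / mu := by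
    intro y hy z hz
    refine (osc_le f f' hfd hf'c y z hy hz).trans ?_
    have : Real.sqrt (φ / dk) / mu = Real.sqrt (φ / dk / mu ^ 2) := by
      rw [Real.sqrt_div' (φ / dk) (by positivity : (0:ℝ) ≤ mu ^ 2), Real.sqrt_sq hmu.le]
    rw [this]
    exact Real.sqrt_le_sqrt hfint
  -- integral of |U - θ|
  have hUc : ContinuousOn (fun y => ∑ i, v i y) (Icc (0:ℝ) 1) :=
    continuousOn_finsetSum _ (fun i _ => hvc i)
  have hU : (∫ y in (0:ℝ)..1, |(∑ i, v i y) - θ y|) ≤ Real.sqrt (φ / mu) := by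
    apply Real.le_sqrt_of_sq_le
    have hcs := cauchy_schwarz (fun y => |(∑ i, v i y) - θ y|) (fun _ => 1)
      ((hUc.sub hcθ).abs) continuousOn_const
    simp only [mul_one, one_pow, intervalIntegral.integral_const, sub_zero, smul_eq_mul,
      sq_abs] at hcs
    refine hcs.trans ?_
    rw [le_div_iff₀ hmu]
    have h4 : mu * (∫ y in (0:ℝ)..1, ((∑ i, v i y) - θ y) ^ 2) ≤
        ∫ y in (0:ℝ)..1, θ y * ((∑ i, v i y) - θ y) ^ 2 := by
      rw [← intervalIntegral.integral_const_mul]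
      apply hmono
      · exact continuousOn_const.mul ((hUc.sub hcθ).pow 2)
      · exact hcθ.mul ((hUc.sub hcθ).pow 2)
      · intro y hy
        exact mul_le_mul_of_nonneg_right (hmin' y hy) (sq_nonneg _)
    nlinarith [h4, hE]
  -- sum of others
  have hothers : (∫ y in (0:ℝ)..1, ∑ j ∈ Finset.univ.filter (fun j => j ≠ k), v j y) ≤ φ := by
    rw [intervalIntegral.integral_finsetSum (fun j _ => hint _ (hvc j))]
    exact hF
  have hdec : ∀ y, (∑ i, v i y) = v k y + ∑ j ∈ Finset.univ.filter (fun j => j ≠ k), v j y := by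
    intro y
    rw [← Finset.sum_filter_add_sum_filter_not Finset.univ (fun j => j = k) (fun j => v j y)]
    congr 1
    simp [Finset.filter_eq']
  have hoc : ContinuousOn (fun y => ∑ j ∈ Finset.univ.filter (fun j => j ≠ k), v j y)
      (Icc (0:ℝ) 1) := continuousOn_finsetSum _ (fun i _ => hvc i)
  have hw : (∫ y in (0:ℝ)..1, |v k y - θ y|) ≤ Real.sqrt (φ / mu) + φ := by
    have h5 : (∫ y in (0:ℝ)..1, |v k y - θ y|) ≤ ∫ y in (0:ℝ)..1, (|(∑ i, v i y) - θ y| +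
        ∑ j ∈ Finset.univ.filter (fun j => j ≠ k), v j y) := by
      apply hmono
      · exact ((hvc k).sub hcθ).abs
      · exact ((hUc.sub hcθ).abs).add hoc
      · intro y hy
        have hnn : 0 ≤ ∑ j ∈ Finset.univ.filter (fun j => j ≠ k), v j y :=
          Finset.sum_nonneg (fun j _ => (hvpos j y hy).le)
        have : v k y - θ y = ((∑ i, v i y) - θ y) -
            ∑ j ∈ Finset.univ.filter (fun j => j ≠ k), v j y := by
          rw [hdec y]; ring
        rw [this]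
        refine (abs_sub _ _).trans ?_
        rw [abs_of_nonneg hnn]
    have h5' : (∫ y in (0:ℝ)..1, (|(∑ i, v i y) - θ y| +
        ∑ j ∈ Finset.univ.filter (fun j => j ≠ k), v j y)) =
        (∫ y in (0:ℝ)..1, |(∑ i, v i y) - θ y|) +
        ∫ y in (0:ℝ)..1, ∑ j ∈ Finset.univ.filter (fun j => j ≠ k), v j y :=
      intervalIntegral.integral_add (hint _ ((hUc.sub hcθ).abs)) (hint _ hoc)
    rw [h5'] at h5
    linarith
  -- the point x1
  obtain ⟨x1, hx1, hmin1⟩ := isCompact_Icc.exists_isMinOn hne (((hvc k).sub hcθ).abs)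
  have hx1' : |v k x1 - θ x1| ≤ Real.sqrt (φ / mu) + φ := by
    refine le_trans ?_ hw
    have h6 : (∫ _y in (0:ℝ)..1, |v k x1 - θ x1|) ≤ ∫ y in (0:ℝ)..1, |v k y - θ y| := by
      apply hmono
      · exact continuousOn_const
      · exact ((hvc k).sub hcθ).abs
      · intro y hy
        exact hmin1 hy
    simpa using h6
  have hp1 : |v k x1 / θ x1 - 1| ≤ (Real.sqrt (φ / mu) + φ) / mu := by
    have hth := hθpos x1 hx1
    have : v k x1 / θ x1 - 1 = (v k x1 - θ x1) / θ x1 := by field_simp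
    rw [this, abs_div, abs_of_pos hth]
    have hnn : 0 ≤ Real.sqrt (φ / mu) + φ := by positivity
    exact div_le_div₀ hnn hx1' hmu (hmin' x1 hx1)
  set a := (Real.sqrt (φ / mu) + φ) / mu with ha
  set s := Real.sqrt (φ / dk) / mu with hs
  have hs0 : 0 ≤ s := by positivity
  have ha0 : 0 ≤ a := by positivity
  -- exp representation
  have hexp : v k x / θ x = (v k x1 / θ x1) * Real.exp (f x - f x1) := by
    have e1 : v k x / θ x = Real.exp (f x) := by
      rw [hf]; simp only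
      rw [Real.exp_sub, Real.exp_log (hvpos k x hx), Real.exp_log (hθpos x hx)]
    have e2 : v k x1 / θ x1 = Real.exp (f x1) := by
      rw [hf]; simp only
      rw [Real.exp_sub, Real.exp_log (hvpos k x1 hx1), Real.exp_log (hθpos x1 hx1)]
    rw [e1, e2, ← Real.exp_add]; congr 1; ring
  have ho := abs_le.1 (hosc x hx x1 hx1)
  have hp1' := abs_le.1 hp1
  have hpp : 0 < v k x1 / θ x1 := div_pos (hvpos k x1 hx1) (hθpos x1 hx1)
  rw [abs_le]
  constructor
  · -- lower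
    have h7 : Real.exp (-s) ≤ Real.exp (f x - f x1) := Real.exp_le_exp.2 (by linarith [ho.1])
    have h8 : (1 - a) * Real.exp (-s) ≤ (v k x1 / θ x1) * Real.exp (-s) :=
      mul_le_mul_of_nonneg_right (by linarith [hp1'.1]) (Real.exp_pos _).le
    have h9 : (v k x1 / θ x1) * Real.exp (-s) ≤ (v k x1 / θ x1) * Real.exp (f x - f x1) :=
      mul_le_mul_of_nonneg_left h7 hpp.le
    rw [hexp]
    linarith
  · have h7 : Real.exp (f x - f x1) ≤ Real.exp s := Real.exp_le_exp.2 (by linarith [ho.2])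
    have h8 : (v k x1 / θ x1) * Real.exp s ≤ (1 + a) * Real.exp s :=
      mul_le_mul_of_nonneg_right (by linarith [hp1'.2]) (Real.exp_pos _).le
    have h9 : (v k x1 / θ x1) * Real.exp (f x - f x1) ≤ (v k x1 / θ x1) * Real.exp s :=
      mul_le_mul_of_nonneg_left h7 hpp.le
    rw [hexp]
    linarith

end Pool.Agent.Lib.MP_d8ef8f_an
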