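import Mathlib

namespace Pool.Agent.Lib.MP_d8ef8f_an

open Set Filter Topology MeasureTheory

/-- `IsSol d m T u ut ux uxx`: on the time set `T` and for `x` in `[0,1]` the functions `u j` are
nonnegative and of class `C^{1,2}` with derivatives `ut j`, `ux j`, `uxx j` continuous on
`T × [0,1]`, they satisfy the Neumann condition at `0` and `1` and the competition system. -/
structure IsSol {ι : Type} [Fintype ι] (d : ι → ℝ) (m : ℝ → ℝ) (T : Set ℝ)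
    (u ut ux uxx : ι → ℝ → ℝ → ℝ) : Prop where
  c0 : ∀ j, ContinuousOn (fun p : ℝ × ℝ => u j p.1 p.2) (T ×ˢ Icc (0:ℝ) 1)
  ct : ∀ j, ContinuousOn (fun p : ℝ × ℝ => ut j p.1 p.2) (T ×ˢ Icc (0:ℝ) 1)
  cx : ∀ j, ContinuousOn (fun p : ℝ × ℝ => ux j p.1 p.2) (T ×ˢ Icc (0:ℝ) 1)
  cxx : ∀ j, ContinuousOn (fun p : ℝ × ℝ => uxx j p.1 p.2) (T ×ˢ Icc (0:ℝ) 1)
  dt : ∀ j, ∀ t ∈ T, ∀ x ∈ Icc (0:ℝ) 1, HasDerivAt (fun s => u j s x) (ut j t x) t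
  dx : ∀ j, ∀ t ∈ T, ∀ x ∈ Icc (0:ℝ) 1, HasDerivWithinAt (u j t) (ux j t x) (Icc (0:ℝ) 1) x
  dxx : ∀ j, ∀ t ∈ T, ∀ x ∈ Icc (0:ℝ) 1, HasDerivWithinAt (ux j t) (uxx j t x) (Icc (0:ℝ) 1) x
  bc0 : ∀ j, ∀ t ∈ T, ux j t 0 = 0
  bc1 : ∀ j, ∀ t ∈ T, ux j t 1 = 0
  nonneg : ∀ j, ∀ t ∈ T, ∀ x ∈ Icc (0:ℝ) 1, 0 ≤ u j t x
  eq : ∀ j, ∀ t ∈ T, ∀ x ∈ Icc (0:ℝ) 1,
    ut j t x = d j * uxx j t x + u j t x * (m x - ∑ k, u k t x)

/-- Positive steady state of the one species equation, with its derivatives. -/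
structure Steady (d : ℝ) (m θ θ' θ'' : ℝ → ℝ) : Prop where
  pos : ∀ x ∈ Icc (0:ℝ) 1, 0 < θ x
  d1 : ∀ x ∈ Icc (0:ℝ) 1, HasDerivWithinAt θ (θ' x) (Icc (0:ℝ) 1) x
  d2 : ∀ x ∈ Icc (0:ℝ) 1, HasDerivWithinAt θ' (θ'' x) (Icc (0:ℝ) 1) x
  bc0 : θ' 0 = 0
  bc1 : θ' 1 = 0
  eq : ∀ x ∈ Icc (0:ℝ) 1, d * θ'' x + θ x * (m x - θ x) = 0

/-- `θ` is a positive solution of `d θ'' + θ (m - θ) = 0` on `[0,1]` with `θ'(0) = θ'(1) = 0`. -/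
def IsSteady (d : ℝ) (m θ : ℝ → ℝ) : Prop := ∃ θ' θ'' : ℝ → ℝ, Steady d m θ θ' θ''

/-- Forward trajectory in `K⁺`: continuous on `[0,∞) × [0,1]`, classical solution for `t > 0`,
nonnegative at `t = 0`. -/
def Forward {ι : Type} [Fintype ι] (d : ι → ℝ) (m : ℝ → ℝ) (u : ι → ℝ → ℝ → ℝ) : Prop :=
  (∃ ut ux uxx, IsSol d m (Ioi 0) u ut ux uxx) ∧
  (∀ j, ContinuousOn (fun p : ℝ × ℝ => u j p.1 p.2) (Ici (0:ℝ) ×ˢ Icc (0:ℝ) 1)) ∧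
  ∀ j, ∀ x ∈ Icc (0:ℝ) 1, 0 ≤ u j 0 x

/-- Bounded entire trajectory in `K⁺`. -/
def Entire {ι : Type} [Fintype ι] (d : ι → ℝ) (m : ℝ → ℝ) (u : ι → ℝ → ℝ → ℝ) : Prop :=
  (∃ ut ux uxx, IsSol d m univ u ut ux uxx) ∧
  ∃ C : ℝ, ∀ j t, ∀ x ∈ Icc (0:ℝ) 1, u j t x ≤ C

/-- Uniform convergence on `[0,1]` of all components of `u t` to `E` as `t` runs along `l`. -/
def ConvTo {ι : Type} (l : Filter ℝ) (u : ι → ℝ → ℝ → ℝ) (E : ι → ℝ → ℝ) : Prop :=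
  ∀ ε > 0, ∀ᶠ t in l, ∀ j, ∀ x ∈ Icc (0:ℝ) 1, |u j t x - E j x| < ε

/-- The equilibria: `Eqm θ i` is `E_i` (component `i` is `θ i`, the others vanish) for `i < N`, and
`Eqm θ N` is `E_0 = (0,...,0)`. -/
noncomputable def Eqm {N : ℕ} (θ : Fin N → ℝ → ℝ) (i : Fin (N + 1)) : Fin N → ℝ → ℝ :=
  fun j x => if (j : ℕ) = (i : ℕ) then θ j x else 0

/-- The ordered family of singletons `{M 0}, {M 1}, ...` is a Morse decomposition of the maximal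
bounded invariant set in `K⁺`. -/
structure IsMorse {N : ℕ} (d : Fin N → ℝ) (m : ℝ → ℝ) (M : Fin (N + 1) → Fin N → ℝ → ℝ) : Prop where
  /-- every `M i` is an equilibrium -/
  equil : ∀ i, Entire d m (fun j _ x => M i j x)
  /-- the sets are pairwise disjoint -/
  disj : ∀ i i', i ≠ i' → ∃ j, ∃ x ∈ Icc (0:ℝ) 1, M i j x ≠ M i' j x
  /-- every forward trajectory converges uniformly to some `M i` -/
  conv : ∀ u, Forward d m u → ∃ i, ConvTo atTop u (M i)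
  /-- every bounded entire trajectory is one of the `M i` or goes from `M i'` to `M i` with `i < i'` -/
  conn : ∀ u, Entire d m u →
    (∃ i, ∀ t j, ∀ x ∈ Icc (0:ℝ) 1, u j t x = M i j x) ∨
    ∃ i i', i < i' ∧ ConvTo atTop u (M i) ∧ ConvTo atBot u (M i')

/-! ### quantities used in the proof -/

section
variable {ι : Type}

/-- total mass of species `j` -/
noncomputable def mass (u : ι → ℝ → ℝ → ℝ) (j : ι) (t : ℝ) : ℝ := ∫ x in (0:ℝ)..1, u j t x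

/-- integral of the square of species `j` -/
noncomputable def sq (u : ι → ℝ → ℝ → ℝ) (j : ι) (t : ℝ) : ℝ := ∫ x in (0:ℝ)..1, u j t x ^ 2

/-- the ratio `‖u_j‖₂² / ‖u_j‖₁²` -/
noncomputable def rat (u : ι → ℝ → ℝ → ℝ) (j : ι) (t : ℝ) : ℝ := sq u j t / mass u j t ^ 2

/-- the constant `∫ F²`, `F x = x m̄ - ∫₀ˣ m` -/
noncomputable def cF (m : ℝ → ℝ) : ℝ :=
  ∫ x in (0:ℝ)..1, (x * (∫ y in (0:ℝ)..1, m y) - ∫ y in (0:ℝ)..x, m y) ^ 2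

/-- the weight `θ(0)^(1-α) θ(x)^α` -/
noncomputable def wgt (θ : ℝ → ℝ) (α : ℝ) (x : ℝ) : ℝ :=
  Real.exp ((1 - α) * Real.log (θ 0) + α * Real.log (θ x))

/-- relative entropy density integral `∫ θ² (p - 1 - log p)`, `p = v/θ` -/
noncomputable def ent (θ v : ℝ → ℝ) : ℝ :=
  ∫ x in (0:ℝ)..1, θ x ^ 2 * (v x / θ x - 1 - Real.log (v x / θ x))

/-- the Lyapunov functional with base species `k` (of a state `v`) -/
noncomputable def Lam [Fintype ι] [LinearOrder ι] (d : ι → ℝ) (θ : ℝ → ℝ) (k : ι) (v : ι → ℝ → ℝ) : ℝ :=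
  ent θ (v k) + ∑ j ∈ Finset.univ.filter (fun j => k < j),
    ∫ x in (0:ℝ)..1, wgt θ (d k / d j) x * v j x

/-- gradient dissipation of the base species -/
noncomputable def gradDiss (θ θ' v v' : ℝ → ℝ) : ℝ :=
  ∫ x in (0:ℝ)..1, θ x ^ 2 * (v' x / v x - θ' x / θ x) ^ 2

/-- the time derivative of `Lam` (of a state `v` with space derivatives `v'`) -/
noncomputable def LamD [Fintype ι] [LinearOrder ι] (d : ι → ℝ) (θ θ' : ℝ → ℝ) (k : ι)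
    (v v' : ι → ℝ → ℝ) : ℝ :=
  - d k * gradDiss θ θ' (v k) (v' k)
  - (∫ x in (0:ℝ)..1, θ x * (v k x - θ x) * ((∑ i, v i x) - θ x))
  + ∑ j ∈ Finset.univ.filter (fun j => k < j),
    (- d k * (1 - d k / d j) * (∫ x in (0:ℝ)..1, wgt θ (d k / d j) x * (θ' x / θ x) ^ 2 * v j x)
      - ∫ x in (0:ℝ)..1, wgt θ (d k / d j) x * v j x * ((∑ i, v i x) - θ x))

end

end Pool.Agent.Lib.MP_d8ef8f_an
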