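import Pool.Agent.Lib.MP_d8ef8f_an.A1
import Pool.Agent.Lib.MP_d8ef8f_an.A2

namespace Pool.Agent.Lib.MP_d8ef8f_an

open Set Filter Topology MeasureTheory

variable {ι : Type} [Fintype ι]

private theorem S1_sl {T : Set ℝ} {g : ℝ → ℝ → ℝ}
    (h : ContinuousOn (fun p : ℝ × ℝ => g p.1 p.2) (T ×ˢ Icc (0:ℝ) 1)) {t : ℝ} (ht : t ∈ T) :
    ContinuousOn (g t) (Icc (0:ℝ) 1) := by
  have h1 : Continuous fun x : ℝ => ((t, x) : ℝ × ℝ) := by fun_prop
  exact h.comp h1.continuousOn fun x hx => ⟨ht, hx⟩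

private theorem S1_int {f : ℝ → ℝ} (h : ContinuousOn f (Icc (0:ℝ) 1)) :
    IntervalIntegrable f volume 0 1 := h.intervalIntegrable_of_Icc zero_le_one

private theorem S1_congr {f g : ℝ → ℝ} (h : ∀ x ∈ Icc (0:ℝ) 1, f x = g x) :
    ∫ x in (0:ℝ)..1, f x = ∫ x in (0:ℝ)..1, g x := by
  apply intervalIntegral.integral_congr
  intro x hx
  rw [uIcc_of_le zero_le_one] at hx
  exact h x hx

/-- derivative of the mass -/
theorem mass_deriv {d : ι → ℝ} {m : ℝ → ℝ} {T : Set ℝ} {u ut ux uxx : ι → ℝ → ℝ → ℝ}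
    (hT : IsOpen T) (hs : IsSol d m T u ut ux uxx) (j : ι) :
    ∀ t ∈ T, HasDerivAt (mass u j) (∫ x in (0:ℝ)..1, u j t x * (m x - ∑ k, u k t x)) t := by
  intro t ht
  have h1 := hasDerivAt_integral hT (u j) (ut j) (hs.ct j) (fun t ht => S1_sl (hs.c0 j) ht)
    (hs.dt j) t ht
  have hut := S1_sl (hs.ct j) ht
  have huxx := S1_sl (hs.cxx j) ht
  have h2 : ∫ x in (0:ℝ)..1, uxx j t x = 0 := by
    have h3 := parts_neumann (fun _ => (1:ℝ)) (fun _ => 0) (ux j t) (uxx j t)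
      (fun x _ => hasDerivWithinAt_const _ _ _) continuousOn_const (hs.dxx j t ht) huxx
      (hs.bc0 j t ht) (hs.bc1 j t ht)
    simpa using h3
  have h4 : ∫ x in (0:ℝ)..1, u j t x * (m x - ∑ k, u k t x) = ∫ x in (0:ℝ)..1, ut j t x := by
    have h5 : ∫ x in (0:ℝ)..1, u j t x * (m x - ∑ k, u k t x) =
        ∫ x in (0:ℝ)..1, (ut j t x - d j * uxx j t x) := by
      refine S1_congr fun x hx => ?_
      rw [hs.eq j t ht x hx]
      ring
    rw [h5, intervalIntegral.integral_sub (S1_int hut) ((S1_int huxx).const_mul _),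
      intervalIntegral.integral_const_mul, h2, mul_zero, sub_zero]
  rw [h4]
  exact h1

/-- derivative of the square integral -/
theorem sq_deriv {d : ι → ℝ} {m : ℝ → ℝ} {T : Set ℝ} {u ut ux uxx : ι → ℝ → ℝ → ℝ}
    (hT : IsOpen T) (hm : ContinuousOn m (Icc (0:ℝ) 1)) (hs : IsSol d m T u ut ux uxx) (j : ι) :
    ∀ t ∈ T, HasDerivAt (sq u j) (- 2 * d j * (∫ x in (0:ℝ)..1, ux j t x ^ 2)
      + 2 * ∫ x in (0:ℝ)..1, u j t x ^ 2 * (m x - ∑ k, u k t x)) t := by
  intro t ht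
  have h1 := hasDerivAt_integral hT (fun t x => u j t x ^ 2) (fun t x => 2 * u j t x * ut j t x)
    ((continuousOn_const.mul (hs.c0 j)).mul (hs.ct j)) (fun t ht => (S1_sl (hs.c0 j) ht).pow 2)
    (fun t ht x hx => by
      have h := (hs.dt j t ht x hx).fun_pow 2
      have e : ((2 : ℕ) : ℝ) * u j t x ^ (2 - 1) * ut j t x = 2 * u j t x * ut j t x := by
        norm_num
      rw [e] at h
      exact h) t ht
  have hu := S1_sl (hs.c0 j) ht
  have hut := S1_sl (hs.ct j) ht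
  have hux := S1_sl (hs.cx j) ht
  have huxx := S1_sl (hs.cxx j) ht
  have h2 : ∫ x in (0:ℝ)..1, u j t x * uxx j t x = - ∫ x in (0:ℝ)..1, ux j t x ^ 2 := by
    have h3 := parts_neumann (u j t) (ux j t) (ux j t) (uxx j t) (hs.dx j t ht) hux
      (hs.dxx j t ht) huxx (hs.bc0 j t ht) (hs.bc1 j t ht)
    rw [h3]
    congr 1
    exact S1_congr fun x _ => by ring
  have h4 : ∫ x in (0:ℝ)..1, u j t x ^ 2 * (m x - ∑ k, u k t x) =
      (∫ x in (0:ℝ)..1, u j t x * ut j t x) - d j * ∫ x in (0:ℝ)..1, u j t x * uxx j t x := by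
    have h5 : ∫ x in (0:ℝ)..1, u j t x ^ 2 * (m x - ∑ k, u k t x) =
        ∫ x in (0:ℝ)..1, (u j t x * ut j t x - d j * (u j t x * uxx j t x)) := by
      refine S1_congr fun x hx => ?_
      rw [hs.eq j t ht x hx]
      ring
    have i1 : IntervalIntegrable (fun x => u j t x * ut j t x) volume 0 1 := S1_int (hu.mul hut)
    have i2 : IntervalIntegrable (fun x => u j t x * uxx j t x) volume 0 1 :=
      S1_int (hu.mul huxx)
    rw [h5, intervalIntegral.integral_sub i1 (i2.const_mul _),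
      intervalIntegral.integral_const_mul]
  have h6 : ∫ x in (0:ℝ)..1, 2 * u j t x * ut j t x =
      2 * ∫ x in (0:ℝ)..1, u j t x * ut j t x := by
    rw [← intervalIntegral.integral_const_mul]
    exact S1_congr fun x _ => by ring
  have h7 : - 2 * d j * (∫ x in (0:ℝ)..1, ux j t x ^ 2)
      + 2 * ∫ x in (0:ℝ)..1, u j t x ^ 2 * (m x - ∑ k, u k t x) =
      ∫ x in (0:ℝ)..1, 2 * u j t x * ut j t x := by
    rw [h6, h4, h2]
    ring
  rw [h7]
  exact h1

end Pool.Agent.Lib.MP_d8ef8f_an
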