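import Pool.Agent.Lib.MP_d8ef8f_an.Setup
import Pool.Agent.Lib.MP_d8ef8f_an.S1
import Pool.Agent.Lib.MP_d8ef8f_an.S3
import Pool.Agent.Lib.MP_d8ef8f_an.A3
import Pool.Agent.Lib.MP_d8ef8f_an.A5

namespace Pool.Agent.Lib.MP_d8ef8f_an

open Set Filter Topology MeasureTheory

variable {ι : Type} [Fintype ι] [LinearOrder ι]

/-- an eventual property holds eventually on the whole unit interval before `t` -/
theorem G1_window {l : Filter ℝ} (hl : l = atTop ∨ l = atBot) {P : ℝ → Prop}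
    (h : ∀ᶠ t in l, P t) : ∀ᶠ t in l, ∀ s ∈ Icc (t - 1) t, P s := by
  rcases hl with rfl | rfl
  · obtain ⟨a, ha⟩ := eventually_atTop.1 h
    filter_upwards [eventually_ge_atTop (a + 1)] with t ht s hs
    exact ha s (by linarith [hs.1])
  · obtain ⟨a, ha⟩ := eventually_atBot.1 h
    filter_upwards [eventually_le_atBot a] with t ht s hs
    exact ha s (hs.2.trans ht)

private theorem G1_slice {f : ℝ → ℝ → ℝ} {T : Set ℝ}
    (h : ContinuousOn (fun p : ℝ × ℝ => f p.1 p.2) (T ×ˢ Icc (0:ℝ) 1)) {t : ℝ} (ht : t ∈ T) :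
    ContinuousOn (f t) (Icc (0:ℝ) 1) := by
  have h1 : ContinuousOn (fun x : ℝ => ((t, x) : ℝ × ℝ)) (Icc (0:ℝ) 1) := by fun_prop
  exact h.comp h1 (fun x hx => ⟨ht, hx⟩)

private theorem G1_step {d : ι → ℝ} {m : ℝ → ℝ} {θ θ' θ'' : ι → ℝ → ℝ} {B c δ : ℝ}
    (H : Data d m θ θ' θ'' B c δ) {T : Set ℝ} (hTo : IsOpen T)
    {u ut ux uxx : ι → ℝ → ℝ → ℝ}
    (hs : IsSol d m T u ut ux uxx) (hpos : ∀ j, ∀ t ∈ T, ∀ x ∈ Icc (0:ℝ) 1, 0 < u j t x)
    (j : ι) {t η : ℝ} (hη : 0 < η) (hsub : Icc (t - 1) t ⊆ T)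
    (htame : ∀ s ∈ Icc (t - 1) t, Tame u B δ s) (hmass : ∀ s ∈ Icc (t - 1) t, mass u j s ≤ η) :
    ∀ x ∈ Icc (0:ℝ) 1,
      u j t x ≤ η * (1 + Real.sqrt ((2 * B + 1) / d j)) * Real.exp B := by
  have hB0 := H.hB0
  have hdj : 0 < d j := by have := H.dB j; linarith
  have huc : ∀ k, ∀ s ∈ T, ContinuousOn (u k s) (Icc (0:ℝ) 1) := fun k s hs' => G1_slice (hs.c0 k) hs'
  have huxc : ∀ k, ∀ s ∈ T, ContinuousOn (ux k s) (Icc (0:ℝ) 1) := fun k s hs' => G1_slice (hs.cx k) hs'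
  -- bounds on the square integral
  have hsq : ∀ s ∈ Icc (t - 1) t, sq u j s ≤ 2 * η ^ 2 := by
    intro s hs'
    obtain ⟨hmp, -⟩ := one_le_rat hs hpos j s (hsub hs')
    have h1 := (htame s hs').2 j
    have h2 : rat u j s ≤ 2 := by have := H.hδ1; linarith
    rw [rat, div_le_iff₀ (by positivity)] at h2
    have h3 : mass u j s ^ 2 ≤ η ^ 2 := by
      have := hmass s hs'
      gcongr
    linarith
  have hsq0 : ∀ s, 0 ≤ sq u j s := by
    intro s
    exact intervalIntegral.integral_nonneg zero_le_one fun x _ => sq_nonneg _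
  -- mean value theorem
  have hder : ∀ s ∈ T, HasDerivAt (sq u j) (- 2 * d j * (∫ x in (0:ℝ)..1, ux j s x ^ 2)
      + 2 * ∫ x in (0:ℝ)..1, u j s x ^ 2 * (m x - ∑ k, u k s x)) s := sq_deriv hTo H.hm hs j
  obtain ⟨τ, hτ, hτe⟩ := exists_hasDerivAt_eq_slope (sq u j)
    (fun s => - 2 * d j * (∫ x in (0:ℝ)..1, ux j s x ^ 2)
      + 2 * ∫ x in (0:ℝ)..1, u j s x ^ 2 * (m x - ∑ k, u k s x)) (show t - 1 < t by linarith)
    (fun s hs' => (hder s (hsub hs')).continuousAt.continuousWithinAt)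
    (fun s hs' => hder s (hsub (Ioo_subset_Icc_self hs')))
  have hτI : τ ∈ Icc (t - 1) t := Ioo_subset_Icc_self hτ
  have hτT : τ ∈ T := hsub hτI
  have hint : ∫ x in (0:ℝ)..1, u j τ x ^ 2 * (m x - ∑ k, u k τ x) ≤ B * sq u j τ := by
    rw [sq, ← intervalIntegral.integral_const_mul]
    have hcU : ContinuousOn (fun x => ∑ k, u k τ x) (Icc (0:ℝ) 1) :=
      continuousOn_finsetSum _ fun k _ => huc k τ hτT
    apply intervalIntegral.integral_mono_on zero_le_one
    · apply ContinuousOn.intervalIntegrable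
      rw [uIcc_of_le zero_le_one]
      exact ((huc j τ hτT).pow 2).mul (H.hm.sub hcU)
    · apply ContinuousOn.intervalIntegrable
      rw [uIcc_of_le zero_le_one]
      exact continuousOn_const.mul ((huc j τ hτT).pow 2)
    · intro x hx
      have h1 : m x ≤ B := (le_abs_self _).trans (H.hB x hx)
      have h2 : 0 ≤ ∑ k, u k τ x := Finset.sum_nonneg fun k _ => hs.nonneg k τ hτT x hx
      have h3 : u j τ x ^ 2 * (m x - ∑ k, u k τ x) ≤ u j τ x ^ 2 * B :=
        mul_le_mul_of_nonneg_left (by linarith) (sq_nonneg _)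
      linarith
  have hgrad : ∫ x in (0:ℝ)..1, ux j τ x ^ 2 ≤ (2 * B + 1) / d j * η ^ 2 := by
    have h1 : t - (t - 1) = 1 := by ring
    rw [h1, div_one] at hτe
    have h2 := hsq τ hτI
    have h3 := hsq (t - 1) ⟨le_rfl, by linarith⟩
    have h4 := hsq0 t
    have h5 : B * sq u j τ ≤ B * (2 * η ^ 2) := mul_le_mul_of_nonneg_left h2 hB0.le
    rw [div_mul_eq_mul_div, le_div_iff₀ hdj]
    nlinarith
  have hP : ∀ x ∈ Icc (0:ℝ) 1, u j τ x ≤ η * (1 + Real.sqrt ((2 * B + 1) / d j)) := by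
    intro x hx
    have h1 := sup_le (u j τ) (ux j τ) (hs.dx j τ hτT) (huxc j τ hτT) x hx
    have h2 : Real.sqrt (∫ z in (0:ℝ)..1, ux j τ z ^ 2) ≤ Real.sqrt ((2 * B + 1) / d j) * η := by
      calc Real.sqrt (∫ z in (0:ℝ)..1, ux j τ z ^ 2) ≤ Real.sqrt ((2 * B + 1) / d j * η ^ 2) :=
            Real.sqrt_le_sqrt hgrad
        _ = Real.sqrt ((2 * B + 1) / d j) * η := by
            rw [Real.sqrt_mul (by positivity), Real.sqrt_sq hη.le]
    have h3 := hmass τ hτI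
    rw [mass] at h3
    have h4 := (abs_le.1 h1).2
    linarith
  -- comparison on [τ, t]
  set P : ℝ := η * (1 + Real.sqrt ((2 * B + 1) / d j)) with hPdef
  have hP0 : 0 ≤ P := by positivity
  have hcmp := comparison τ t (d j) B hτ.2 hdj.le
    (fun s x => P * Real.exp (B * (s - τ)) - u j s x)
    (fun s x => P * (B * Real.exp (B * (s - τ))) - ut j s x)
    (fun s x => - ux j s x) (fun s x => - uxx j s x)
    (by
      have hsub' : Icc τ t ×ˢ Icc (0:ℝ) 1 ⊆ T ×ˢ Icc (0:ℝ) 1 :=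
        prod_mono (fun s hs' => hsub ⟨hτI.1.trans hs'.1, hs'.2⟩) le_rfl
      have h1 : ContinuousOn (fun p : ℝ × ℝ => P * Real.exp (B * (p.1 - τ)))
          (Icc τ t ×ˢ Icc (0:ℝ) 1) := by fun_prop
      exact h1.sub ((hs.c0 j).mono hsub'))
    (by
      intro s hs' x hx
      have hsT : s ∈ T := hsub ⟨hτI.1.trans hs'.1.le, hs'.2⟩
      refine HasDerivAt.sub ?_ (hs.dt j s hsT x hx)
      have h1 : HasDerivAt (fun s : ℝ => B * (s - τ)) B s := by
        simpa using ((hasDerivAt_id s).sub_const τ).const_mul B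
      have h2 := h1.exp.const_mul P
      have e : P * (Real.exp (B * (s - τ)) * B) = P * (B * Real.exp (B * (s - τ))) := by ring
      rw [e] at h2
      exact h2)
    (by
      intro s hs' x hx
      have hsT : s ∈ T := hsub ⟨hτI.1.trans hs'.1.le, hs'.2⟩
      exact (hs.dx j s hsT x hx).const_sub _)
    (by
      intro s hs' x hx
      have hsT : s ∈ T := hsub ⟨hτI.1.trans hs'.1.le, hs'.2⟩
      exact (hs.dxx j s hsT x hx).neg)
    (by
      intro s hs'
      have hsT : s ∈ T := hsub ⟨hτI.1.trans hs'.1.le, hs'.2⟩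
      show - ux j s 0 = 0
      rw [hs.bc0 j s hsT, neg_zero])
    (by
      intro s hs'
      have hsT : s ∈ T := hsub ⟨hτI.1.trans hs'.1.le, hs'.2⟩
      show - ux j s 1 = 0
      rw [hs.bc1 j s hsT, neg_zero])
    (by
      intro s hs' x hx _
      have hsT : s ∈ T := hsub ⟨hτI.1.trans hs'.1.le, hs'.2⟩
      show d j * (- uxx j s x) + B * (P * Real.exp (B * (s - τ)) - u j s x) ≤
        P * (B * Real.exp (B * (s - τ))) - ut j s x
      rw [hs.eq j s hsT x hx]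
      have h1 : m x ≤ B := (le_abs_self _).trans (H.hB x hx)
      have h2 : 0 ≤ ∑ k, u k s x := Finset.sum_nonneg fun k _ => hs.nonneg k s hsT x hx
      have h3 : u j s x * (m x - ∑ k, u k s x) ≤ u j s x * B :=
        mul_le_mul_of_nonneg_left (by linarith) (hs.nonneg j s hsT x hx)
      linarith)
    (by
      intro x hx
      show 0 ≤ P * Real.exp (B * (τ - τ)) - u j τ x
      rw [sub_self, mul_zero, Real.exp_zero, mul_one]
      linarith [hP x hx])
  intro x hx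
  have h1 := hcmp t ⟨hτ.2.le, le_rfl⟩ x hx
  have h2 : Real.exp (B * (t - τ)) ≤ Real.exp B := by
    apply Real.exp_le_exp.2
    have : t - τ ≤ 1 := by linarith [hτ.1]
    nlinarith
  have h3 : P * Real.exp (B * (t - τ)) ≤ P * Real.exp B := mul_le_mul_of_nonneg_left h2 hP0
  have h1' : 0 ≤ P * Real.exp (B * (t - τ)) - u j t x := h1
  linarith

/-- a species whose mass tends to zero tends to zero uniformly -/
theorem species_small {d : ι → ℝ} {m : ℝ → ℝ} {θ θ' θ'' : ι → ℝ → ℝ} {B c δ : ℝ}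
    (H : Data d m θ θ' θ'' B c δ) {T : Set ℝ} (hTo : IsOpen T)
    {u ut ux uxx : ι → ℝ → ℝ → ℝ}
    (hs : IsSol d m T u ut ux uxx) (hpos : ∀ j, ∀ t ∈ T, ∀ x ∈ Icc (0:ℝ) 1, 0 < u j t x)
    (l : Filter ℝ) (hl : l = atTop ∨ l = atBot) (hT : ∀ᶠ t in l, t ∈ T)
    (htame : ∀ᶠ t in l, Tame u B δ t) (j : ι) (hj : Tendsto (fun t => mass u j t) l (𝓝 0)) :
    ∀ ε > 0, ∀ᶠ t in l, ∀ x ∈ Icc (0:ℝ) 1, u j t x < ε := by
  intro ε hε
  set A : ℝ := (1 + Real.sqrt ((2 * B + 1) / d j)) * Real.exp B with hA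
  have hA0 : 0 < A := by positivity
  have hη : 0 < ε / (2 * A) := by positivity
  have hm : ∀ᶠ t in l, mass u j t ≤ ε / (2 * A) :=
    (hj.eventually (gt_mem_nhds hη)).mono fun t ht => le_of_lt ht
  filter_upwards [G1_window hl hT, G1_window hl htame, G1_window hl hm] with t h1 h2 h3 x hx
  have h4 := G1_step H hTo hs hpos j hη h1 h2 h3 x hx
  have h5 : ε / (2 * A) * (1 + Real.sqrt ((2 * B + 1) / d j)) * Real.exp B = ε / 2 := by
    rw [mul_assoc, ← hA]
    field_simp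
  rw [h5] at h4
  linarith

end Pool.Agent.Lib.MP_d8ef8f_an
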