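import Pool.Agent.Lib.MP_d8ef8f_an.Setup
import Pool.Agent.Lib.MP_d8ef8f_an.A5
import Pool.Agent.Lib.MP_d8ef8f_an.T1

namespace Pool.Agent.Lib.MP_d8ef8f_an

open Set Filter Topology MeasureTheory

variable {ι : Type} [Fintype ι] [LinearOrder ι]

/-- comparison of species `k` with multiples of its steady state on a short time interval -/
theorem species_compare {d : ι → ℝ} {m : ℝ → ℝ} {θ θ' θ'' : ι → ℝ → ℝ} {B c δ : ℝ}
    (H : Data d m θ θ' θ'' B c δ) {T : Set ℝ} {u ut ux uxx : ι → ℝ → ℝ → ℝ}
    (hs : IsSol d m T u ut ux uxx) (k : ι) (a b P Q η : ℝ) (hab : a ≤ b) (hsub : Icc a b ⊆ T)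
    (hP : 1 ≤ P) (hQ0 : 0 ≤ Q) (hQ : Q ≤ 1) (hη : 0 ≤ η)
    (hup : ∀ x ∈ Icc (0:ℝ) 1, u k a x ≤ P * θ k x) (hlow : ∀ x ∈ Icc (0:ℝ) 1, Q * θ k x ≤ u k a x)
    (hV : ∀ t ∈ Icc a b, ∀ x ∈ Icc (0:ℝ) 1,
      (∑ j ∈ Finset.univ.filter (fun j => j ≠ k), u j t x) ≤ η) :
    ∀ x ∈ Icc (0:ℝ) 1, u k b x ≤ P * θ k x ∧ Q * Real.exp (-η * (b - a)) * θ k x ≤ u k b x := by
  classical
  rcases eq_or_lt_of_le hab with hab' | hab'
  · intro x hx
    subst hab'
    simp only [sub_self, mul_zero, Real.exp_zero, mul_one]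
    exact ⟨hup x hx, hlow x hx⟩
  have hdk : 0 < d k := lt_of_lt_of_le (by have := H.hB0; linarith) (H.dB k)
  have hsplit : ∀ t x, ∑ i, u i t x = u k t x + ∑ j ∈ Finset.univ.filter (fun j => j ≠ k), u j t x := by
    intro t x
    rw [Finset.filter_ne']
    exact (Finset.add_sum_erase Finset.univ (fun j => u j t x) (Finset.mem_univ k)).symm
  have hVnn : ∀ t ∈ Icc a b, ∀ x ∈ Icc (0:ℝ) 1,
      0 ≤ ∑ j ∈ Finset.univ.filter (fun j => j ≠ k), u j t x := fun t ht x hx =>
    Finset.sum_nonneg (fun j _ => hs.nonneg j t (hsub ht) x hx)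
  have hst := H.st k
  have hθc : ContinuousOn (θ k) (Icc (0:ℝ) 1) := fun x hx => (hst.d1 x hx).continuousWithinAt
  have huc : ContinuousOn (fun p : ℝ × ℝ => u k p.1 p.2) (Icc a b ×ˢ Icc (0:ℝ) 1) :=
    (hs.c0 k).mono (prod_mono_left hsub)
  have hθc2 : ContinuousOn (fun p : ℝ × ℝ => θ k p.2) (Icc a b ×ˢ Icc (0:ℝ) 1) :=
    hθc.comp continuousOn_snd (fun p hp => hp.2)
  have hupper : ∀ t ∈ Icc a b, ∀ x ∈ Icc (0:ℝ) 1, 0 ≤ P * θ k x - u k t x := by
    apply comparison a b (d k) B hab' hdk.le (fun t x => P * θ k x - u k t x)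
      (fun t x => - ut k t x) (fun t x => P * θ' k x - ux k t x) (fun t x => P * θ'' k x - uxx k t x)
    · exact (continuousOn_const.mul hθc2).sub huc
    · intro t ht x hx
      have h1 := hs.dt k t (hsub ⟨ht.1.le, ht.2⟩) x hx
      have h2 := h1.const_sub (P * θ k x)
      exact h2
    · intro t ht x hx
      exact ((hst.d1 x hx).const_mul P).sub (hs.dx k t (hsub ⟨ht.1.le, ht.2⟩) x hx)
    · intro t ht x hx
      exact ((hst.d2 x hx).const_mul P).sub (hs.dxx k t (hsub ⟨ht.1.le, ht.2⟩) x hx)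
    · intro t ht
      rw [hst.bc0, hs.bc0 k t (hsub ⟨ht.1.le, ht.2⟩)]
      ring
    · intro t ht
      rw [hst.bc1, hs.bc1 k t (hsub ⟨ht.1.le, ht.2⟩)]
      ring
    · intro t ht x hx hw
      have hw' : P * θ k x - u k t x < 0 := hw
      have htI : t ∈ Icc a b := ⟨ht.1.le, ht.2⟩
      have e1 := hs.eq k t (hsub htI) x hx
      have e2 := hst.eq x hx
      have h1 := hVnn t htI x hx
      have h2 := hst.pos x hx
      have h3 := le_trans (le_abs_self _) (H.hB x hx)
      have h4 : 0 < u k t x := by nlinarith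
      rw [hsplit] at e1
      set V := ∑ j ∈ Finset.univ.filter (fun j => j ≠ k), u j t x
      have h5 : B * (P * θ k x - u k t x) ≤ m x * (P * θ k x - u k t x) := by nlinarith
      have h6 : P * θ k x ^ 2 ≤ u k t x * u k t x := by
        have h7' : P * θ k x ≤ u k t x := by linarith
        have h7'' : 0 ≤ P * θ k x := by positivity
        have h7 : (P * θ k x) * (P * θ k x) ≤ u k t x * u k t x :=
          mul_le_mul h7' h7' h7'' h4.le
        have h8 : P * θ k x ^ 2 ≤ (P * θ k x) * (P * θ k x) := by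
          have h8' : 0 ≤ P * θ k x ^ 2 := by positivity
          have h8'' := mul_le_mul_of_nonneg_right hP h8'
          calc P * θ k x ^ 2 = 1 * (P * θ k x ^ 2) := by ring
            _ ≤ P * (P * θ k x ^ 2) := h8''
            _ = (P * θ k x) * (P * θ k x) := by ring
        linarith
      have h9 : 0 ≤ u k t x * V := mul_nonneg h4.le h1
      have e3 : d k * (P * θ'' k x) = - P * (θ k x * (m x - θ k x)) := by
        have : d k * θ'' k x = - (θ k x * (m x - θ k x)) := by linarith
        calc d k * (P * θ'' k x) = P * (d k * θ'' k x) := by ring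
          _ = - P * (θ k x * (m x - θ k x)) := by rw [this]; ring
      calc d k * (P * θ'' k x - uxx k t x) + B * (P * θ k x - u k t x)
          = - P * (θ k x * (m x - θ k x)) - d k * uxx k t x + B * (P * θ k x - u k t x) := by
            rw [mul_sub, e3]
        _ ≤ - ut k t x := by
            rw [e1]
            nlinarith
    · intro x hx
      linarith [hup x hx]
  have hlower : ∀ t ∈ Icc a b, ∀ x ∈ Icc (0:ℝ) 1,
      0 ≤ u k t x - Q * Real.exp (-η * (t - a)) * θ k x := by
    have hed : ∀ t, HasDerivAt (fun s => Q * Real.exp (-η * (s - a)))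
        (-η * (Q * Real.exp (-η * (t - a)))) t := by
      intro t
      have h1 : HasDerivAt (fun s => -η * (s - a)) (-η) t := by
        simpa using ((hasDerivAt_id t).sub_const a).const_mul (-η)
      have h2 := (h1.exp).const_mul Q
      exact h2.congr_deriv (by ring)
    have hec : Continuous (fun s : ℝ => Q * Real.exp (-η * (s - a))) := by fun_prop
    apply comparison a b (d k) B hab' hdk.le (fun t x => u k t x - Q * Real.exp (-η * (t - a)) * θ k x)
      (fun t x => ut k t x - (-η * (Q * Real.exp (-η * (t - a)))) * θ k x)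
      (fun t x => ux k t x - Q * Real.exp (-η * (t - a)) * θ' k x)
      (fun t x => uxx k t x - Q * Real.exp (-η * (t - a)) * θ'' k x)
    · exact huc.sub (((hec.comp continuous_fst).continuousOn).mul hθc2)
    · intro t ht x hx
      exact (hs.dt k t (hsub ⟨ht.1.le, ht.2⟩) x hx).sub ((hed t).mul_const (θ k x))
    · intro t ht x hx
      exact (hs.dx k t (hsub ⟨ht.1.le, ht.2⟩) x hx).sub ((hst.d1 x hx).const_mul _)
    · intro t ht x hx
      exact (hs.dxx k t (hsub ⟨ht.1.le, ht.2⟩) x hx).sub ((hst.d2 x hx).const_mul _)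
    · intro t ht
      rw [hst.bc0, hs.bc0 k t (hsub ⟨ht.1.le, ht.2⟩)]
      ring
    · intro t ht
      rw [hst.bc1, hs.bc1 k t (hsub ⟨ht.1.le, ht.2⟩)]
      ring
    · intro t ht x hx hw
      have htI : t ∈ Icc a b := ⟨ht.1.le, ht.2⟩
      have e1 := hs.eq k t (hsub htI) x hx
      have e2 := hst.eq x hx
      have h1 := hVnn t htI x hx
      have h1' := hV t htI x hx
      have h2 := hst.pos x hx
      have h3 := le_trans (le_abs_self _) (H.hB x hx)
      have h4 : 0 ≤ u k t x := hs.nonneg k t (hsub htI) x hx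
      rw [hsplit] at e1
      set V := ∑ j ∈ Finset.univ.filter (fun j => j ≠ k), u j t x
      set E := Q * Real.exp (-η * (t - a)) with hE
      have hw' : u k t x - E * θ k x < 0 := hw
      have hexp1 : Real.exp (-η * (t - a)) ≤ 1 := by
        rw [Real.exp_le_one_iff]
        nlinarith [ht.1]
      have hE0 : 0 ≤ E := mul_nonneg hQ0 (Real.exp_pos _).le
      have hE1 : E ≤ 1 := by
        calc E ≤ 1 * 1 := mul_le_mul hQ hexp1 (Real.exp_pos _).le zero_le_one
          _ = 1 := one_mul 1
      set φ := E * θ k x with hφ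
      have hφ0 : 0 ≤ φ := mul_nonneg hE0 h2.le
      have hφθ : φ ≤ θ k x := by nlinarith
      have e3 : d k * (E * θ'' k x) = - φ * (m x - θ k x) := by
        have : d k * θ'' k x = - (θ k x * (m x - θ k x)) := by linarith
        calc d k * (E * θ'' k x) = E * (d k * θ'' k x) := by ring
          _ = - φ * (m x - θ k x) := by rw [this, hφ]; ring
      have h5 : φ * (m x - θ k x) ≤ φ * (m x - φ) :=
        mul_le_mul_of_nonneg_left (by linarith) hφ0
      have h6 : u k t x * (m x - (u k t x + η)) ≤ u k t x * (m x - (u k t x + V)) :=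
        mul_le_mul_of_nonneg_left (by linarith) h4
      have h7 : (u k t x - φ) * B ≤ (u k t x - φ) * (m x - (u k t x + φ) - η) :=
        mul_le_mul_of_nonpos_left (by linarith) hw'.le
      calc d k * (uxx k t x - E * θ'' k x) + B * (u k t x - φ)
          = d k * uxx k t x + φ * (m x - θ k x) + B * (u k t x - φ) := by
            rw [mul_sub, e3]; ring
        _ ≤ ut k t x - (-η * E) * θ k x := by
            rw [e1]
            have e4 : (-η * E) * θ k x = - η * φ := by rw [hφ]; ring
            rw [e4]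
            nlinarith
    · intro x hx
      simp only [sub_self, mul_zero, Real.exp_zero, mul_one]
      linarith [hlow x hx]
  intro x hx
  have hb : b ∈ Icc a b := ⟨hab, le_refl _⟩
  exact ⟨by linarith [hupper b hb x hx], by linarith [hlower b hb x hx]⟩

end Pool.Agent.Lib.MP_d8ef8f_an
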