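import Pool.Agent.Lib.MP_d8ef8f_an.S1
import Pool.Agent.Lib.MP_d8ef8f_an.T2

namespace Pool.Agent.Lib.MP_d8ef8f_an

open Set Filter Topology MeasureTheory

variable {ι : Type} [Fintype ι]

private theorem L2_sl {T : Set ℝ} {g : ℝ → ℝ → ℝ}
    (h : ContinuousOn (fun p : ℝ × ℝ => g p.1 p.2) (T ×ˢ Icc (0:ℝ) 1)) {t : ℝ} (ht : t ∈ T) :
    ContinuousOn (g t) (Icc (0:ℝ) 1) := by
  have h1 : Continuous fun x : ℝ => ((t, x) : ℝ × ℝ) := by fun_prop
  exact h.comp h1.continuousOn fun x hx => ⟨ht, hx⟩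

private theorem L2_int {f : ℝ → ℝ} (h : ContinuousOn f (Icc (0:ℝ) 1)) :
    IntervalIntegrable f volume 0 1 := h.intervalIntegrable_of_Icc zero_le_one

private theorem L2_congr {f g : ℝ → ℝ} (h : ∀ x ∈ Icc (0:ℝ) 1, f x = g x) :
    ∫ x in (0:ℝ)..1, f x = ∫ x in (0:ℝ)..1, g x := by
  apply intervalIntegral.integral_congr
  intro x hx
  rw [uIcc_of_le zero_le_one] at hx
  exact h x hx

private theorem L2_wgt_deriv {d : ℝ} {m θ θ' θ'' : ℝ → ℝ} (hθ : Steady d m θ θ' θ'') (α : ℝ) :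
    ∀ x ∈ Icc (0:ℝ) 1, HasDerivWithinAt (wgt θ α) (wgt θ α x * (α * (θ' x / θ x)))
      (Icc (0:ℝ) 1) x := by
  intro x hx
  have h1 := (hθ.d1 x hx).log (hθ.pos x hx).ne'
  have h2 := ((h1.const_mul α).const_add ((1 - α) * Real.log (θ 0))).exp
  exact h2

private theorem L2_wgt_deriv2 {d : ℝ} {m θ θ' θ'' : ℝ → ℝ} (hθ : Steady d m θ θ' θ'') (α : ℝ) :
    ∀ x ∈ Icc (0:ℝ) 1, HasDerivWithinAt (fun x => wgt θ α x * (α * (θ' x / θ x)))
      (wgt θ α x * (α * (θ' x / θ x)) * (α * (θ' x / θ x)) +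
        wgt θ α x * (α * (θ'' x / θ x - (θ' x / θ x) ^ 2))) (Icc (0:ℝ) 1) x := by
  intro x hx
  have hpos := hθ.pos x hx
  have h1 := ((hθ.d2 x hx).fun_div (hθ.d1 x hx) hpos.ne').const_mul α
  have h2 := (L2_wgt_deriv hθ α x hx).fun_mul h1
  refine h2.congr_deriv ?_
  field_simp

/-- derivative of the weighted mass of species `j`, weight `θ(0)^(1-α) θ^α`, `α = d_k/d_j` -/
theorem wmass_deriv {d : ι → ℝ} {m : ℝ → ℝ} {T : Set ℝ} {u ut ux uxx : ι → ℝ → ℝ → ℝ}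
    {θ θ' θ'' : ℝ → ℝ} (k j : ι) (hdk : 0 < d k) (hdj : 0 < d j)
    (hT : IsOpen T) (hm : ContinuousOn m (Icc (0:ℝ) 1)) (hs : IsSol d m T u ut ux uxx)
    (hθ : Steady (d k) m θ θ' θ'') :
    ∀ t ∈ T, HasDerivAt (fun s => ∫ x in (0:ℝ)..1, wgt θ (d k / d j) x * u j s x)
      (- d k * (1 - d k / d j) * (∫ x in (0:ℝ)..1, wgt θ (d k / d j) x * (θ' x / θ x) ^ 2 * u j t x)
      - ∫ x in (0:ℝ)..1, wgt θ (d k / d j) x * u j t x * ((∑ i, u i t x) - θ x)) t := by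
  intro t ht
  set α : ℝ := d k / d j with hα
  have hw1 := L2_wgt_deriv hθ α
  have hw2 := L2_wgt_deriv2 hθ α
  have hθc : ContinuousOn θ (Icc (0:ℝ) 1) := fun x hx => (hθ.d1 x hx).continuousWithinAt
  have hθ'c : ContinuousOn θ' (Icc (0:ℝ) 1) := fun x hx => (hθ.d2 x hx).continuousWithinAt
  have hwc : ContinuousOn (wgt θ α) (Icc (0:ℝ) 1) := fun x hx => (hw1 x hx).continuousWithinAt
  have hzc : ContinuousOn (fun x => θ' x / θ x) (Icc (0:ℝ) 1) :=
    hθ'c.div hθc fun x hx => (hθ.pos x hx).ne'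
  have hw1c : ContinuousOn (fun x => wgt θ α x * (α * (θ' x / θ x))) (Icc (0:ℝ) 1) :=
    hwc.mul (continuousOn_const.mul hzc)
  have hθ'' : ∀ x ∈ Icc (0:ℝ) 1, θ'' x / θ x = -((m x - θ x) / d k) := by
    intro x hx
    have h1 := hθ.eq x hx
    have h2 := hθ.pos x hx
    rw [div_eq_iff h2.ne']
    field_simp
    linarith
  have hw2c : ContinuousOn (fun x => wgt θ α x * (α * (θ' x / θ x)) * (α * (θ' x / θ x)) +
        wgt θ α x * (α * (θ'' x / θ x - (θ' x / θ x) ^ 2))) (Icc (0:ℝ) 1) := by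
    refine (hw1c.mul (continuousOn_const.mul hzc)).add (hwc.mul (continuousOn_const.mul
      (ContinuousOn.sub ?_ (hzc.pow 2))))
    exact (((hm.sub hθc).div_const (d k)).neg).congr hθ''
  have hu := L2_sl (hs.c0 j) ht
  have hut := L2_sl (hs.ct j) ht
  have hux := L2_sl (hs.cx j) ht
  have huxx := L2_sl (hs.cxx j) ht
  have hU : ContinuousOn (fun x => ∑ i, u i t x) (Icc (0:ℝ) 1) :=
    continuousOn_finsetSum _ fun i _ => L2_sl (hs.c0 i) ht
  -- the time derivative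
  have hc2 : ContinuousOn (fun p : ℝ × ℝ => wgt θ α p.2) (T ×ˢ Icc (0:ℝ) 1) :=
    hwc.comp continuous_snd.continuousOn fun p hp => hp.2
  have h1 := hasDerivAt_integral hT (fun t x => wgt θ α x * u j t x)
    (fun t x => wgt θ α x * ut j t x) (hc2.mul (hs.ct j))
    (fun t ht => hwc.mul (L2_sl (hs.c0 j) ht))
    (fun t ht x hx => (hs.dt j t ht x hx).const_mul _) t ht
  -- integration by parts twice
  have h2 := parts_neumann (wgt θ α) (fun x => wgt θ α x * (α * (θ' x / θ x))) (ux j t) (uxx j t)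
    hw1 hw1c (hs.dxx j t ht) huxx (hs.bc0 j t ht) (hs.bc1 j t ht)
  have h3 := parts_neumann (u j t) (ux j t) (fun x => wgt θ α x * (α * (θ' x / θ x)))
    (fun x => wgt θ α x * (α * (θ' x / θ x)) * (α * (θ' x / θ x)) +
        wgt θ α x * (α * (θ'' x / θ x - (θ' x / θ x) ^ 2)))
    (hs.dx j t ht) hux hw2 hw2c (by simp [hθ.bc0]) (by simp [hθ.bc1])
  have h4 : ∫ x in (0:ℝ)..1, wgt θ α x * uxx j t x = ∫ x in (0:ℝ)..1, u j t x *
      (wgt θ α x * (α * (θ' x / θ x)) * (α * (θ' x / θ x)) +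
        wgt θ α x * (α * (θ'' x / θ x - (θ' x / θ x) ^ 2))) := by
    rw [h2, h3]
    congr 1
    exact L2_congr fun x _ => by ring
  have i1 : IntervalIntegrable (fun x => wgt θ α x * uxx j t x) volume 0 1 :=
    L2_int (hwc.mul huxx)
  have i2 : IntervalIntegrable (fun x => wgt θ α x * u j t x * (m x - ∑ i, u i t x))
      volume 0 1 := L2_int ((hwc.mul hu).mul (hm.sub hU))
  have i3 : IntervalIntegrable (fun x => wgt θ α x * (θ' x / θ x) ^ 2 * u j t x) volume 0 1 :=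
    L2_int ((hwc.mul (hzc.pow 2)).mul hu)
  have i4 : IntervalIntegrable (fun x => wgt θ α x * u j t x * ((∑ i, u i t x) - θ x))
      volume 0 1 := L2_int ((hwc.mul hu).mul (hU.sub hθc))
  have i5 : IntervalIntegrable (fun x => u j t x *
      (wgt θ α x * (α * (θ' x / θ x)) * (α * (θ' x / θ x)) +
        wgt θ α x * (α * (θ'' x / θ x - (θ' x / θ x) ^ 2)))) volume 0 1 :=
    L2_int (hu.mul hw2c)
  have h5 : ∫ x in (0:ℝ)..1, wgt θ α x * ut j t x =
      d j * (∫ x in (0:ℝ)..1, wgt θ α x * uxx j t x) +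
        ∫ x in (0:ℝ)..1, wgt θ α x * u j t x * (m x - ∑ i, u i t x) := by
    rw [← intervalIntegral.integral_const_mul, ← intervalIntegral.integral_add
      (i1.const_mul _) i2]
    refine L2_congr fun x hx => ?_
    rw [hs.eq j t ht x hx]
    ring
  have h6 : - d k * (1 - α) * (∫ x in (0:ℝ)..1, wgt θ α x * (θ' x / θ x) ^ 2 * u j t x)
      - (∫ x in (0:ℝ)..1, wgt θ α x * u j t x * ((∑ i, u i t x) - θ x)) =
      ∫ x in (0:ℝ)..1, wgt θ α x * ut j t x := by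
    rw [h5, h4, ← intervalIntegral.integral_const_mul, ← intervalIntegral.integral_const_mul,
      ← intervalIntegral.integral_sub (i3.const_mul _) i4,
      ← intervalIntegral.integral_add (i5.const_mul _) i2]
    refine L2_congr fun x hx => ?_
    have h7 := hθ'' x hx
    simp only [h7, hα]
    field_simp
    ring
  rw [h6]
  exact h1

end Pool.Agent.Lib.MP_d8ef8f_an
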