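import Pool.Agent.Lib.MP_d8ef8f_an.L1
import Pool.Agent.Lib.MP_d8ef8f_an.L2

namespace Pool.Agent.Lib.MP_d8ef8f_an

open Set Filter Topology MeasureTheory

variable {ι : Type} [Fintype ι] [LinearOrder ι]

/-- `LamD` is the derivative of `Lam` -/
theorem lam_deriv {d : ι → ℝ} {m : ℝ → ℝ} {T : Set ℝ} {u ut ux uxx : ι → ℝ → ℝ → ℝ}
    {θ θ' θ'' : ℝ → ℝ} (k : ι) (hd : ∀ j, 0 < d j)
    (hT : IsOpen T) (hm : ContinuousOn m (Icc (0:ℝ) 1)) (hs : IsSol d m T u ut ux uxx)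
    (hpos : ∀ j, ∀ t ∈ T, ∀ x ∈ Icc (0:ℝ) 1, 0 < u j t x) (hθ : Steady (d k) m θ θ' θ'') :
    ∀ t ∈ T, HasDerivAt (fun s => Lam d θ k (fun j => u j s))
      (LamD d θ θ' k (fun j => u j t) (fun j => ux j t)) t := by
  intro t ht
  have h1 := ent_deriv k (hd k) hT hm hs hpos hθ t ht
  have h2 : HasDerivAt (fun s => ∑ j ∈ Finset.univ.filter (fun j => k < j),
      ∫ x in (0:ℝ)..1, wgt θ (d k / d j) x * u j s x)
      (∑ j ∈ Finset.univ.filter (fun j => k < j),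
        (- d k * (1 - d k / d j) * (∫ x in (0:ℝ)..1, wgt θ (d k / d j) x * (θ' x / θ x) ^ 2 * u j t x)
        - ∫ x in (0:ℝ)..1, wgt θ (d k / d j) x * u j t x * ((∑ i, u i t x) - θ x))) t :=
    HasDerivAt.fun_sum (fun j _ => wmass_deriv k j (hd k) (hd j) hT hm hs hθ t ht)
  exact h1.add h2

end Pool.Agent.Lib.MP_d8ef8f_an
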