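import Pool.Agent.Lib.MP_d8ef8f_an.A3

namespace Pool.Agent.Lib.MP_d8ef8f_an

open Set Filter Topology MeasureTheory

/-- Minkowski type bound: `∫ (∑ a_j v_j)² ≤ 2 (∑ a_j ∫ v_j)²` if `∫ v_j² ≤ 2 (∫ v_j)²` -/
theorem sq_sum_le {ι : Type} (s : Finset ι) (a : ι → ℝ) (ha : ∀ j ∈ s, 0 ≤ a j) (v : ι → ℝ → ℝ)
    (hv : ∀ j ∈ s, ContinuousOn (v j) (Icc (0:ℝ) 1))
    (hpos : ∀ j ∈ s, ∀ x ∈ Icc (0:ℝ) 1, 0 ≤ v j x)
    (hR : ∀ j ∈ s, (∫ x in (0:ℝ)..1, v j x ^ 2) ≤ 2 * (∫ x in (0:ℝ)..1, v j x) ^ 2) :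
    (∫ x in (0:ℝ)..1, (∑ j ∈ s, a j * v j x) ^ 2) ≤ 2 * (∑ j ∈ s, a j * ∫ x in (0:ℝ)..1, v j x) ^ 2 := by
  have hu : Icc (0:ℝ) 1 = uIcc (0:ℝ) 1 := (uIcc_of_le zero_le_one).symm
  have hm : ∀ j ∈ s, 0 ≤ ∫ x in (0:ℝ)..1, v j x := fun j hj =>
    intervalIntegral.integral_nonneg zero_le_one (hpos j hj)
  have hpair : ∀ i ∈ s, ∀ j ∈ s, (∫ x in (0:ℝ)..1, v i x * v j x) ≤
      2 * ((∫ x in (0:ℝ)..1, v i x) * ∫ x in (0:ℝ)..1, v j x) := by
    intro i hi j hj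
    have h1 := cauchy_schwarz (v i) (v j) (hv i hi) (hv j hj)
    have h2 := hR i hi
    have h3 := hR j hj
    have h4 := hm i hi
    have h5 := hm j hj
    have h6 : 0 ≤ ∫ x in (0:ℝ)..1, v j x ^ 2 :=
      intervalIntegral.integral_nonneg zero_le_one (fun x _ => sq_nonneg _)
    have h7 : (∫ x in (0:ℝ)..1, v i x * v j x) ^ 2 ≤
        (2 * ((∫ x in (0:ℝ)..1, v i x) * ∫ x in (0:ℝ)..1, v j x)) ^ 2 := by
      calc (∫ x in (0:ℝ)..1, v i x * v j x) ^ 2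
          ≤ (∫ x in (0:ℝ)..1, v i x ^ 2) * (∫ x in (0:ℝ)..1, v j x ^ 2) := h1
        _ ≤ (2 * (∫ x in (0:ℝ)..1, v i x) ^ 2) * (2 * (∫ x in (0:ℝ)..1, v j x) ^ 2) :=
            mul_le_mul h2 h3 h6 (by positivity)
        _ = (2 * ((∫ x in (0:ℝ)..1, v i x) * ∫ x in (0:ℝ)..1, v j x)) ^ 2 := by ring
    exact le_trans (le_abs_self _) (abs_le_of_sq_le_sq h7 (by positivity))
  have hint : ∀ i ∈ s, ∀ j ∈ s, IntervalIntegrable (fun x => a i * v i x * (a j * v j x)) volume 0 1 := by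
    intro i hi j hj
    exact (hu ▸ ((continuousOn_const.mul (hv i hi)).mul
      (continuousOn_const.mul (hv j hj)))).intervalIntegrable
  have e1 : (∫ x in (0:ℝ)..1, (∑ j ∈ s, a j * v j x) ^ 2) =
      ∑ i ∈ s, ∑ j ∈ s, a i * a j * ∫ x in (0:ℝ)..1, v i x * v j x := by
    have e2 : ∀ x, (∑ j ∈ s, a j * v j x) ^ 2 = ∑ i ∈ s, ∑ j ∈ s, a i * v i x * (a j * v j x) := by
      intro x
      rw [pow_two, Finset.sum_mul_sum]
    simp_rw [e2]
    rw [intervalIntegral.integral_finsetSum (fun i hi => (hu ▸ continuousOn_finsetSum s (fun j hj =>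
      ((continuousOn_const.mul (hv i hi)).mul
        (continuousOn_const.mul (hv j hj))))).intervalIntegrable)]
    apply Finset.sum_congr rfl
    intro i hi
    rw [intervalIntegral.integral_finsetSum (fun j hj => hint i hi j hj)]
    apply Finset.sum_congr rfl
    intro j hj
    rw [← intervalIntegral.integral_const_mul]
    apply intervalIntegral.integral_congr
    intro x _
    simp only
    ring
  rw [e1]
  calc ∑ i ∈ s, ∑ j ∈ s, a i * a j * ∫ x in (0:ℝ)..1, v i x * v j x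
      ≤ ∑ i ∈ s, ∑ j ∈ s, a i * a j *
        (2 * ((∫ x in (0:ℝ)..1, v i x) * ∫ x in (0:ℝ)..1, v j x)) := by
        apply Finset.sum_le_sum
        intro i hi
        apply Finset.sum_le_sum
        intro j hj
        exact mul_le_mul_of_nonneg_left (hpair i hi j hj) (mul_nonneg (ha i hi) (ha j hj))
    _ = 2 * (∑ j ∈ s, a j * ∫ x in (0:ℝ)..1, v j x) ^ 2 := by
        rw [pow_two, Finset.sum_mul_sum, Finset.mul_sum]
        apply Finset.sum_congr rfl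
        intro i _
        rw [Finset.mul_sum]
        apply Finset.sum_congr rfl
        intro j _
        ring

end Pool.Agent.Lib.MP_d8ef8f_an
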