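import Pool.Agent.Lib.MP_d8ef8f_an.L4
import Pool.Agent.Lib.MP_d8ef8f_an.L6

namespace Pool.Agent.Lib.MP_d8ef8f_an

open Set Filter Topology MeasureTheory

variable {ι : Type} [Fintype ι] [LinearOrder ι]

theorem L7_int {f : ℝ → ℝ} (hf : ContinuousOn f (Icc (0:ℝ) 1)) :
    IntervalIntegrable f volume 0 1 := by
  apply ContinuousOn.intervalIntegrable
  rwa [uIcc_of_le zero_le_one]

theorem L7_wgt {θ : ℝ → ℝ} (hθ : ContinuousOn θ (Icc (0:ℝ) 1))
    (hθpos : ∀ x ∈ Icc (0:ℝ) 1, 0 < θ x) (α : ℝ) : ContinuousOn (wgt θ α) (Icc (0:ℝ) 1) := by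
  unfold wgt
  apply Real.continuous_exp.comp_continuousOn
  apply ContinuousOn.add continuousOn_const
  apply ContinuousOn.mul continuousOn_const
  exact hθ.log (fun x hx => (hθpos x hx).ne')

/-- the sum over all species splits into the slower ones, the base species, the faster ones -/
theorem L7_split (k : ι) (f : ι → ℝ) :
    ∑ i, f i = (∑ j ∈ Finset.univ.filter (fun j => j < k), f j) + f k +
      ∑ j ∈ Finset.univ.filter (fun j => k < j), f j := by
  classical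
  have h1 := Finset.sum_filter_add_sum_filter_not (Finset.univ : Finset ι) (fun j => j < k) f
  have h2 : Finset.univ.filter (fun j : ι => ¬ j < k) =
      insert k (Finset.univ.filter (fun j => k < j)) := by
    ext j
    simp only [Finset.mem_filter, Finset.mem_univ, true_and, Finset.mem_insert, not_lt]
    rw [le_iff_eq_or_lt, eq_comm]
  rw [h2, Finset.sum_insert (by simp)] at h1
  rw [← h1]
  ring

/-- pointwise inequality -/
theorem L7_pt {t D V E : ℝ} (ht : 0 < t) :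
    -(t * (D - V) - E) * D ≤ - (1 / 2) * (t * D ^ 2) + t * V ^ 2 + E ^ 2 / t := by
  have h1 : E ^ 2 / t * t = E ^ 2 := div_mul_cancel₀ _ ht.ne'
  have h2 : 0 ≤ t * (D / 2 - V) ^ 2 := mul_nonneg ht.le (sq_nonneg _)
  have h3 : 0 ≤ t * (D / 2 - E / t) ^ 2 := mul_nonneg ht.le (sq_nonneg _)
  have h4 : t * (D / 2 - E / t) ^ 2 = t * D ^ 2 / 4 - E * D + E ^ 2 / t := by
    field_simp
    ring
  nlinarith

/-- the quadratic part of `LamD` -/
theorem quad_part {θ : ℝ → ℝ} {B dk : ℝ} (hB0 : 0 < B) (hdk : 4 * B ≤ dk)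
    (d : ι → ℝ) (k : ι) (hk : d k = dk) (hd : ∀ j, k < j → dk < d j)
    (hθ : ContinuousOn θ (Icc (0:ℝ) 1)) (hθpos : ∀ x ∈ Icc (0:ℝ) 1, 0 < θ x)
    (hθB : ∀ x ∈ Icc (0:ℝ) 1, θ x ≤ B)
    (hy : ∀ x ∈ Icc (0:ℝ) 1, |Real.log (θ x) - Real.log (θ 0)| ≤ 4 * B / dk)
    (v : ι → ℝ → ℝ) (hv : ∀ j, ContinuousOn (v j) (Icc (0:ℝ) 1))
    (hvpos : ∀ j, ∀ x ∈ Icc (0:ℝ) 1, 0 < v j x)
    (hS : ∑ j, (∫ x in (0:ℝ)..1, v j x) ≤ 2 * B)
    (hR : ∀ j, (∫ x in (0:ℝ)..1, v j x ^ 2) ≤ 2 * (∫ x in (0:ℝ)..1, v j x) ^ 2) :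
    - (∫ x in (0:ℝ)..1, θ x * (v k x - θ x) * ((∑ i, v i x) - θ x))
      - ∑ j ∈ Finset.univ.filter (fun j => k < j),
        (∫ x in (0:ℝ)..1, wgt θ (d k / d j) x * v j x * ((∑ i, v i x) - θ x))
    ≤ - (1 / 2) * (∫ x in (0:ℝ)..1, θ x * ((∑ i, v i x) - θ x) ^ 2)
      + 1728 * θ 0 * B ^ 3 / dk ^ 2 *
          (∑ j ∈ Finset.univ.filter (fun j => k < j), (1 - d k / d j) * ∫ x in (0:ℝ)..1, v j x)
      + 2 * B * (∑ j ∈ Finset.univ.filter (fun j => j < k), ∫ x in (0:ℝ)..1, v j x) ^ 2 := by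
  classical
  have hdk0 : 0 < dk := by linarith
  have h01 : (0:ℝ) ∈ Icc (0:ℝ) 1 := ⟨le_rfl, zero_le_one⟩
  have hθ0 : 0 < θ 0 := hθpos 0 h01
  have hτ1 : 4 * B / dk ≤ 1 := by rw [div_le_one hdk0]; exact hdk
  have hα : ∀ j ∈ Finset.univ.filter (fun j => k < j), 0 ≤ d k / d j ∧ d k / d j ≤ 1 := by
    intro j hj
    have h1 := hd j (Finset.mem_filter.mp hj).2
    rw [hk]
    have h2 : 0 < d j := hdk0.trans h1
    exact ⟨by positivity, by rw [div_le_one h2]; exact h1.le⟩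
  have hmass : ∀ j, 0 ≤ ∫ x in (0:ℝ)..1, v j x := by
    intro j
    apply intervalIntegral.integral_nonneg zero_le_one
    intro x hx
    exact (hvpos j x hx).le
  set A := Finset.univ.filter (fun j => k < j) with hA
  set L := Finset.univ.filter (fun j => j < k) with hL
  have hUc : ContinuousOn (fun x => (∑ i, v i x) - θ x) (Icc (0:ℝ) 1) :=
    (continuousOn_finsetSum _ (fun i _ => hv i)).sub hθ
  have hwc : ∀ j, ContinuousOn (wgt θ (d k / d j)) (Icc (0:ℝ) 1) := fun j => L7_wgt hθ hθpos _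
  have hVc : ContinuousOn (fun x => ∑ j ∈ L, 1 * v j x) (Icc (0:ℝ) 1) :=
    continuousOn_finsetSum _ (fun i _ => continuousOn_const.mul (hv i))
  have hPc : ContinuousOn (fun x => ∑ j ∈ A, (1 - d k / d j) * v j x) (Icc (0:ℝ) 1) :=
    continuousOn_finsetSum _ (fun i _ => continuousOn_const.mul (hv i))
  -- the left side as one integral
  have hleft : - (∫ x in (0:ℝ)..1, θ x * (v k x - θ x) * ((∑ i, v i x) - θ x))
      - ∑ j ∈ A, (∫ x in (0:ℝ)..1, wgt θ (d k / d j) x * v j x * ((∑ i, v i x) - θ x)) =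
      ∫ x in (0:ℝ)..1, (- (θ x * (v k x - θ x) * ((∑ i, v i x) - θ x)) -
        ∑ j ∈ A, wgt θ (d k / d j) x * v j x * ((∑ i, v i x) - θ x)) := by
    rw [intervalIntegral.integral_sub, intervalIntegral.integral_neg,
      intervalIntegral.integral_finsetSum]
    · intro j _
      exact L7_int (((hwc j).mul (hv j)).mul hUc)
    · exact L7_int (((hθ.mul ((hv k).sub hθ)).mul hUc).neg)
    · exact L7_int (continuousOn_finsetSum _ (fun j _ => ((hwc j).mul (hv j)).mul hUc))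
  have hC2 : 0 ≤ 432 * θ 0 * B ^ 2 / dk ^ 2 := by positivity
  -- pointwise bound
  have hpt : ∀ x ∈ Icc (0:ℝ) 1, (- (θ x * (v k x - θ x) * ((∑ i, v i x) - θ x)) -
        ∑ j ∈ A, wgt θ (d k / d j) x * v j x * ((∑ i, v i x) - θ x)) ≤
      - (1 / 2) * (θ x * ((∑ i, v i x) - θ x) ^ 2) + B * (∑ j ∈ L, 1 * v j x) ^ 2 +
        432 * θ 0 * B ^ 2 / dk ^ 2 * (∑ j ∈ A, (1 - d k / d j) * v j x) ^ 2 := by
    intro x hx
    have htx := hθpos x hx
    have hsplit := L7_split k (fun i => v i x)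
    rw [← hA, ← hL] at hsplit
    set U := ∑ i, v i x with hU
    set V := ∑ j ∈ L, v j x with hV
    set Z := ∑ j ∈ A, v j x with hZ
    set E := ∑ j ∈ A, (θ x - wgt θ (d k / d j) x) * v j x with hE
    have hE' : E = θ x * Z - ∑ j ∈ A, wgt θ (d k / d j) x * v j x := by
      rw [hE, hZ, Finset.mul_sum, ← Finset.sum_sub_distrib]
      apply Finset.sum_congr rfl
      intro j _
      ring
    have h1 : (- (θ x * (v k x - θ x) * (U - θ x)) -
        ∑ j ∈ A, wgt θ (d k / d j) x * v j x * (U - θ x)) =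
        -(θ x * ((U - θ x) - V) - E) * (U - θ x) := by
      rw [← Finset.sum_mul, hE']
      have h2 : v k x = U - V - Z := by
        rw [hsplit]; ring
      rw [h2]
      ring
    have h3 := L7_pt (D := U - θ x) (V := V) (E := E) htx
    have h4 : ∑ j ∈ L, 1 * v j x = V := by
      rw [hV]
      apply Finset.sum_congr rfl
      intro j _
      ring
    have h5 : θ x * V ^ 2 ≤ B * V ^ 2 := mul_le_mul_of_nonneg_right (hθB x hx) (sq_nonneg _)
    have hb : ∀ j ∈ A, _ := fun j hj =>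
      wgt_bounds (θ := θ) (x := x) (α := d k / d j) (τ := 4 * B / dk) hθ0 htx
        (hα j hj).1 (hα j hj).2 (hy x hx) hτ1
    have h6 : |E| ≤ 12 * θ 0 * B / dk * ∑ j ∈ A, (1 - d k / d j) * v j x := by
      rw [hE]
      refine (Finset.abs_sum_le_sum_abs _ _).trans ?_
      rw [Finset.mul_sum]
      apply Finset.sum_le_sum
      intro j hj
      rw [abs_mul, abs_of_pos (hvpos j x hx)]
      have h7 := (hb j hj).2.2.2
      have h8 := mul_le_mul_of_nonneg_right h7 (hvpos j x hx).le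
      refine h8.trans (le_of_eq ?_)
      ring
    have h9 : θ 0 / 3 ≤ θ x := by
      have h10 := wgt_bounds (θ := θ) (x := x) (α := 0) (τ := 4 * B / dk) hθ0 htx
        le_rfl zero_le_one (hy x hx) hτ1
      exact h10.2.2.1
    have h10 : E ^ 2 / θ x ≤
        432 * θ 0 * B ^ 2 / dk ^ 2 * (∑ j ∈ A, (1 - d k / d j) * v j x) ^ 2 := by
      set P := ∑ j ∈ A, (1 - d k / d j) * v j x with hP
      have h11 : E ^ 2 ≤ (12 * θ 0 * B / dk * P) ^ 2 := by
        rw [← sq_abs E]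
        exact pow_le_pow_left₀ (abs_nonneg _) h6 2
      rw [div_le_iff₀ htx]
      refine h11.trans ?_
      have h12 : 0 ≤ 432 * θ 0 * B ^ 2 / dk ^ 2 * P ^ 2 := mul_nonneg hC2 (sq_nonneg _)
      have h13 := mul_le_mul_of_nonneg_left h9 h12
      refine le_trans (le_of_eq ?_) h13
      ring
    rw [h1, h4]
    linarith
  have hint : (∫ x in (0:ℝ)..1, (- (θ x * (v k x - θ x) * ((∑ i, v i x) - θ x)) -
        ∑ j ∈ A, wgt θ (d k / d j) x * v j x * ((∑ i, v i x) - θ x))) ≤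
      ∫ x in (0:ℝ)..1, (- (1 / 2) * (θ x * ((∑ i, v i x) - θ x) ^ 2) +
        B * (∑ j ∈ L, 1 * v j x) ^ 2 +
        432 * θ 0 * B ^ 2 / dk ^ 2 * (∑ j ∈ A, (1 - d k / d j) * v j x) ^ 2) := by
    apply intervalIntegral.integral_mono_on zero_le_one
    · exact L7_int (((hθ.mul ((hv k).sub hθ)).mul hUc).neg.sub
        (continuousOn_finsetSum _ (fun j _ => ((hwc j).mul (hv j)).mul hUc)))
    · exact L7_int (((continuousOn_const.mul (hθ.mul (hUc.pow 2))).add
        (continuousOn_const.mul (hVc.pow 2))).add (continuousOn_const.mul (hPc.pow 2)))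
    · exact hpt
  have hright : (∫ x in (0:ℝ)..1, (- (1 / 2) * (θ x * ((∑ i, v i x) - θ x) ^ 2) +
        B * (∑ j ∈ L, 1 * v j x) ^ 2 +
        432 * θ 0 * B ^ 2 / dk ^ 2 * (∑ j ∈ A, (1 - d k / d j) * v j x) ^ 2)) =
      - (1 / 2) * (∫ x in (0:ℝ)..1, θ x * ((∑ i, v i x) - θ x) ^ 2) +
        B * (∫ x in (0:ℝ)..1, (∑ j ∈ L, 1 * v j x) ^ 2) +
        432 * θ 0 * B ^ 2 / dk ^ 2 *
          (∫ x in (0:ℝ)..1, (∑ j ∈ A, (1 - d k / d j) * v j x) ^ 2) := by
    rw [intervalIntegral.integral_add, intervalIntegral.integral_add,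
      intervalIntegral.integral_const_mul, intervalIntegral.integral_const_mul,
      intervalIntegral.integral_const_mul]
    · exact L7_int (continuousOn_const.mul (hθ.mul (hUc.pow 2)))
    · exact L7_int (continuousOn_const.mul (hVc.pow 2))
    · exact L7_int ((continuousOn_const.mul (hθ.mul (hUc.pow 2))).add
        (continuousOn_const.mul (hVc.pow 2)))
    · exact L7_int (continuousOn_const.mul (hPc.pow 2))
  have hV2 := sq_sum_le L (fun _ => (1:ℝ)) (fun _ _ => zero_le_one) v (fun j _ => hv j)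
    (fun j _ x hx => (hvpos j x hx).le) (fun j _ => hR j)
  have hP2 := sq_sum_le A (fun j => 1 - d k / d j)
    (fun j hj => by have := (hα j hj).2; linarith) v (fun j _ => hv j)
    (fun j _ x hx => (hvpos j x hx).le) (fun j _ => hR j)
  have hVs : ∑ j ∈ L, (1:ℝ) * ∫ x in (0:ℝ)..1, v j x = ∑ j ∈ L, ∫ x in (0:ℝ)..1, v j x := by
    apply Finset.sum_congr rfl
    intro j _
    ring
  rw [hVs] at hV2
  set Q := ∑ j ∈ A, (1 - d k / d j) * ∫ x in (0:ℝ)..1, v j x with hQ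
  have hQ0 : 0 ≤ Q := by
    apply Finset.sum_nonneg
    intro j hj
    exact mul_nonneg (by have := (hα j hj).2; linarith) (hmass j)
  have hQ1 : Q ≤ 2 * B := by
    refine le_trans ?_ hS
    refine le_trans (Finset.sum_le_sum (g := fun j => ∫ x in (0:ℝ)..1, v j x) ?_) ?_
    · intro j hj
      have h1 : 1 - d k / d j ≤ 1 := by have := (hα j hj).1; linarith
      have h2 := mul_le_mul_of_nonneg_right h1 (hmass j)
      linarith
    · exact Finset.sum_le_sum_of_subset_of_nonneg (Finset.filter_subset _ _)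
        (fun j _ _ => hmass j)
  have hQ2 : 2 * Q ^ 2 ≤ 4 * B * Q := by nlinarith
  rw [hleft]
  refine hint.trans ?_
  rw [hright]
  have h20 := mul_le_mul_of_nonneg_left hV2 hB0.le
  have h21 := mul_le_mul_of_nonneg_left (hP2.trans hQ2) hC2
  have h22 : 432 * θ 0 * B ^ 2 / dk ^ 2 * (4 * B * Q) = 1728 * θ 0 * B ^ 3 / dk ^ 2 * Q := by
    ring
  rw [h22] at h21
  have h23 : B * (2 * (∑ j ∈ L, ∫ x in (0:ℝ)..1, v j x) ^ 2) =
      2 * B * (∑ j ∈ L, ∫ x in (0:ℝ)..1, v j x) ^ 2 := by ring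
  rw [h23] at h20
  linarith

end Pool.Agent.Lib.MP_d8ef8f_an
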