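import Pool.Agent.Lib.MP_d8ef8f_an.L5
import Pool.Agent.Lib.MP_d8ef8f_an.L7

namespace Pool.Agent.Lib.MP_d8ef8f_an

open Set Filter Topology MeasureTheory

variable {ι : Type} [Fintype ι] [LinearOrder ι]

/-- the main inequality for a state `v` (with derivative `v'` of the base species) -/
theorem lamD_le {θ θ' : ℝ → ℝ} {B dk c δ : ℝ} (hB0 : 0 < B) (hdk : 4 * B ≤ dk) (hc : 0 < c)
    (hbig : 82944 * B ^ 3 ≤ c * dk)
    (d : ι → ℝ) (k : ι) (hk : d k = dk) (hd : ∀ j, k < j → dk < d j)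
    (hθ : ContinuousOn θ (Icc (0:ℝ) 1)) (hθpos : ∀ x ∈ Icc (0:ℝ) 1, 0 < θ x)
    (hθB : ∀ x ∈ Icc (0:ℝ) 1, θ x ≤ B)
    (hy : ∀ x ∈ Icc (0:ℝ) 1, |Real.log (θ x) - Real.log (θ 0)| ≤ 4 * B / dk)
    (hθ' : ContinuousOn θ' (Icc (0:ℝ) 1)) (hz : ∀ x ∈ Icc (0:ℝ) 1, |θ' x / θ x| ≤ 4 * B / dk)
    (hzl : c / (4 * dk ^ 2) ≤ ∫ x in (0:ℝ)..1, (θ' x / θ x) ^ 2)
    (hδ : 0 ≤ δ) (hδ1 : δ ≤ 1) (hδc : 128 * B ^ 2 * Real.sqrt δ ≤ c)
    (v v' : ι → ℝ → ℝ) (hv : ∀ j, ContinuousOn (v j) (Icc (0:ℝ) 1))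
    (hvpos : ∀ j, ∀ x ∈ Icc (0:ℝ) 1, 0 < v j x)
    (hS : ∑ j, (∫ x in (0:ℝ)..1, v j x) ≤ 2 * B)
    (hR : ∀ j, (∫ x in (0:ℝ)..1, v j x ^ 2) ≤ (1 + δ) * (∫ x in (0:ℝ)..1, v j x) ^ 2) :
    LamD d θ θ' k v v' ≤ - dk * gradDiss θ θ' (v k) (v' k)
      - (1 / 2) * (∫ x in (0:ℝ)..1, θ x * ((∑ i, v i x) - θ x) ^ 2)
      - θ 0 * c / (48 * dk) *
          (∑ j ∈ Finset.univ.filter (fun j => k < j), (1 - d k / d j) * ∫ x in (0:ℝ)..1, v j x)
      + 2 * B * (∑ j ∈ Finset.univ.filter (fun j => j < k), ∫ x in (0:ℝ)..1, v j x) ^ 2 := by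
  have hdk0 : 0 < dk := by linarith
  have hθ0 : 0 < θ 0 := hθpos 0 ⟨le_rfl, zero_le_one⟩
  have hquad := quad_part hB0 hdk d k hk hd hθ hθpos hθB hy v hv hvpos hS (fun j => by
    refine (hR j).trans ?_
    exact mul_le_mul_of_nonneg_right (by linarith) (sq_nonneg _))
  have hα : ∀ j, k < j → 0 ≤ d k / d j ∧ d k / d j ≤ 1 := by
    intro j hj
    have h1 := hd j hj
    rw [hk]
    have h2 : 0 < d j := hdk0.trans h1
    exact ⟨by positivity, by rw [div_le_one h2]; exact h1.le⟩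
  have hmass : ∀ j, 0 ≤ ∫ x in (0:ℝ)..1, v j x := by
    intro j
    apply intervalIntegral.integral_nonneg zero_le_one
    intro x hx
    exact (hvpos j x hx).le
  have hgood : ∀ j ∈ Finset.univ.filter (fun j => k < j),
      θ 0 * c / (24 * dk) * ((1 - d k / d j) * ∫ x in (0:ℝ)..1, v j x) ≤
      d k * (1 - d k / d j) *
        (∫ x in (0:ℝ)..1, wgt θ (d k / d j) x * (θ' x / θ x) ^ 2 * v j x) := by
    intro j hj
    have hj' := (Finset.mem_filter.mp hj).2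
    have h1 := good_term (θ := θ) (z := fun x => θ' x / θ x) (v := v j) (α := d k / d j) hB0 hdk hc
      hθ hθpos hy (hθ'.div hθ (fun x hx => (hθpos x hx).ne')) hz hzl hδ hδc (hα j hj').1
      (hα j hj').2 (hv j) (hvpos j) (hR j)
    have h2 : 0 ≤ d k * (1 - d k / d j) := by
      have := (hα j hj').2
      rw [hk] at this ⊢
      exact mul_nonneg hdk0.le (by linarith)
    have h3 := mul_le_mul_of_nonneg_left h1 h2
    refine le_trans (le_of_eq ?_) h3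
    rw [hk]
    field_simp
  have hsum := Finset.sum_le_sum hgood
  rw [← Finset.mul_sum] at hsum
  set Q := ∑ j ∈ Finset.univ.filter (fun j => k < j), (1 - d k / d j) * ∫ x in (0:ℝ)..1, v j x
    with hQ
  have hQ0 : 0 ≤ Q := by
    apply Finset.sum_nonneg
    intro j hj
    have := (hα j (Finset.mem_filter.mp hj).2).2
    exact mul_nonneg (by linarith) (hmass j)
  have hcoef : 1728 * θ 0 * B ^ 3 / dk ^ 2 ≤ θ 0 * c / (48 * dk) := by
    rw [div_le_div_iff₀ (by positivity) (by positivity)]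
    have h1 := mul_le_mul_of_nonneg_left hbig (show 0 ≤ θ 0 * dk by positivity)
    nlinarith
  have hcQ := mul_le_mul_of_nonneg_right hcoef hQ0
  have hhalf : θ 0 * c / (24 * dk) * Q = θ 0 * c / (48 * dk) * Q + θ 0 * c / (48 * dk) * Q := by
    field_simp
    ring
  unfold LamD
  have hsplit : (∑ j ∈ Finset.univ.filter (fun j => k < j),
      (- d k * (1 - d k / d j) * (∫ x in (0:ℝ)..1, wgt θ (d k / d j) x * (θ' x / θ x) ^ 2 * v j x)
        - ∫ x in (0:ℝ)..1, wgt θ (d k / d j) x * v j x * ((∑ i, v i x) - θ x))) =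
      -(∑ j ∈ Finset.univ.filter (fun j => k < j), d k * (1 - d k / d j) *
        (∫ x in (0:ℝ)..1, wgt θ (d k / d j) x * (θ' x / θ x) ^ 2 * v j x)) -
      ∑ j ∈ Finset.univ.filter (fun j => k < j),
        ∫ x in (0:ℝ)..1, wgt θ (d k / d j) x * v j x * ((∑ i, v i x) - θ x) := by
    rw [← Finset.sum_neg_distrib, ← Finset.sum_sub_distrib]
    apply Finset.sum_congr rfl
    intro j _
    ring
  rw [hsplit]
  have hkk : - d k * gradDiss θ θ' (v k) (v' k) = - dk * gradDiss θ θ' (v k) (v' k) := by rw [hk]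
  rw [hkk]
  linarith

end Pool.Agent.Lib.MP_d8ef8f_an
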