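import Pool.Agent.Lib.MP_d8ef8f_an.Defs
import Pool.Agent.Lib.MP_d8ef8f_an.T2

namespace Pool.Agent.Lib.MP_d8ef8f_an

open Set Filter Topology MeasureTheory

private theorem T3_ii {f : ℝ → ℝ} (hf : ContinuousOn f (Icc (0:ℝ) 1)) {a b : ℝ}
    (ha : a ∈ Icc (0:ℝ) 1) (hb : b ∈ Icc (0:ℝ) 1) : IntervalIntegrable f volume a b := by
  apply ContinuousOn.intervalIntegrable
  apply hf.mono
  intro x hx
  rw [mem_uIcc] at hx
  rcases hx with hx | hx
  · exact ⟨ha.1.trans hx.1, hx.2.trans hb.2⟩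
  · exact ⟨hb.1.trans hx.1, hx.2.trans ha.2⟩

private theorem T3_ii01 {f : ℝ → ℝ} (hf : ContinuousOn f (Icc (0:ℝ) 1)) :
    IntervalIntegrable f volume 0 1 :=
  T3_ii hf ⟨le_rfl, zero_le_one⟩ ⟨zero_le_one, le_rfl⟩

private theorem T3_deriv {m : ℝ → ℝ} (hm : ContinuousOn m (Icc (0:ℝ) 1)) {x : ℝ}
    (hx : x ∈ Icc (0:ℝ) 1) :
    HasDerivWithinAt (fun u => ∫ y in (0:ℝ)..u, m y) (m x) (Icc (0:ℝ) 1) x := by
  have : Fact (x ∈ Icc (0:ℝ) 1) := ⟨hx⟩
  apply intervalIntegral.integral_hasDerivWithinAt_right (T3_ii hm ⟨le_rfl, zero_le_one⟩ hx)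
  · exact ⟨Icc 0 1, self_mem_nhdsWithin, hm.aestronglyMeasurable measurableSet_Icc⟩
  · exact hm x hx

theorem theta_grad_lower {d B : ℝ} {m θ θ' θ'' : ℝ → ℝ} (hB0 : 0 < B) (hdB : 4 * B ≤ d)
    (hm : ContinuousOn m (Icc (0:ℝ) 1)) (h : Steady d m θ θ' θ'')
    (hB : ∀ x ∈ Icc (0:ℝ) 1, |m x| ≤ B) (hd2 : 6400 * B ^ 4 ≤ cF m * d ^ 2) :
    cF m / (4 * d ^ 2) ≤ ∫ x in (0:ℝ)..1, (θ' x / θ x) ^ 2 := by
  have hd : 0 < d := by linarith
  have hθc : ContinuousOn θ (Icc (0:ℝ) 1) := fun z hz => (h.d1 z hz).continuousWithinAt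
  have hθ'c : ContinuousOn θ' (Icc (0:ℝ) 1) := fun z hz => (h.d2 z hz).continuousWithinAt
  have hzc : ContinuousOn (fun x => θ' x / θ x) (Icc (0:ℝ) 1) :=
    hθ'c.div hθc (fun x hx => (h.pos x hx).ne')
  have hz := theta_logderiv hd hm h hB
  have hdir := theta_dirichlet hd hm h hB
  have hhar := theta_harnack hd hm h hB
  have hle := theta_le hd h hB
  set τ : ℝ := 4 * B / d with hτ
  have hτ0 : 0 < τ := by rw [hτ]; positivity
  have hτ1 : τ ≤ 1 := by rw [hτ, div_le_one hd]; exact hdB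
  set κ : ℝ := ∫ x in (0:ℝ)..1, θ x with hκ
  set mb : ℝ := ∫ x in (0:ℝ)..1, m x with hmb
  -- the square of z
  have hz2 : ∀ x ∈ Icc (0:ℝ) 1, (θ' x / θ x) ^ 2 ≤ τ ^ 2 := by
    intro x hx
    rw [← sq_abs]
    exact pow_le_pow_left₀ (abs_nonneg _) (hz x hx) 2
  have hz2c : ContinuousOn (fun x => (θ' x / θ x) ^ 2) (Icc (0:ℝ) 1) := hzc.pow 2
  have hint2 : ∫ x in (0:ℝ)..1, (θ' x / θ x) ^ 2 ≤ τ ^ 2 := by
    calc ∫ x in (0:ℝ)..1, (θ' x / θ x) ^ 2 ≤ ∫ _x in (0:ℝ)..1, τ ^ 2 :=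
          intervalIntegral.integral_mono_on zero_le_one (T3_ii01 hz2c)
            intervalIntegrable_const hz2
      _ = τ ^ 2 := by simp
  have hint2' : 0 ≤ ∫ x in (0:ℝ)..1, (θ' x / θ x) ^ 2 :=
    intervalIntegral.integral_nonneg zero_le_one (fun x _ => sq_nonneg _)
  have hdτ : d * τ ^ 2 = 16 * B ^ 2 / d := by
    rw [hτ]
    field_simp
    ring
  have hκm : κ - mb = d * ∫ x in (0:ℝ)..1, (θ' x / θ x) ^ 2 := by
    rw [hdir, intervalIntegral.integral_sub (T3_ii01 hθc) (T3_ii01 hm)]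
  have hκm1 : 0 ≤ κ - mb := by rw [hκm]; positivity
  have hκm2 : κ - mb ≤ 16 * B ^ 2 / d := by
    rw [hκm, ← hdτ]
    exact mul_le_mul_of_nonneg_left hint2 hd.le
  -- oscillation of theta
  have hexp : Real.exp τ - 1 ≤ 2 * τ := by
    have h1 := Real.abs_exp_sub_one_le (x := τ) (by rw [abs_of_pos hτ0]; exact hτ1)
    rw [abs_of_pos hτ0] at h1
    exact (le_abs_self _).trans h1
  have hosc : ∀ x ∈ Icc (0:ℝ) 1, ∀ y ∈ Icc (0:ℝ) 1, θ x - θ y ≤ 8 * B ^ 2 / d := by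
    intro x hx y hy
    have hpx := h.pos x hx
    have hpy := h.pos y hy
    have h1 : Real.log (θ x) ≤ Real.log (θ y) + τ := by
      have := (abs_le.1 (hhar x hx y hy)).2
      linarith
    have h2 : θ x ≤ θ y * Real.exp τ := by
      have h3 := Real.exp_le_exp.2 h1
      rw [Real.exp_log hpx, Real.exp_add, Real.exp_log hpy] at h3
      exact h3
    have h4 : θ y * (Real.exp τ - 1) ≤ B * (2 * τ) := by
      apply mul_le_mul (hle y hy) hexp _ hB0.le
      have := Real.add_one_le_exp τ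
      linarith
    have h5 : B * (2 * τ) = 8 * B ^ 2 / d := by
      rw [hτ]
      field_simp
      ring
    rw [← h5]
    nlinarith [h2, h4]
  have hoscκ : ∀ x ∈ Icc (0:ℝ) 1, |θ x - κ| ≤ 8 * B ^ 2 / d := by
    intro x hx
    have h1 : θ x - κ = ∫ y in (0:ℝ)..1, (θ x - θ y) := by
      rw [intervalIntegral.integral_sub intervalIntegrable_const (T3_ii01 hθc),
        intervalIntegral.integral_const]
      simp [hκ]
    rw [h1]
    have h2 : ‖∫ y in (0:ℝ)..1, (θ x - θ y)‖ ≤ 8 * B ^ 2 / d * |(1:ℝ) - 0| := by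
      apply intervalIntegral.norm_integral_le_of_norm_le_const
      intro y hy
      rw [Set.uIoc_of_le zero_le_one] at hy
      have hy' := Ioc_subset_Icc_self hy
      rw [Real.norm_eq_abs, abs_le]
      constructor
      · linarith [hosc y hy' x hx]
      · exact hosc x hx y hy'
    rw [Real.norm_eq_abs] at h2
    simpa using h2
  -- the remainder
  set F : ℝ → ℝ := fun x => x * mb - ∫ y in (0:ℝ)..x, m y with hF
  set r : ℝ → ℝ := fun x => d * (θ' x / θ x) - F x with hr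
  have hFder : ∀ x ∈ Icc (0:ℝ) 1, HasDerivWithinAt F (mb - m x) (Icc (0:ℝ) 1) x := by
    intro x hx
    have h1 : HasDerivWithinAt (fun x : ℝ => x * mb) (1 * mb) (Icc (0:ℝ) 1) x :=
      (hasDerivWithinAt_id x _).mul_const mb
    rw [one_mul] at h1
    exact h1.sub (T3_deriv hm hx)
  have hFc : ContinuousOn F (Icc (0:ℝ) 1) := fun x hx => (hFder x hx).continuousWithinAt
  have hrder : ∀ x ∈ Icc (0:ℝ) 1, HasDerivWithinAt r
      (θ x - mb - d * (θ' x / θ x) ^ 2) (Icc (0:ℝ) 1) x := by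
    intro x hx
    have hpx := h.pos x hx
    have h1 := ((h.d2 x hx).div (h.d1 x hx) hpx.ne').const_mul d
    have h2 := h1.sub (hFder x hx)
    refine h2.congr_deriv ?_
    have h3 := h.eq x hx
    have h4 : d * θ'' x = - (θ x * (m x - θ x)) := by linarith
    have h5 : d * ((θ'' x * θ x - θ' x * θ' x) / θ x ^ 2) =
        (d * θ'' x * θ x) / θ x ^ 2 - d * (θ' x / θ x) ^ 2 := by
      field_simp
    rw [h5, h4]
    field_simp
    ring
  have hrbound : ∀ x ∈ Icc (0:ℝ) 1, |r x| ≤ 40 * B ^ 2 / d := by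
    have h1 := norm_image_sub_le_of_norm_deriv_le_segment' (f := r)
      (f' := fun x => θ x - mb - d * (θ' x / θ x) ^ 2) (C := 40 * B ^ 2 / d) (a := 0) (b := 1)
      hrder (by
        intro x hx
        have hx' : x ∈ Icc (0:ℝ) 1 := Ico_subset_Icc_self hx
        have e1 := abs_le.1 (hoscκ x hx')
        have e2 : 0 ≤ d * (θ' x / θ x) ^ 2 := by positivity
        have e3 : d * (θ' x / θ x) ^ 2 ≤ 16 * B ^ 2 / d := by
          rw [← hdτ]
          exact mul_le_mul_of_nonneg_left (hz2 x hx') hd.le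
        have e4 : 40 * B ^ 2 / d = 8 * B ^ 2 / d + 16 * B ^ 2 / d + 16 * B ^ 2 / d := by ring
        have e5 : 0 ≤ 8 * B ^ 2 / d := by positivity
        have e6 : 0 ≤ 16 * B ^ 2 / d := by positivity
        rw [Real.norm_eq_abs, abs_le, e4]
        constructor
        · linarith [e1.1]
        · linarith [e1.2])
    intro x hx
    have h2 := h1 x hx
    have h3 : r 0 = 0 := by
      simp only [hr, hF, h.bc0]
      simp
    rw [h3, sub_zero, Real.norm_eq_abs, sub_zero] at h2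
    refine h2.trans ?_
    have : 0 ≤ 40 * B ^ 2 / d := by positivity
    nlinarith [hx.1, hx.2]
  -- the final estimate
  have hcF : cF m = ∫ x in (0:ℝ)..1, F x ^ 2 := rfl
  have hFi : IntervalIntegrable (fun x => F x ^ 2 / 2) volume 0 1 :=
    (T3_ii01 (hFc.pow 2)).div_const 2
  have hmain : cF m / 2 - (40 * B ^ 2 / d) ^ 2 ≤ ∫ x in (0:ℝ)..1, (d * (θ' x / θ x)) ^ 2 := by
    have h1 : cF m / 2 - (40 * B ^ 2 / d) ^ 2 =
        ∫ x in (0:ℝ)..1, (F x ^ 2 / 2 - (40 * B ^ 2 / d) ^ 2) := by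
      rw [intervalIntegral.integral_sub hFi
        intervalIntegrable_const, intervalIntegral.integral_div, hcF]
      simp
    rw [h1]
    apply intervalIntegral.integral_mono_on zero_le_one
    · exact hFi.sub intervalIntegrable_const
    · exact T3_ii01 ((hzc.const_mul d).pow 2)
    intro x hx
    have h2 : r x ^ 2 ≤ (40 * B ^ 2 / d) ^ 2 := by
      rw [← sq_abs]
      exact pow_le_pow_left₀ (abs_nonneg _) (hrbound x hx) 2
    have h3 : d * (θ' x / θ x) = F x + r x := by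
      simp only [hr]
      ring
    rw [h3]
    nlinarith [sq_nonneg (F x + 2 * r x)]
  have hpull : ∫ x in (0:ℝ)..1, (d * (θ' x / θ x)) ^ 2 =
      d ^ 2 * ∫ x in (0:ℝ)..1, (θ' x / θ x) ^ 2 := by
    rw [← intervalIntegral.integral_const_mul]
    apply intervalIntegral.integral_congr
    intro x _
    simp only
    ring
  rw [hpull] at hmain
  have hsmall : (40 * B ^ 2 / d) ^ 2 ≤ cF m / 4 := by
    rw [div_pow, div_le_iff₀ (by positivity)]
    nlinarith [hd2]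
  rw [div_le_iff₀ (by positivity)]
  nlinarith [hmain, hsmall]

end Pool.Agent.Lib.MP_d8ef8f_an
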