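import Pool.Agent.Lib.MP_d8ef8f_an.Setup
import Pool.Agent.Lib.MP_d8ef8f_an.L3
import Pool.Agent.Lib.MP_d8ef8f_an.L8
import Pool.Agent.Lib.MP_d8ef8f_an.C1
import Pool.Agent.Lib.MP_d8ef8f_an.C2
import Pool.Agent.Lib.MP_d8ef8f_an.T3
import Pool.Agent.Lib.MP_d8ef8f_an.S3

namespace Pool.Agent.Lib.MP_d8ef8f_an

open Set Filter Topology MeasureTheory

variable {ι : Type} [Fintype ι] [LinearOrder ι]

/-- the main inequality along a solution at a tame time -/
theorem lamD_le_sol {d : ι → ℝ} {m : ℝ → ℝ} {θ θ' θ'' : ι → ℝ → ℝ} {B c δ : ℝ}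
    (H : Data d m θ θ' θ'' B c δ) {T : Set ℝ} {u ut ux uxx : ι → ℝ → ℝ → ℝ}
    (hs : IsSol d m T u ut ux uxx) (hpos : ∀ j, ∀ t ∈ T, ∀ x ∈ Icc (0:ℝ) 1, 0 < u j t x)
    (k : ι) (t : ℝ) (ht : t ∈ T) (htame : Tame u B δ t) :
    LamD d (θ k) (θ' k) k (fun j => u j t) (fun j => ux j t) ≤
      - d k * gradDiss (θ k) (θ' k) (u k t) (ux k t)
      - (1 / 2) * (∫ x in (0:ℝ)..1, θ k x * ((∑ i, u i t x) - θ k x) ^ 2)
      - θ k 0 * c / (48 * d k) *
          (∑ j ∈ Finset.univ.filter (fun j => k < j), (1 - d k / d j) * mass u j t)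
      + 2 * B * (∑ j ∈ Finset.univ.filter (fun j => j < k), mass u j t) ^ 2 := by
  have hdk : 0 < d k := lt_of_lt_of_le (by have := H.hB0; positivity) (H.dB k)
  have hst := H.st k
  have hθc : ContinuousOn (θ k) (Icc (0:ℝ) 1) := fun x hx => (hst.d1 x hx).continuousWithinAt
  have hθ'c : ContinuousOn (θ' k) (Icc (0:ℝ) 1) := fun x hx => (hst.d2 x hx).continuousWithinAt
  have h0 : (0:ℝ) ∈ Icc (0:ℝ) 1 := by simp
  have hgl := theta_grad_lower (d := d k) H.hB0 (H.dB k) H.hm hst H.hB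
    (by rw [← H.hcF]; exact H.dc2 k)
  have hvc : ∀ j, ContinuousOn (u j t) (Icc (0:ℝ) 1) := by
    intro j
    have h := hs.c0 j
    have h2 : ContinuousOn (fun x : ℝ => ((t, x) : ℝ × ℝ)) (Icc (0:ℝ) 1) := by fun_prop
    exact h.comp h2 (fun x hx => ⟨ht, hx⟩)
  refine lamD_le (B := B) (dk := d k) (c := c) (δ := δ) H.hB0 (H.dB k) H.hc (H.dc k) d k rfl
    (fun j hj => H.mono hj) hθc hst.pos (theta_le hdk hst H.hB)
    (fun x hx => theta_harnack hdk H.hm hst H.hB x hx 0 h0) hθ'c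
    (theta_logderiv hdk H.hm hst H.hB) (by rw [H.hcF]; exact hgl) H.hδ.le H.hδ1 H.hδc
    (fun j => u j t) (fun j => ux j t) hvc (fun j x hx => hpos j t ht x hx) htame.1 ?_
  intro j
  have hm0 := (one_le_rat hs hpos j t ht).1
  have hr := htame.2 j
  unfold rat at hr
  rw [div_le_iff₀ (by positivity)] at hr
  exact hr

private theorem H1_eta {d : ι → ℝ} (hd : ∀ j, 0 < d j) (hmono : StrictMono d) (k : ι) :
    ∃ η > 0, ∀ j, k < j → η ≤ 1 - d k / d j := by
  by_cases hS : (Finset.univ.filter (fun j => k < j)).Nonempty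
  · obtain ⟨j0, hj0, hmin⟩ := Finset.exists_min_image (Finset.univ.filter (fun j => k < j))
      (fun j => 1 - d k / d j) hS
    refine ⟨1 - d k / d j0, ?_, ?_⟩
    · have hlt : d k < d j0 := hmono (Finset.mem_filter.1 hj0).2
      have : d k / d j0 < 1 := (div_lt_one (hd j0)).2 hlt
      show 0 < 1 - d k / d j0
      linarith
    · intro j hj
      exact hmin j (Finset.mem_filter.2 ⟨Finset.mem_univ _, hj⟩)
  · refine ⟨1, one_pos, ?_⟩
    intro j hj
    exact absurd ⟨j, Finset.mem_filter.2 ⟨Finset.mem_univ _, hj⟩⟩ hS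

/-- condition (H) along a filter: if the slower species die out then `Lam` decreases at a definite
rate as long as it is not small -/
theorem lam_decay {d : ι → ℝ} {m : ℝ → ℝ} {θ θ' θ'' : ι → ℝ → ℝ} {B c δ : ℝ}
    (H : Data d m θ θ' θ'' B c δ) {T : Set ℝ} {u ut ux uxx : ι → ℝ → ℝ → ℝ}
    (hs : IsSol d m T u ut ux uxx) (hpos : ∀ j, ∀ t ∈ T, ∀ x ∈ Icc (0:ℝ) 1, 0 < u j t x)
    (k : ι) (l : Filter ℝ) (hT : ∀ᶠ t in l, t ∈ T) (htame : ∀ᶠ t in l, Tame u B δ t)
    (hsm : Tendsto (fun t => ∑ j ∈ Finset.univ.filter (fun j => j < k), mass u j t) l (𝓝 0)) :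
    ∀ ε > 0, ∃ φ > 0, ∀ᶠ t in l, ε ≤ Lam d (θ k) k (fun j => u j t) →
      LamD d (θ k) (θ' k) k (fun j => u j t) (fun j => ux j t) ≤ -φ := by
  intro ε hε
  have hB0 := H.hB0
  have hdpos : ∀ j, 0 < d j := fun j => lt_of_lt_of_le (by positivity) (H.dB j)
  have hdk : 0 < d k := hdpos k
  have hst := H.st k
  have hθc : ContinuousOn (θ k) (Icc (0:ℝ) 1) := fun x hx => (hst.d1 x hx).continuousWithinAt
  have hθ'c : ContinuousOn (θ' k) (Icc (0:ℝ) 1) := fun x hx => (hst.d2 x hx).continuousWithinAt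
  have h0 : (0:ℝ) ∈ Icc (0:ℝ) 1 := by simp
  have hc := H.hc
  have hθ0 : 0 < θ k 0 := hst.pos 0 h0
  obtain ⟨φ1, hφ1, hsmall⟩ := lam_small (θ := θ k) (B := B) (dk := d k) hB0 (H.dB k) d k rfl
    (fun j hj => H.mono hj) hθc hst.pos (theta_le hdk hst H.hB)
    (fun x hx => theta_harnack hdk H.hm hst H.hB x hx 0 h0) ε hε
  obtain ⟨φ2, hφ2, hcoer⟩ := coercive (ι := ι) (θ := θ k) (θ' := θ' k) (dk := d k) hdk
    hst.d1 hθ'c hst.pos φ1 hφ1
  obtain ⟨η, hη, hηle⟩ := H1_eta hdpos H.mono k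
  set φ0 := min φ1 φ2 / 2 with hφ0def
  have hφ0 : 0 < φ0 := by
    have : 0 < min φ1 φ2 := lt_min hφ1 hφ2
    positivity
  have hφ01 : φ0 ≤ φ1 := by
    have : min φ1 φ2 ≤ φ1 := min_le_left _ _
    have h' : 0 < min φ1 φ2 := lt_min hφ1 hφ2
    rw [hφ0def]; linarith
  have hφ02 : φ0 + φ0 ≤ φ2 := by
    have : min φ1 φ2 ≤ φ2 := min_le_right _ _
    rw [hφ0def]; linarith
  set K := θ k 0 * c / (48 * d k) with hK
  have hKpos : 0 < K := by positivity
  set φ := min (φ2 / 2) (K * η * φ0) / 2 with hφdef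
  have hφ : 0 < φ := by
    have : 0 < min (φ2 / 2) (K * η * φ0) := lt_min (by positivity) (by positivity)
    positivity
  have hφa : 2 * φ ≤ φ2 / 2 := by
    have : min (φ2 / 2) (K * η * φ0) ≤ φ2 / 2 := min_le_left _ _
    rw [hφdef]; linarith
  have hφb : 2 * φ ≤ K * η * φ0 := by
    have : min (φ2 / 2) (K * η * φ0) ≤ K * η * φ0 := min_le_right _ _
    rw [hφdef]; linarith
  refine ⟨φ, hφ, ?_⟩
  have e1 : ∀ᶠ t in l, (∑ j ∈ Finset.univ.filter (fun j => j < k), mass u j t) < φ0 :=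
    hsm.eventually_lt_const hφ0
  have e2 : ∀ᶠ t in l,
      2 * B * (∑ j ∈ Finset.univ.filter (fun j => j < k), mass u j t) ^ 2 < φ := by
    have : Tendsto (fun t => 2 * B *
        (∑ j ∈ Finset.univ.filter (fun j => j < k), mass u j t) ^ 2) l (𝓝 (2 * B * 0 ^ 2)) :=
      (hsm.pow 2).const_mul _
    refine this.eventually_lt_const ?_
    simpa using hφ
  filter_upwards [hT, htame, e1, e2] with t ht htm h1 h2 hLam
  have hmain := lamD_le_sol H hs hpos k t ht htm
  have hmass : ∀ j, 0 < mass u j t := fun j => (one_le_rat hs hpos j t ht).1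
  have hvc : ∀ j, ContinuousOn (u j t) (Icc (0:ℝ) 1) := by
    intro j
    have h := hs.c0 j
    have h2 : ContinuousOn (fun x : ℝ => ((t, x) : ℝ × ℝ)) (Icc (0:ℝ) 1) := by fun_prop
    exact h.comp h2 (fun x hx => ⟨ht, hx⟩)
  have hxc : ContinuousOn (ux k t) (Icc (0:ℝ) 1) := by
    have h := hs.cx k
    have h2 : ContinuousOn (fun x : ℝ => ((t, x) : ℝ × ℝ)) (Icc (0:ℝ) 1) := by fun_prop
    exact h.comp h2 (fun x hx => ⟨ht, hx⟩)
  set A := gradDiss (θ k) (θ' k) (u k t) (ux k t) with hA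
  set E := ∫ x in (0:ℝ)..1, θ k x * ((∑ i, u i t x) - θ k x) ^ 2 with hE
  set F := ∑ j ∈ Finset.univ.filter (fun j => k < j), (1 - d k / d j) * mass u j t with hF
  have hA0 : 0 ≤ A := by
    rw [hA]; unfold gradDiss
    exact intervalIntegral.integral_nonneg zero_le_one (fun x _ => by positivity)
  have hE0 : 0 ≤ E := by
    rw [hE]
    exact intervalIntegral.integral_nonneg zero_le_one
      (fun x hx => mul_nonneg (hst.pos x hx).le (sq_nonneg _))
  have hF1 : η * (∑ j ∈ Finset.univ.filter (fun j => k < j), mass u j t) ≤ F := by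
    rw [Finset.mul_sum]
    apply Finset.sum_le_sum
    intro j hj
    exact mul_le_mul_of_nonneg_right (hηle j (Finset.mem_filter.1 hj).2) (hmass j).le
  have hF0 : 0 ≤ F := by
    refine le_trans ?_ hF1
    exact mul_nonneg hη.le (Finset.sum_nonneg (fun j _ => (hmass j).le))
  have hdA0 : 0 ≤ d k * A := mul_nonneg hdk.le hA0
  have hKF0 : 0 ≤ K * F := mul_nonneg hKpos.le hF0
  -- the key alternative
  have hkey : φ2 < d k * A ∨ φ2 < E ∨ η * φ0 < F := by
    by_contra hcon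
    push Not at hcon
    obtain ⟨c1, c2, c3⟩ := hcon
    have hfast : (∑ j ∈ Finset.univ.filter (fun j => k < j), mass u j t) ≤ φ0 := by
      have : η * (∑ j ∈ Finset.univ.filter (fun j => k < j), mass u j t) ≤ η * φ0 :=
        hF1.trans c3
      exact le_of_mul_le_mul_left this hη
    have hsplit : (∑ j ∈ Finset.univ.filter (fun j => j ≠ k), mass u j t) =
        (∑ j ∈ Finset.univ.filter (fun j => j < k), mass u j t) +
        (∑ j ∈ Finset.univ.filter (fun j => k < j), mass u j t) := by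
      rw [← Finset.sum_union]
      · congr 1
        ext j
        simp only [Finset.mem_filter, Finset.mem_univ, true_and, Finset.mem_union]
        exact ne_iff_lt_or_gt
      · rw [Finset.disjoint_filter]
        intro j _ h1 h2
        exact absurd (h1.trans h2) (lt_irrefl _)
    have hall : (∑ j ∈ Finset.univ.filter (fun j => j ≠ k), mass u j t) ≤ φ2 := by
      rw [hsplit]; linarith
    have hco := hcoer k (fun j => u j t) (fun j => ux j t) hvc
      (fun j x hx => hpos j t ht x hx) (hs.dx k t ht) hxc c1 c2 hall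
    have hlt := hsmall (fun j => u j t) hvc (fun j x hx => hpos j t ht x hx) hco
      (hfast.trans hφ01)
    exact absurd hLam (not_le.2 hlt)
  rcases hkey with hk | hk | hk
  · nlinarith [hmain]
  · nlinarith [hmain]
  · have : K * (η * φ0) ≤ K * F := mul_le_mul_of_nonneg_left hk.le hKpos.le
    nlinarith [hmain]

end Pool.Agent.Lib.MP_d8ef8f_an
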