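import Pool.Agent.Lib.MP_d8ef8f_an.Defs

namespace Pool.Agent.Lib.MP_d8ef8f_an

open Set Filter Topology MeasureTheory

/-- if `L' ≤ -φ` whenever `ε ≤ L` on `(s, t)` and `L s ≤ ε`, then `L t ≤ ε` -/
theorem o4_barrier (L L' : ℝ → ℝ) (ε s t : ℝ) (hst : s ≤ t)
    (hd : ∀ r, s ≤ r → r ≤ t → HasDerivAt L (L' r) r) (h : ∀ r, s ≤ r → r ≤ t → ε ≤ L r → L' r < 0)
    (hs : L s ≤ ε) : L t ≤ ε := by
  have hc : ContinuousOn L (Icc s t) := fun r hr => (hd r hr.1 hr.2).continuousAt.continuousWithinAt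
  have := image_le_of_liminf_slope_right_lt_deriv_boundary' (f := L) (f' := L') (a := s) (b := t) hc
    (fun x hx r hr => ((hd x hx.1 hx.2.le).hasDerivWithinAt).liminf_right_slope_le hr) (B := fun _ => ε)
    (B' := fun _ => 0) hs continuousOn_const (fun x _ => hasDerivWithinAt_const x _ ε)
    (fun x hx hxe => h x hx.1 hx.2.le hxe.ge)
  exact this ⟨hst, le_refl _⟩

/-- linear decay as long as `ε ≤ L` -/
theorem o4_decay (L L' : ℝ → ℝ) (φ s t : ℝ) (hst : s ≤ t)
    (hd : ∀ r, s ≤ r → r ≤ t → HasDerivAt L (L' r) r) (h : ∀ r, s ≤ r → r ≤ t → L' r ≤ -φ) :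
    L t ≤ L s - φ * (t - s) := by
  have hc : ContinuousOn L (Icc s t) := fun r hr => (hd r hr.1 hr.2).continuousAt.continuousWithinAt
  have h1 := Convex.image_sub_le_mul_sub_of_deriv_le (convex_Icc s t) hc
    (fun r hr => by
      rw [interior_Icc] at hr
      exact (hd r hr.1.le hr.2.le).differentiableAt.differentiableWithinAt) (C := -φ)
    (fun r hr => by
      rw [interior_Icc] at hr
      rw [(hd r hr.1.le hr.2.le).deriv]
      exact h r hr.1.le hr.2.le) s ⟨le_refl _, hst⟩ t ⟨hst, le_refl _⟩ hst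
  linarith

theorem lyap_forward (L L' : ℝ → ℝ) (a : ℝ) (hd : ∀ t > a, HasDerivAt L (L' t) t)
    (h0 : ∀ t > a, 0 ≤ L t)
    (h : ∀ ε > 0, ∃ φ > 0, ∀ᶠ t in atTop, ε ≤ L t → L' t ≤ -φ) : Tendsto L atTop (𝓝 0) := by
  rw [Metric.tendsto_atTop]
  intro ε hε
  obtain ⟨φ, hφ, hev⟩ := h (ε / 2) (by positivity)
  obtain ⟨T, hT⟩ := eventually_atTop.mp hev
  set T1 := max T (a + 1) with hT1
  have ha : ∀ t, T1 ≤ t → a < t := fun t ht => by
    have := le_max_right T (a + 1)
    linarith
  have hTT : ∀ t, T1 ≤ t → T ≤ t := fun t ht => le_trans (le_max_left _ _) ht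
  obtain ⟨t1, ht1, hlt⟩ : ∃ t1, T1 ≤ t1 ∧ L t1 < ε / 2 := by
    by_contra hcon
    push Not at hcon
    have hT1a : a < T1 := ha T1 (le_refl _)
    set t2 := T1 + (L T1 + 1) / φ with ht2
    have hLT : 0 ≤ L T1 := h0 T1 hT1a
    have ht2' : T1 ≤ t2 := by
      have : 0 ≤ (L T1 + 1) / φ := by positivity
      linarith
    have h1 := o4_decay L L' φ T1 t2 ht2' (fun r hr _ => hd r (ha r hr))
      (fun r hr _ => hT r (hTT r hr) (hcon r hr))
    have h2 : φ * (t2 - T1) = L T1 + 1 := by
      rw [ht2]; field_simp; ring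
    have h3 := h0 t2 (ha t2 ht2')
    linarith
  refine ⟨t1, fun t ht => ?_⟩
  have h1 := o4_barrier L L' (ε / 2) t1 t ht (fun r hr _ => hd r (ha r (le_trans ht1 hr)))
    (fun r hr _ hle => by
      have := hT r (hTT r (le_trans ht1 hr)) hle
      linarith) hlt.le
  have h2 := h0 t (ha t (le_trans ht1 ht))
  rw [Real.dist_eq, sub_zero, abs_of_nonneg h2]
  linarith

theorem lyap_backward (L L' : ℝ → ℝ) (hd : ∀ t, HasDerivAt L (L' t) t) (h0 : ∀ t, 0 ≤ L t)
    (h : ∀ ε > 0, ∃ φ > 0, ∀ᶠ t in atBot, ε ≤ L t → L' t ≤ -φ) :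
    Tendsto L atBot (𝓝 0) ∨ Tendsto L atBot atTop := by
  by_cases hcase : ∃ ε > 0, ∀ T, ∃ t ≤ T, ε ≤ L t
  · right
    obtain ⟨ε, hε, hbig⟩ := hcase
    obtain ⟨φ, hφ, hev⟩ := h ε hε
    obtain ⟨T, hT⟩ := eventually_atBot.mp hev
    obtain ⟨t1, ht1, hL1⟩ := hbig T
    have hge : ∀ t ≤ t1, ε ≤ L t := by
      intro t ht
      by_contra hlt
      push Not at hlt
      -- choose a level strictly between
      have hb := o4_barrier L L' ε t t1 ht (fun r _ _ => hd r)
        (fun r hr hr' hle => by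
          have := hT r (le_trans hr' ht1) hle
          linarith) hlt.le
      -- so L t1 = ε and L' t1 < 0 : L is > ε just before t1
      have heq : L t1 = ε := le_antisymm hb hL1
      have hneg : L' t1 < 0 := by
        have := hT t1 ht1 hL1
        linarith
      have hslope := (hd t1).hasDerivWithinAt (s := Iio t1)
      rw [hasDerivWithinAt_iff_tendsto_slope] at hslope
      have hs2 : Iio t1 \ {t1} = Iio t1 := by
        ext y; simp
      rw [hs2] at hslope
      have hev2 : ∀ᶠ y in 𝓝[<] t1, slope L t1 y < 0 := hslope.eventually (gt_mem_nhds hneg)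
      have hev3 : ∀ᶠ y in 𝓝[<] t1, t < y := by
        have htt1 : t < t1 := by
          rcases lt_or_eq_of_le ht with h5 | h5
          · exact h5
          · rw [h5] at hlt
            linarith
        exact (Ioo_mem_nhdsLT htt1) |> fun hm => by
          filter_upwards [hm] with y hy
          exact hy.1
      obtain ⟨y, ⟨hy1, hy2⟩, hy3⟩ := ((hev2.and hev3).and self_mem_nhdsWithin).exists
      have hy3' : y < t1 := hy3
      rw [slope_def_field, div_neg_iff] at hy1
      have hLy : ε < L y := by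
        rcases hy1 with ⟨h6, h7⟩ | ⟨h6, h7⟩
        · linarith
        · linarith
      have hb2 := o4_barrier L L' ε t y hy2.le (fun r _ _ => hd r)
        (fun r hr hr' hle => by
          have := hT r (le_trans (le_trans hr' hy3'.le) ht1) hle
          linarith) hlt.le
      linarith
    rw [tendsto_atTop]
    intro M
    filter_upwards [eventually_le_atBot (t1 - M / φ), eventually_le_atBot t1] with t ht ht'
    have h1 := o4_decay L L' φ t t1 ht' (fun r _ _ => hd r)
      (fun r _ hr' => hT r (le_trans hr' ht1) (hge r hr'))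
    have h2 : M ≤ φ * (t1 - t) := by
      have h3 : M / φ ≤ t1 - t := by linarith
      calc M = φ * (M / φ) := by field_simp
        _ ≤ φ * (t1 - t) := mul_le_mul_of_nonneg_left h3 hφ.le
    have h3 := h0 t1
    linarith
  · left
    push Not at hcase
    rw [Metric.tendsto_nhds]
    intro ε hε
    obtain ⟨T, hT⟩ := hcase ε hε
    filter_upwards [eventually_le_atBot T] with t ht
    rw [Real.dist_eq, sub_zero, abs_of_nonneg (h0 t)]
    exact hT t ht

end Pool.Agent.Lib.MP_d8ef8f_an
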