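import Pool.Agent.Lib.MP_d8ef8f_an.Defs
import Pool.Agent.Lib.MP_d8ef8f_an.O1

namespace Pool.Agent.Lib.MP_d8ef8f_an

open Set Filter Topology MeasureTheory

theorem o2_barrier {ι : Type} [Fintype ι] (f f' : ι → ℝ → ℝ) (a K c : ℝ) (hc : 0 < c)
    (hd : ∀ i, ∀ t > a, HasDerivAt (f i) (f' i t) t)
    (h : ∀ t > a, ∀ i, (∀ j, f j t ≤ f i t) → K ≤ f i t → f' i t ≤ -c)
    (s t : ℝ) (has : a < s) (hst : s ≤ t) (hs : ∀ j, f j s ≤ K) : ∀ j, f j t ≤ K := by
  classical
  intro i
  by_contra hcon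
  push Not at hcon
  have hcont : ∀ j, ContinuousOn (f j) (Icc s t) := fun j r hr =>
    (hd j r (lt_of_lt_of_le has hr.1)).continuousAt.continuousWithinAt
  set A : Set ℝ := {r | r ∈ Icc s t ∧ ∀ j, f j r ≤ K} with hA
  have hAc : IsCompact A := by
    have hAe : A = Icc s t ∩ ⋂ j, {r | r ∈ Icc s t ∧ f j r ≤ K} := by
      ext r
      simp only [hA, mem_setOf_eq, mem_inter_iff, mem_iInter]
      constructor
      · rintro ⟨h1, h2⟩
        exact ⟨h1, fun j => ⟨h1, h2 j⟩⟩
      · rintro ⟨h1, h2⟩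
        exact ⟨h1, fun j => (h2 j).2⟩
    rw [hAe]
    refine isCompact_Icc.inter_right (isClosed_iInter fun j => ?_)
    exact (hcont j).preimage_isClosed_of_isClosed isClosed_Icc isClosed_Iic
  have hAne : A.Nonempty := ⟨s, ⟨le_refl _, hst⟩, hs⟩
  obtain ⟨r, hr, hrmax⟩ := hAc.exists_isGreatest hAne
  have hrt : r < t := by
    rcases lt_or_eq_of_le hr.1.2 with h1 | h1
    · exact h1
    · rw [h1] at hr
      exact absurd (hr.2 i) (not_le.mpr hcon)
  have har : a < r := lt_of_lt_of_le has hr.1.1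
  have hlate : ∀ y, r < y → y ≤ t → ∃ j, K < f j y := by
    intro y hy1 hy2
    by_contra hno
    push Not at hno
    exact absurd (hrmax ⟨⟨le_trans hr.1.1 hy1.le, hy2⟩, hno⟩) (not_le.mpr hy1)
  have hatr : ∃ j, K ≤ f j r := by
    by_contra hno
    push Not at hno
    have hev : ∀ᶠ y in 𝓝 r, ∀ j, f j y < K := by
      rw [eventually_all]
      intro j
      exact (hd j r har).continuousAt.eventually (gt_mem_nhds (hno j))
    have hev2 : ∀ᶠ y in 𝓝[>] r, ∀ j, f j y < K := hev.filter_mono nhdsWithin_le_nhds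
    have hev3 : ∀ᶠ y in 𝓝[>] r, y < t := by
      filter_upwards [Ioo_mem_nhdsGT hrt] with y hy
      exact hy.2
    obtain ⟨y, ⟨hy1, hy2⟩, hy3⟩ := ((hev2.and hev3).and self_mem_nhdsWithin).exists
    obtain ⟨j, hj⟩ := hlate y hy3 hy2.le
    exact absurd (hy1 j) (not_lt.mpr hj.le)
  have hdec := fam_decrease f f' r t c hrt.le (fun i y hy => hd i y (lt_of_lt_of_le har hy.1))
    (fun y hy i hi => h y (lt_of_lt_of_le har hy.1) i hi (by
      rcases lt_or_eq_of_le hy.1 with h1 | h1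
      · obtain ⟨j, hj⟩ := hlate y h1 hy.2
        exact le_trans hj.le (hi j)
      · rw [← h1] at hi ⊢
        obtain ⟨j, hj⟩ := hatr
        exact le_trans hj (hi j))) K hr.2 i
  have : 0 < c * (t - r) := mul_pos hc (by linarith)
  linarith

theorem fam_eventually_le {ι : Type} [Fintype ι] (f f' : ι → ℝ → ℝ) (a K c : ℝ) (hc : 0 < c)
    (hd : ∀ i, ∀ t > a, HasDerivAt (f i) (f' i t) t)
    (h : ∀ t > a, ∀ i, (∀ j, f j t ≤ f i t) → K ≤ f i t → f' i t ≤ -c) :
    ∃ t0 > a, ∀ t ≥ t0, ∀ i, f i t ≤ K := by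
  classical
  set s0 : ℝ := a + 1 with hs0
  have has0 : a < s0 := by linarith
  by_cases hle : ∀ j, f j s0 ≤ K
  · exact ⟨s0, has0, fun t ht i => o2_barrier f f' a K c hc hd h s0 t has0 ht hle i⟩
  · obtain ⟨M, hM⟩ : ∃ M, ∀ j, f j s0 ≤ M := by
      refine ⟨∑ j, |f j s0|, fun j => ?_⟩
      exact le_trans (le_abs_self _) (Finset.single_le_sum (f := fun j => |f j s0|)
        (fun i _ => abs_nonneg _) (Finset.mem_univ j))
    have hMK : K < M := by
      obtain ⟨j, hj⟩ := not_forall.mp hle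
      exact lt_of_lt_of_le (not_le.mp hj) (hM j)
    set t0 : ℝ := s0 + (M - K) / c with ht0
    have hst0 : s0 ≤ t0 := by
      have : 0 ≤ (M - K) / c := div_nonneg (by linarith) hc.le
      linarith
    have hle0 : ∀ j, f j t0 ≤ K := by
      intro i
      by_contra hcon
      push Not at hcon
      have hno : ∀ y, s0 ≤ y → y ≤ t0 → ∃ j, K < f j y := by
        intro y hy1 hy2
        by_contra hn
        push Not at hn
        exact absurd (o2_barrier f f' a K c hc hd h y t0 (lt_of_lt_of_le has0 hy1) hy2 hn i)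
          (not_le.mpr hcon)
      have hdec := fam_decrease f f' s0 t0 c hst0
        (fun i y hy => hd i y (lt_of_lt_of_le has0 hy.1))
        (fun y hy i hi => h y (lt_of_lt_of_le has0 hy.1) i hi (by
          obtain ⟨j, hj⟩ := hno y hy.1 hy.2
          exact le_trans hj.le (hi j))) M hM i
      have h1 : c * (t0 - s0) = M - K := by
        rw [ht0]; field_simp; ring
      linarith
    exact ⟨t0, lt_of_lt_of_le has0 hst0, fun t ht i =>
      o2_barrier f f' a K c hc hd h t0 t (lt_of_lt_of_le has0 hst0) ht hle0 i⟩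

end Pool.Agent.Lib.MP_d8ef8f_an
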