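import Pool.Agent.Lib.MP_d8ef8f_an.S2
import Pool.Agent.Lib.MP_d8ef8f_an.S3
import Pool.Agent.Lib.MP_d8ef8f_an.O2
import Pool.Agent.Lib.MP_d8ef8f_an.O3

namespace Pool.Agent.Lib.MP_d8ef8f_an

open Set Filter Topology MeasureTheory

variable {ι : Type} [Fintype ι]

/-- the algebra of the differential inequality -/
theorem S4_alg {B δ dj R D : ℝ} (hB0 : 0 < B) (hδ : 0 < δ) (hδ1 : δ ≤ 1)
    (hd : 32 * B / δ ^ 2 ≤ dj) (hR : 1 + δ ≤ R)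
    (hD : D ≤ - 2 * dj * (R - 1) ^ 2 + 8 * B * R ^ 2) : D ≤ -(8 * B) * R ^ 2 := by
  have h1 : δ / 2 * R ≤ R - 1 := by nlinarith
  have hR0 : 0 < R := by linarith
  have h2 : (δ / 2 * R) ^ 2 ≤ (R - 1) ^ 2 := pow_le_pow_left₀ (by positivity) h1 2
  have h3 : 32 * B ≤ dj * δ ^ 2 := by
    rwa [div_le_iff₀ (by positivity)] at hd
  have hdj : 0 ≤ dj := le_trans (by positivity) hd
  have h4 : 2 * dj * (δ / 2 * R) ^ 2 ≤ 2 * dj * (R - 1) ^ 2 :=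
    mul_le_mul_of_nonneg_left h2 (by positivity)
  have h5 : 2 * dj * (δ / 2 * R) ^ 2 = dj * δ ^ 2 * (R ^ 2 / 2) := by ring
  have h6 : 32 * B * (R ^ 2 / 2) ≤ dj * δ ^ 2 * (R ^ 2 / 2) :=
    mul_le_mul_of_nonneg_right h3 (by positivity)
  nlinarith

omit [Fintype ι] in
theorem S4_dpos {d : ι → ℝ} {B δ : ℝ} (hB0 : 0 < B) (hδ : 0 < δ)
    (hd : ∀ j, 32 * B / δ ^ 2 ≤ d j) (j : ι) : 0 < d j :=
  lt_of_lt_of_le (by positivity) (hd j)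

theorem rat_forward {d : ι → ℝ} {m : ℝ → ℝ} {a : ℝ} {u ut ux uxx : ι → ℝ → ℝ → ℝ} {B δ : ℝ}
    (hB0 : 0 < B) (hδ : 0 < δ) (hδ1 : δ ≤ 1) (hd : ∀ j, 32 * B / δ ^ 2 ≤ d j)
    (hm : ContinuousOn m (Icc (0:ℝ) 1)) (hB : ∀ x ∈ Icc (0:ℝ) 1, |m x| ≤ B)
    (hs : IsSol d m (Ioi a) u ut ux uxx)
    (hpos : ∀ j, ∀ t ∈ Ioi a, ∀ x ∈ Icc (0:ℝ) 1, 0 < u j t x) :
    ∃ t0 > a, ∀ t ≥ t0, (∑ j, mass u j t ≤ 2 * B) ∧ ∀ j, rat u j t ≤ 1 + δ := by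
  obtain ⟨t0, ht0, hS⟩ := total_forward hB0 hm hB hs
  have hder := fun (j : ι) (t : ℝ) (ht : t > t0) =>
    rat_deriv_le hB0 (S4_dpos hB0 hδ hd) isOpen_Ioi hm hB hs hpos t (ht0.trans ht)
      (hS t (le_of_lt ht)) j
  obtain ⟨t1, ht1, h1⟩ := fam_eventually_le (fun j => rat u j) (fun j t => deriv (rat u j) t)
    t0 (1 + δ) (8 * B) (by positivity)
    (fun j t ht => by
      obtain ⟨D, hD, _⟩ := hder j t ht
      exact hD.differentiableAt.hasDerivAt)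
    (fun t ht j hmax hge => by
      obtain ⟨D, hD, hD2⟩ := hder j t ht
      have h2 := S4_alg hB0 hδ hδ1 (hd j) hge (hD2 hmax)
      have h3 : 1 ≤ rat u j t := by linarith
      have h4 : 1 ≤ rat u j t ^ 2 := by nlinarith
      show deriv (rat u j) t ≤ -(8 * B)
      rw [hD.deriv]
      nlinarith)
  exact ⟨t1, ht0.trans ht1, fun t ht => ⟨hS t (le_trans (le_of_lt ht1) ht), h1 t ht⟩⟩

theorem rat_entire {d : ι → ℝ} {m : ℝ → ℝ} {u ut ux uxx : ι → ℝ → ℝ → ℝ} {B δ : ℝ}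
    (hB0 : 0 < B) (hδ : 0 < δ) (hδ1 : δ ≤ 1) (hd : ∀ j, 32 * B / δ ^ 2 ≤ d j)
    (hm : ContinuousOn m (Icc (0:ℝ) 1)) (hB : ∀ x ∈ Icc (0:ℝ) 1, |m x| ≤ B)
    (hs : IsSol d m univ u ut ux uxx)
    (hpos : ∀ j, ∀ t ∈ (univ : Set ℝ), ∀ x ∈ Icc (0:ℝ) 1, 0 < u j t x) :
    ∀ t, (∑ j, mass u j t ≤ 2 * B) ∧ ∀ j, rat u j t ≤ 1 + δ := by
  have hS := total_entire hB0 hm hB hs
  have hder := fun (j : ι) (t : ℝ) =>
    rat_deriv_le hB0 (S4_dpos hB0 hδ hd) isOpen_univ hm hB hs hpos t (mem_univ t) (hS t) j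
  have h1 := fam_entire_le (fun j => rat u j) (fun j t => deriv (rat u j) t)
    (1 + δ) (8 * B) (by positivity) (by positivity)
    (fun j t => by
      obtain ⟨D, hD, _⟩ := hder j t
      exact hD.differentiableAt.hasDerivAt)
    (fun t j hmax hge => by
      obtain ⟨D, hD, hD2⟩ := hder j t
      have h2 := S4_alg hB0 hδ hδ1 (hd j) hge (hD2 hmax)
      show deriv (rat u j) t ≤ -(8 * B) * rat u j t ^ 2
      rw [hD.deriv]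
      exact h2)
  exact fun t => ⟨hS t, h1 t⟩

end Pool.Agent.Lib.MP_d8ef8f_an
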