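import Pool.Agent.Lib.MP_d8ef8f_an.Setup
import Pool.Agent.Lib.MP_d8ef8f_an.O4
import Pool.Agent.Lib.MP_d8ef8f_an.S4
import Pool.Agent.Lib.MP_d8ef8f_an.G3

namespace Pool.Agent.Lib.MP_d8ef8f_an

open Set Filter Topology MeasureTheory

variable {ι : Type} [Fintype ι] [LinearOrder ι]

/-- forward convergence, all species present, `k` the slowest one -/
theorem forward_core {d : ι → ℝ} {m : ℝ → ℝ} {θ θ' θ'' : ι → ℝ → ℝ} {B c δ : ℝ}
    (H : Data d m θ θ' θ'' B c δ) {a : ℝ} {u ut ux uxx : ι → ℝ → ℝ → ℝ}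
    (hs : IsSol d m (Ioi a) u ut ux uxx)
    (hpos : ∀ j, ∀ t ∈ Ioi a, ∀ x ∈ Icc (0:ℝ) 1, 0 < u j t x)
    (k : ι) (hk : ∀ j, k ≤ j) :
    ConvTo atTop u (fun j x => if j = k then θ k x else 0) := by
  classical
  obtain ⟨t0, ht0, htame⟩ := rat_forward H.hB0 H.hδ H.hδ1 H.dδ H.hm H.hB hs hpos
  have htame' : ∀ᶠ t in atTop, Tame u B δ t := by
    filter_upwards [eventually_ge_atTop t0] with t ht
    exact htame t ht
  have hT : ∀ᶠ t in atTop, t ∈ Ioi a := eventually_gt_atTop a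
  have hdpos : ∀ j, 0 < d j := fun j => lt_of_lt_of_le (by have := H.hB0; linarith) (H.dB j)
  have hempty : Finset.univ.filter (fun j => j < k) = (∅ : Finset ι) := by
    ext j
    simp [not_lt.mpr (hk j)]
  have hdec := lam_decay H hs hpos k atTop hT htame' (by
    rw [hempty]
    simp)
  have hder : ∀ t > a, HasDerivAt (fun s => Lam d (θ k) k (fun j => u j s))
      (LamD d (θ k) (θ' k) k (fun j => u j t) (fun j => ux j t)) t := fun t ht =>
    lam_deriv k hdpos isOpen_Ioi H.hm hs hpos (H.st k) t ht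
  have hnn : ∀ t > a, 0 ≤ Lam d (θ k) k (fun j => u j t) := by
    intro t ht
    have hθc : ContinuousOn (θ k) (Icc (0:ℝ) 1) := fun x hx => ((H.st k).d1 x hx).continuousWithinAt
    have h0 : (0:ℝ) ∈ Icc (0:ℝ) 1 := ⟨le_refl _, zero_le_one⟩
    have hcont : ∀ j, ContinuousOn (u j t) (Icc (0:ℝ) 1) :=
      fun j x hx => (hs.dx j t ht x hx).continuousWithinAt
    obtain ⟨h1, h2⟩ := lam_lower H.hB0 (H.dB k) d k rfl (fun j hj => H.mono hj) hθc (H.st k).pos
      (fun x hx => theta_harnack (hdpos k) H.hm (H.st k) H.hB x hx 0 h0) (fun j => u j t)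
      hcont (fun j x hx => hpos j t ht x hx)
    have h3 : 0 ≤ ∑ j ∈ Finset.univ.filter (fun j => k < j), ∫ x in (0:ℝ)..1, u j t x := by
      apply Finset.sum_nonneg
      intro j _
      exact intervalIntegral.integral_nonneg zero_le_one (fun x hx => (hpos j t ht x hx).le)
    have h4 : 0 < θ k 0 := (H.st k).pos 0 h0
    have h5 : 0 ≤ θ k 0 / 3 *
        (∑ j ∈ Finset.univ.filter (fun j => k < j), ∫ x in (0:ℝ)..1, u j t x) :=
      mul_nonneg (by positivity) h3
    linarith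
  have hlim := lyap_forward _ _ a hder hnn hdec
  exact conv_of_lam H isOpen_Ioi hs hpos atTop (Or.inl rfl) hT htame' k
    (fun j hj => absurd hj (not_lt.mpr (hk j))) hlim

end Pool.Agent.Lib.MP_d8ef8f_an
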