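import Pool.Agent.Lib.MP_d8ef8f_an.Setup
import Pool.Agent.Lib.MP_d8ef8f_an.O4
import Pool.Agent.Lib.MP_d8ef8f_an.S4
import Pool.Agent.Lib.MP_d8ef8f_an.G3
import Pool.Agent.Lib.MP_d8ef8f_an.B1

namespace Pool.Agent.Lib.MP_d8ef8f_an

open Set Filter Topology MeasureTheory

variable {ι : Type} [Fintype ι] [LinearOrder ι]

omit [LinearOrder ι] in
theorem f2_cont {d : ι → ℝ} {m : ℝ → ℝ} {T : Set ℝ} {u ut ux uxx : ι → ℝ → ℝ → ℝ}
    (hs : IsSol d m T u ut ux uxx) (j : ι) (t : ℝ) (ht : t ∈ T) :
    ContinuousOn (u j t) (Icc (0:ℝ) 1) := by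
  intro x hx
  exact (hs.dx j t ht x hx).continuousWithinAt

theorem f2_lower {d : ι → ℝ} {m : ℝ → ℝ} {θ θ' θ'' : ι → ℝ → ℝ} {B c δ : ℝ}
    (H : Data d m θ θ' θ'' B c δ) {T : Set ℝ} {u ut ux uxx : ι → ℝ → ℝ → ℝ}
    (hs : IsSol d m T u ut ux uxx) (hpos : ∀ j, ∀ t ∈ T, ∀ x ∈ Icc (0:ℝ) 1, 0 < u j t x)
    (k : ι) (t : ℝ) (ht : t ∈ T) :
    0 ≤ ent (θ k) (u k t) ∧
    θ k 0 / 3 * (∑ j ∈ Finset.univ.filter (fun j => k < j), mass u j t) + ent (θ k) (u k t)
      ≤ Lam d (θ k) k (fun j => u j t) := by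
  have hdk : 0 < d k := lt_of_lt_of_le (by have := H.hB0; linarith) (H.dB k)
  have hθc : ContinuousOn (θ k) (Icc (0:ℝ) 1) := fun x hx => ((H.st k).d1 x hx).continuousWithinAt
  have h0 : (0:ℝ) ∈ Icc (0:ℝ) 1 := ⟨le_refl _, zero_le_one⟩
  exact lam_lower H.hB0 (H.dB k) d k rfl (fun j hj => H.mono hj) hθc (H.st k).pos
    (fun x hx => theta_harnack hdk H.hm (H.st k) H.hB x hx 0 h0) (fun j => u j t)
    (fun j => f2_cont hs j t ht) (fun j x hx => hpos j t ht x hx)

omit [LinearOrder ι] in
theorem f2_mass_pos {d : ι → ℝ} {m : ℝ → ℝ} {T : Set ℝ} {u ut ux uxx : ι → ℝ → ℝ → ℝ}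
    (hs : IsSol d m T u ut ux uxx) (hpos : ∀ j, ∀ t ∈ T, ∀ x ∈ Icc (0:ℝ) 1, 0 < u j t x)
    (j : ι) (t : ℝ) (ht : t ∈ T) : 0 < mass u j t := by
  unfold mass
  exact intervalIntegral.integral_pos zero_lt_one (f2_cont hs j t ht)
    (fun x hx => (hpos j t ht x (Ioc_subset_Icc_self hx)).le)
    ⟨0, ⟨le_refl _, zero_le_one⟩, hpos j t ht 0 ⟨le_refl _, zero_le_one⟩⟩

theorem f2_lam_nonneg {d : ι → ℝ} {m : ℝ → ℝ} {θ θ' θ'' : ι → ℝ → ℝ} {B c δ : ℝ}
    (H : Data d m θ θ' θ'' B c δ) {T : Set ℝ} {u ut ux uxx : ι → ℝ → ℝ → ℝ}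
    (hs : IsSol d m T u ut ux uxx) (hpos : ∀ j, ∀ t ∈ T, ∀ x ∈ Icc (0:ℝ) 1, 0 < u j t x)
    (k : ι) (t : ℝ) (ht : t ∈ T) : 0 ≤ Lam d (θ k) k (fun j => u j t) := by
  obtain ⟨h1, h2⟩ := f2_lower H hs hpos k t ht
  have h3 : 0 ≤ ∑ j ∈ Finset.univ.filter (fun j => k < j), mass u j t :=
    Finset.sum_nonneg (fun j _ => (f2_mass_pos hs hpos j t ht).le)
  have h4 : 0 < θ k 0 := (H.st k).pos 0 ⟨le_refl _, zero_le_one⟩
  have h5 : 0 ≤ θ k 0 / 3 * (∑ j ∈ Finset.univ.filter (fun j => k < j), mass u j t) :=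
    mul_nonneg (by positivity) h3
  linarith

/-- zero entropy means equality -/
theorem f2_ent_zero {th v : ℝ → ℝ} (hth : ContinuousOn th (Icc (0:ℝ) 1))
    (hthp : ∀ x ∈ Icc (0:ℝ) 1, 0 < th x) (hv : ContinuousOn v (Icc (0:ℝ) 1))
    (hvp : ∀ x ∈ Icc (0:ℝ) 1, 0 < v x) (h : ent th v ≤ 0) : ∀ x ∈ Icc (0:ℝ) 1, v x = th x := by
  intro x hx
  by_contra hne
  have hG : ∀ y ∈ Icc (0:ℝ) 1, 0 ≤ th y ^ 2 * (v y / th y - 1 - Real.log (v y / th y)) := by
    intro y hy
    have h1 : 0 < v y / th y := div_pos (hvp y hy) (hthp y hy)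
    have h2 := Real.log_le_sub_one_of_pos h1
    exact mul_nonneg (sq_nonneg _) (by linarith)
  have hpos : 0 < ent th v := by
    unfold ent
    apply intervalIntegral.integral_pos zero_lt_one
    · have hdiv : ContinuousOn (fun y => v y / th y) (Icc (0:ℝ) 1) :=
        hv.div hth (fun y hy => (hthp y hy).ne')
      have hlog : ContinuousOn (fun y => Real.log (v y / th y)) (Icc (0:ℝ) 1) :=
        hdiv.log (fun y hy => (div_pos (hvp y hy) (hthp y hy)).ne')
      exact (hth.pow 2).mul ((hdiv.sub continuousOn_const).sub hlog)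
    · intro y hy
      exact hG y (Ioc_subset_Icc_self hy)
    · refine ⟨x, hx, ?_⟩
      have h1 : 0 < v x / th x := div_pos (hvp x hx) (hthp x hx)
      have h2 : v x / th x ≠ 1 := by
        intro h3
        rw [div_eq_one_iff_eq (hthp x hx).ne'] at h3
        exact hne h3
      have h3 := Real.log_lt_sub_one_of_pos h1 h2
      have h4 : 0 < th x ^ 2 := pow_pos (hthp x hx) 2
      exact mul_pos h4 (by linarith)
  linarith

/-- backward convergence of entire solutions, all species present -/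
theorem backward_core {d : ι → ℝ} {m : ℝ → ℝ} {θ θ' θ'' : ι → ℝ → ℝ} {B c δ : ℝ}
    (H : Data d m θ θ' θ'' B c δ) {u ut ux uxx : ι → ℝ → ℝ → ℝ}
    (hs : IsSol d m univ u ut ux uxx)
    (hpos : ∀ j, ∀ t ∈ (univ : Set ℝ), ∀ x ∈ Icc (0:ℝ) 1, 0 < u j t x) :
    ConvTo atBot u (fun _ _ => 0) ∨
    ∃ k, ConvTo atBot u (fun j x => if j = k then θ k x else 0) ∧
      ((∀ j, k ≤ j) → (∀ j, j = k) ∧ ∀ t, ∀ x ∈ Icc (0:ℝ) 1, u k t x = θ k x) := by
  classical
  have htame : ∀ t, Tame u B δ t :=
    rat_entire H.hB0 H.hδ H.hδ1 H.dδ H.hm H.hB hs hpos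
  have hdpos : ∀ j, 0 < d j := fun j => lt_of_lt_of_le (by have := H.hB0; linarith) (H.dB j)
  by_cases hall : ∀ j, Tendsto (fun t => mass u j t) atBot (𝓝 0)
  · left
    intro ε hε
    have h1 : ∀ j, ∀ᶠ t in atBot, ∀ x ∈ Icc (0:ℝ) 1, u j t x < ε := fun j =>
      species_small H isOpen_univ hs hpos atBot (Or.inr rfl) (Eventually.of_forall fun t => mem_univ t)
        (Eventually.of_forall htame) j (hall j) ε hε
    have h2 : ∀ᶠ t in atBot, ∀ j, ∀ x ∈ Icc (0:ℝ) 1, u j t x < ε := eventually_all.mpr h1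
    filter_upwards [h2] with t ht j x hx
    rw [sub_zero, abs_of_pos (hpos j t (mem_univ t) x hx)]
    exact ht j x hx
  · right
    have hne : {j : ι | ¬ Tendsto (fun t => mass u j t) atBot (𝓝 0)}.Nonempty := by
      obtain ⟨j, hj⟩ := not_forall.mp hall
      exact ⟨j, hj⟩
    set k : ι := WellFounded.min (wellFounded_lt : WellFounded ((· < ·) : ι → ι → Prop)) _ hne with hkdef
    have hk : ¬ Tendsto (fun t => mass u k t) atBot (𝓝 0) :=
      WellFounded.min_mem (wellFounded_lt : WellFounded ((· < ·) : ι → ι → Prop)) _ hne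
    have hless : ∀ j, j < k → Tendsto (fun t => mass u j t) atBot (𝓝 0) := by
      intro j hj
      by_contra hc
      exact WellFounded.not_lt_min (wellFounded_lt : WellFounded ((· < ·) : ι → ι → Prop)) _ hc hj
    have hsum : Tendsto (fun t => ∑ j ∈ Finset.univ.filter (fun j => j < k), mass u j t) atBot (𝓝 0) := by
      have := tendsto_finsetSum (Finset.univ.filter (fun j => j < k)) (f := fun j t => mass u j t)
        (a := fun _ => (0:ℝ)) (x := atBot) (fun j hj => hless j (by simpa using hj))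
      simpa using this
    have hdec := lam_decay H hs hpos k atBot (Eventually.of_forall fun t => mem_univ t)
      (Eventually.of_forall htame) hsum
    have hder : ∀ t, HasDerivAt (fun s => Lam d (θ k) k (fun j => u j s))
        (LamD d (θ k) (θ' k) k (fun j => u j t) (fun j => ux j t)) t := fun t =>
      lam_deriv k hdpos isOpen_univ H.hm hs hpos (H.st k) t (mem_univ t)
    rcases lyap_backward _ _ hder (fun t => f2_lam_nonneg H hs hpos k t (mem_univ t)) hdec with h0 | hinf
    · refine ⟨k, conv_of_lam H isOpen_univ hs hpos atBot (Or.inr rfl)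
        (Eventually.of_forall fun t => mem_univ t) (Eventually.of_forall htame) k hless h0, ?_⟩
      intro hleast
      have hempty : Finset.univ.filter (fun j => j < k) = (∅ : Finset ι) := by
        ext j
        simp [not_lt.mpr (hleast j)]
      have hLD : ∀ t, LamD d (θ k) (θ' k) k (fun j => u j t) (fun j => ux j t) ≤ 0 := by
        intro t
        have h1 := lamD_le_sol H hs hpos k t (mem_univ t) (htame t)
        rw [hempty] at h1
        simp only [Finset.sum_empty] at h1
        have hθc : ContinuousOn (θ k) (Icc (0:ℝ) 1) := fun x hx => ((H.st k).d1 x hx).continuousWithinAt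
        have g1 : 0 ≤ gradDiss (θ k) (θ' k) (u k t) (ux k t) := by
          unfold gradDiss
          apply intervalIntegral.integral_nonneg zero_le_one
          intro x _
          positivity
        have g2 : 0 ≤ ∫ x in (0:ℝ)..1, θ k x * ((∑ i, u i t x) - θ k x) ^ 2 := by
          apply intervalIntegral.integral_nonneg zero_le_one
          intro x hx
          exact mul_nonneg ((H.st k).pos x hx).le (sq_nonneg _)
        have g3 : 0 ≤ ∑ j ∈ Finset.univ.filter (fun j => k < j), (1 - d k / d j) * mass u j t := by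
          apply Finset.sum_nonneg
          intro j hj
          have hkj : k < j := by simpa using hj
          have h5 : d k / d j ≤ 1 := (div_le_one (hdpos j)).mpr (H.mono hkj).le
          exact mul_nonneg (by linarith) (f2_mass_pos hs hpos j t (mem_univ t)).le
        have g4 : 0 < θ k 0 := (H.st k).pos 0 ⟨le_refl _, zero_le_one⟩
        have g5 : 0 ≤ θ k 0 * c / (48 * d k) := by
          have := H.hc
          have := hdpos k
          positivity
        have g6 := mul_nonneg g5 g3
        have g7 := mul_nonneg (hdpos k).le g1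
        nlinarith
      have hanti : Antitone (fun s => Lam d (θ k) k (fun j => u j s)) := by
        apply antitone_of_deriv_nonpos
        · intro t
          exact (hder t).differentiableAt
        · intro t
          rw [(hder t).deriv]
          exact hLD t
      have hle0 : ∀ t, Lam d (θ k) k (fun j => u j t) ≤ 0 := by
        intro t
        apply ge_of_tendsto h0
        filter_upwards [eventually_le_atBot t] with s hs'
        exact hanti hs'
      have hall' : ∀ t, (∑ j ∈ Finset.univ.filter (fun j => k < j), mass u j t) ≤ 0 ∧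
          ent (θ k) (u k t) ≤ 0 := by
        intro t
        obtain ⟨h1, h2⟩ := f2_lower H hs hpos k t (mem_univ t)
        have h3 : 0 ≤ ∑ j ∈ Finset.univ.filter (fun j => k < j), mass u j t :=
          Finset.sum_nonneg (fun j _ => (f2_mass_pos hs hpos j t (mem_univ t)).le)
        have h4 : 0 < θ k 0 := (H.st k).pos 0 ⟨le_refl _, zero_le_one⟩
        have h5 := hle0 t
        constructor
        · by_contra hcon
          push Not at hcon
          have : 0 < θ k 0 / 3 * (∑ j ∈ Finset.univ.filter (fun j => k < j), mass u j t) :=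
            mul_pos (by positivity) hcon
          linarith
        · have : 0 ≤ θ k 0 / 3 * (∑ j ∈ Finset.univ.filter (fun j => k < j), mass u j t) :=
            mul_nonneg (by positivity) h3
          linarith
      constructor
      · intro j
        by_contra hjk
        have hkj : k < j := lt_of_le_of_ne (hleast j) (Ne.symm hjk)
        have h1 : mass u j 0 ≤ ∑ i ∈ Finset.univ.filter (fun i => k < i), mass u i 0 :=
          Finset.single_le_sum (f := fun i => mass u i 0)
            (fun i _ => (f2_mass_pos hs hpos i 0 (mem_univ 0)).le) (by simpa using hkj)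
        have h2 := f2_mass_pos hs hpos j 0 (mem_univ 0)
        have h3 := (hall' 0).1
        linarith
      · intro t
        have hθc : ContinuousOn (θ k) (Icc (0:ℝ) 1) := fun x hx => ((H.st k).d1 x hx).continuousWithinAt
        exact f2_ent_zero hθc (H.st k).pos (f2_cont hs k t (mem_univ t))
          (fun x hx => hpos k t (mem_univ t) x hx) (hall' t).2
    · exact absurd (mass_zero_of_lam H hs hpos htame k hinf) hk

end Pool.Agent.Lib.MP_d8ef8f_an
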