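import Pool.Agent.Lib.MP_d8ef8f_an.S1
import Pool.Agent.Lib.MP_d8ef8f_an.T2

namespace Pool.Agent.Lib.MP_d8ef8f_an

open Set Filter Topology MeasureTheory

variable {ι : Type} [Fintype ι]

/-- slice of a function continuous on `T × [0,1]` -/
private theorem L1_slice {T : Set ℝ} {f : ℝ → ℝ → ℝ} {t : ℝ} (ht : t ∈ T)
    (hf : ContinuousOn (fun p : ℝ × ℝ => f p.1 p.2) (T ×ˢ Icc (0:ℝ) 1)) :
    ContinuousOn (f t) (Icc (0:ℝ) 1) := by
  have h1 : ContinuousOn (fun x : ℝ => ((t, x) : ℝ × ℝ)) (Icc (0:ℝ) 1) := by fun_prop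
  have h2 := hf.comp h1 (fun x hx => ⟨ht, hx⟩)
  exact h2

/-- a function of `x` only, continuous on `[0,1]`, is continuous on `T × [0,1]` -/
private theorem L1_lift {T : Set ℝ} {f : ℝ → ℝ} (hf : ContinuousOn f (Icc (0:ℝ) 1)) :
    ContinuousOn (fun p : ℝ × ℝ => f p.2) (T ×ˢ Icc (0:ℝ) 1) :=
  hf.comp continuous_snd.continuousOn (fun _ hp => hp.2)

private theorem L1_int {f : ℝ → ℝ} (hf : ContinuousOn f (Icc (0:ℝ) 1)) :
    IntervalIntegrable f volume 0 1 := by
  apply ContinuousOn.intervalIntegrable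
  rwa [uIcc_of_le zero_le_one]

/-- derivative of the relative entropy of species `k` with respect to `θ` -/
theorem ent_deriv {d : ι → ℝ} {m : ℝ → ℝ} {T : Set ℝ} {u ut ux uxx : ι → ℝ → ℝ → ℝ}
    {θ θ' θ'' : ℝ → ℝ} (k : ι) (hdk : 0 < d k)
    (hT : IsOpen T) (hm : ContinuousOn m (Icc (0:ℝ) 1)) (hs : IsSol d m T u ut ux uxx)
    (hpos : ∀ j, ∀ t ∈ T, ∀ x ∈ Icc (0:ℝ) 1, 0 < u j t x) (hθ : Steady (d k) m θ θ' θ'') :
    ∀ t ∈ T, HasDerivAt (fun s => ent θ (u k s))
      (- d k * gradDiss θ θ' (u k t) (ux k t)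
        - ∫ x in (0:ℝ)..1, θ x * (u k t x - θ x) * ((∑ i, u i t x) - θ x)) t := by
  intro t ht
  -- continuity of the steady state and its derivatives
  have cθ : ContinuousOn θ (Icc (0:ℝ) 1) := fun x hx => (hθ.d1 x hx).continuousWithinAt
  have cθ' : ContinuousOn θ' (Icc (0:ℝ) 1) := fun x hx => (hθ.d2 x hx).continuousWithinAt
  have θne : ∀ x ∈ Icc (0:ℝ) 1, θ x ≠ 0 := fun x hx => (hθ.pos x hx).ne'
  have eqθ'' : ∀ x ∈ Icc (0:ℝ) 1, θ'' x = - (θ x * (m x - θ x)) / d k := by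
    intro x hx
    have := hθ.eq x hx
    field_simp
    linarith
  have cθ'' : ContinuousOn θ'' (Icc (0:ℝ) 1) := by
    have h1 : ContinuousOn (fun x => - (θ x * (m x - θ x)) / d k) (Icc (0:ℝ) 1) :=
      ((cθ.mul (hm.sub cθ)).neg).div_const _
    exact h1.congr eqθ''
  have une : ∀ s ∈ T, ∀ x ∈ Icc (0:ℝ) 1, u k s x ≠ 0 := fun s hs' x hx => (hpos k s hs' x hx).ne'
  have cu := L1_slice ht (hs.c0 k)
  have cux := L1_slice ht (hs.cx k)
  have cuxx := L1_slice ht (hs.cxx k)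
  have cU : ContinuousOn (fun x => ∑ i, u i t x) (Icc (0:ℝ) 1) :=
    continuousOn_finsetSum _ (fun i _ => L1_slice ht (hs.c0 i))
  -- step 1: differentiation under the integral
  have key := hasDerivAt_integral hT
    (fun s x => θ x ^ 2 * (u k s x / θ x - 1 - Real.log (u k s x / θ x)))
    (fun s x => (θ x - θ x ^ 2 / u k s x) * ut k s x) ?_ ?_ ?_ t ht
  rotate_left
  · refine ContinuousOn.mul (ContinuousOn.sub (L1_lift cθ) (ContinuousOn.div ?_ (hs.c0 k) ?_))
      (hs.ct k)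
    · exact (L1_lift cθ).pow 2
    · rintro ⟨s, x⟩ ⟨h1, h2⟩
      exact une s h1 x h2
  · intro s hs'
    have cus := L1_slice hs' (hs.c0 k)
    have cq : ContinuousOn (fun x => u k s x / θ x) (Icc (0:ℝ) 1) := cus.div cθ θne
    refine (cθ.pow 2).mul ((cq.sub continuousOn_const).sub (cq.log ?_))
    intro x hx
    exact div_ne_zero (une s hs' x hx) (θne x hx)
  · intro s hs' x hx
    have h1 := hs.dt k s hs' x hx
    have h2 : HasDerivAt (fun s => u k s x / θ x) (ut k s x / θ x) s := h1.div_const _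
    have h3 := h2.log (div_ne_zero (une s hs' x hx) (θne x hx))
    have h4 := ((h2.sub_const 1).sub h3).const_mul (θ x ^ 2)
    have h5 : HasDerivAt (fun s => θ x ^ 2 * (u k s x / θ x - 1 - Real.log (u k s x / θ x)))
      (θ x ^ 2 * (ut k s x / θ x - ut k s x / θ x / (u k s x / θ x))) s := h4
    refine h5.congr_deriv ?_
    have a := θne x hx
    have b := une s hs' x hx
    field_simp
  have key' : HasDerivAt (fun s => ent θ (u k s))
      (∫ x in (0:ℝ)..1, (θ x - θ x ^ 2 / u k t x) * ut k t x) t := key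
  refine key'.congr_deriv ?_
  -- step 2: the two integrations by parts
  have p1 := parts_neumann (fun x => θ x - θ x ^ 2 / u k t x)
    (fun x => θ' x - (2 * θ x * θ' x * u k t x - θ x ^ 2 * ux k t x) / u k t x ^ 2)
    (ux k t) (uxx k t) ?_ ?_ (hs.dxx k t ht) cuxx (hs.bc0 k t ht) (hs.bc1 k t ht)
  rotate_left
  · intro x hx
    have h1 := hθ.d1 x hx
    have h2 := hs.dx k t ht x hx
    have h3 := (h1.fun_pow 2)
    have h4 := h1.sub (h3.div h2 (une t ht x hx))
    have h5 : HasDerivWithinAt (fun x => θ x - θ x ^ 2 / u k t x)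
      (θ' x - (((2 : ℕ) : ℝ) * θ x ^ (2 - 1) * θ' x * u k t x - θ x ^ 2 * ux k t x)
        / u k t x ^ 2) (Icc (0:ℝ) 1) x := h4
    refine h5.congr_deriv ?_
    norm_num
  · refine cθ'.sub (ContinuousOn.div ?_ (cu.pow 2) ?_)
    · exact (((continuousOn_const.mul cθ).mul cθ').mul cu).sub ((cθ.pow 2).mul cux)
    · intro x hx
      exact pow_ne_zero 2 (une t ht x hx)
  have p2 := parts_neumann (fun x => u k t x - θ x) (fun x => ux k t x - θ' x) θ' θ''
    (fun x hx => (hs.dx k t ht x hx).sub (hθ.d1 x hx)) (cux.sub cθ') hθ.d2 cθ'' hθ.bc0 hθ.bc1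
  -- continuity of the integrands
  have c1 : ContinuousOn (fun x => (θ x - θ x ^ 2 / u k t x) * uxx k t x) (Icc (0:ℝ) 1) :=
    (cθ.sub ((cθ.pow 2).div cu (une t ht))).mul cuxx
  have c2 : ContinuousOn (fun x => θ x * (u k t x - θ x) * (m x - ∑ i, u i t x))
      (Icc (0:ℝ) 1) := (cθ.mul (cu.sub cθ)).mul (hm.sub cU)
  have c3 : ContinuousOn (fun x => θ x ^ 2 * (ux k t x / u k t x - θ' x / θ x) ^ 2)
      (Icc (0:ℝ) 1) :=
    (cθ.pow 2).mul (((cux.div cu (une t ht)).sub (cθ'.div cθ θne)).pow 2)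
  have c4 : ContinuousOn (fun x => (ux k t x - θ' x) * θ' x) (Icc (0:ℝ) 1) :=
    (cux.sub cθ').mul cθ'
  have c5 : ContinuousOn (fun x => (u k t x - θ x) * θ'' x) (Icc (0:ℝ) 1) :=
    (cu.sub cθ).mul cθ''
  have c6 : ContinuousOn (fun x => θ x * (u k t x - θ x) * ((∑ i, u i t x) - θ x))
      (Icc (0:ℝ) 1) := (cθ.mul (cu.sub cθ)).mul (cU.sub cθ)
  -- step 3: assemble
  have e1 : (∫ x in (0:ℝ)..1, (θ x - θ x ^ 2 / u k t x) * ut k t x)
      = d k * (∫ x in (0:ℝ)..1, (θ x - θ x ^ 2 / u k t x) * uxx k t x)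
        + ∫ x in (0:ℝ)..1, θ x * (u k t x - θ x) * (m x - ∑ i, u i t x) := by
    rw [← intervalIntegral.integral_const_mul, ← intervalIntegral.integral_add
      ((L1_int c1).const_mul _) (L1_int c2)]
    apply intervalIntegral.integral_congr
    intro x hx
    rw [uIcc_of_le zero_le_one] at hx
    have a := une t ht x hx
    have e := hs.eq k t ht x hx
    simp only
    rw [e]
    field_simp
  have e2 : (∫ x in (0:ℝ)..1,
        (θ' x - (2 * θ x * θ' x * u k t x - θ x ^ 2 * ux k t x) / u k t x ^ 2) * ux k t x)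
      = gradDiss θ θ' (u k t) (ux k t) + ∫ x in (0:ℝ)..1, (ux k t x - θ' x) * θ' x := by
    unfold gradDiss
    rw [← intervalIntegral.integral_add (L1_int c3) (L1_int c4)]
    apply intervalIntegral.integral_congr
    intro x hx
    rw [uIcc_of_le zero_le_one] at hx
    have a := une t ht x hx
    have b := θne x hx
    simp only
    field_simp
    ring
  have e3 : (∫ x in (0:ℝ)..1, θ x * (u k t x - θ x) * ((∑ i, u i t x) - θ x))
      = - d k * (∫ x in (0:ℝ)..1, (u k t x - θ x) * θ'' x)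
        - ∫ x in (0:ℝ)..1, θ x * (u k t x - θ x) * (m x - ∑ i, u i t x) := by
    rw [← intervalIntegral.integral_const_mul, ← intervalIntegral.integral_sub
      ((L1_int c5).const_mul _) (L1_int c2)]
    apply intervalIntegral.integral_congr
    intro x hx
    rw [uIcc_of_le zero_le_one] at hx
    have e := hθ.eq x hx
    simp only
    linear_combination (u k t x - θ x) * e
  rw [e1, p1, e2, e3, p2]
  ring

end Pool.Agent.Lib.MP_d8ef8f_an
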