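import Pool.Agent.Lib.MP_d8ef8f_an.Defs

namespace Pool.Agent.Lib.MP_d8ef8f_an

open Set Filter Topology MeasureTheory

theorem l4_exp_diff {α y τ : ℝ} (hα : 0 ≤ α) (hα1 : α ≤ 1) (hy : |y| ≤ τ) (hτ1 : τ ≤ 1) :
    |Real.exp y - Real.exp (α * y)| ≤ 3 * (1 - α) * τ := by
  have hexp1 : Real.exp 1 < 3 := lt_trans Real.exp_one_lt_d9 (by norm_num)
  have hy1 : |y| ≤ 1 := le_trans hy hτ1
  have hyb := abs_le.mp hy1
  -- mean value inequality on the segment
  have key : ∀ a b : ℝ, |a| ≤ 1 → |b| ≤ 1 → |Real.exp a - Real.exp b| ≤ 3 * |a - b| := by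
    intro a b ha hb
    have h := Convex.norm_image_sub_le_of_norm_deriv_le (f := Real.exp) (C := 3) (s := Icc (-1:ℝ) 1)
      (fun x _ => Real.differentiable_exp.differentiableAt)
      (fun x hx => by
        rw [Real.deriv_exp, Real.norm_eq_abs, abs_of_pos (Real.exp_pos x)]
        exact le_trans (Real.exp_le_exp.mpr hx.2) hexp1.le)
      (convex_Icc _ _) (abs_le.mp hb) (abs_le.mp ha)
    simpa [Real.norm_eq_abs] using h
  have hay : |α * y| ≤ 1 := by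
    rw [abs_mul, abs_of_nonneg hα]
    calc α * |y| ≤ 1 * 1 := mul_le_mul hα1 hy1 (abs_nonneg _) zero_le_one
      _ = 1 := one_mul 1
  have h1 := key y (α * y) hy1 hay
  have h2 : |y - α * y| ≤ (1 - α) * τ := by
    have : y - α * y = (1 - α) * y := by ring
    rw [this, abs_mul, abs_of_nonneg (by linarith : (0:ℝ) ≤ 1 - α)]
    exact mul_le_mul_of_nonneg_left hy (by linarith)
  calc |Real.exp y - Real.exp (α * y)| ≤ 3 * |y - α * y| := h1
    _ ≤ 3 * ((1 - α) * τ) := mul_le_mul_of_nonneg_left h2 (by norm_num)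
    _ = 3 * (1 - α) * τ := by ring

/-- bounds for the weight -/
theorem wgt_bounds {θ : ℝ → ℝ} {x α τ : ℝ} (hpos0 : 0 < θ 0) (hposx : 0 < θ x)
    (hα : 0 ≤ α) (hα1 : α ≤ 1) (hτ : |Real.log (θ x) - Real.log (θ 0)| ≤ τ) (hτ1 : τ ≤ 1) :
    θ 0 / 3 ≤ wgt θ α x ∧ wgt θ α x ≤ 3 * θ 0 ∧ θ 0 / 3 ≤ θ x ∧
    |θ x - wgt θ α x| ≤ 3 * θ 0 * (1 - α) * τ := by
  have hexp1 : Real.exp 1 < 3 := lt_trans Real.exp_one_lt_d9 (by norm_num)
  set y := Real.log (θ x) - Real.log (θ 0) with hy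
  have hw : wgt θ α x = θ 0 * Real.exp (α * y) := by
    unfold wgt
    have : (1 - α) * Real.log (θ 0) + α * Real.log (θ x) = Real.log (θ 0) + α * y := by
      rw [hy]; ring
    rw [this, Real.exp_add, Real.exp_log hpos0]
  have hx : θ x = θ 0 * Real.exp y := by
    rw [hy, Real.exp_sub, Real.exp_log hposx, Real.exp_log hpos0]
    field_simp
  have hy1 : |y| ≤ 1 := le_trans hτ hτ1
  have bnd : ∀ z : ℝ, |z| ≤ 1 → 1 / 3 ≤ Real.exp z ∧ Real.exp z ≤ 3 := by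
    intro z hz
    have hz' := abs_le.mp hz
    constructor
    · have h1 : Real.exp (-1) ≤ Real.exp z := Real.exp_le_exp.mpr hz'.1
      have h2 : 1 / 3 ≤ Real.exp (-1) := by
        rw [Real.exp_neg, one_div]
        exact inv_anti₀ (Real.exp_pos 1) hexp1.le
      linarith
    · exact le_trans (Real.exp_le_exp.mpr hz'.2) hexp1.le
  have hay : |α * y| ≤ 1 := by
    rw [abs_mul, abs_of_nonneg hα]
    calc α * |y| ≤ 1 * 1 := mul_le_mul hα1 hy1 (abs_nonneg _) zero_le_one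
      _ = 1 := one_mul 1
  obtain ⟨b1, b2⟩ := bnd (α * y) hay
  obtain ⟨b3, -⟩ := bnd y hy1
  refine ⟨?_, ?_, ?_, ?_⟩
  · rw [hw]; nlinarith
  · rw [hw]; nlinarith
  · rw [hx]
    have : θ 0 / 3 = θ 0 * (1 / 3) := by ring
    rw [this]
    exact mul_le_mul_of_nonneg_left b3 hpos0.le
  · rw [hw, hx, ← mul_sub, abs_mul, abs_of_pos hpos0]
    have h := l4_exp_diff hα hα1 hτ hτ1
    calc θ 0 * |Real.exp y - Real.exp (α * y)| ≤ θ 0 * (3 * (1 - α) * τ) :=
          mul_le_mul_of_nonneg_left h hpos0.le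
      _ = 3 * θ 0 * (1 - α) * τ := by ring

end Pool.Agent.Lib.MP_d8ef8f_an
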