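import Pool.Agent.Lib.MP_d8ef8f_an.A3
import Pool.Agent.Lib.MP_d8ef8f_an.L4

namespace Pool.Agent.Lib.MP_d8ef8f_an

open Set Filter Topology MeasureTheory

theorem L5_int {f : ℝ → ℝ} (hf : ContinuousOn f (Icc (0:ℝ) 1)) :
    IntervalIntegrable f volume 0 1 := by
  apply ContinuousOn.intervalIntegrable
  rwa [uIcc_of_le zero_le_one]

/-- the good term: if `u` is close to its mean in the `L²` sense then
`∫ w z² u ≥ (θ(0) c / (24 dk²)) ∫ u` -/
theorem good_term {θ z v : ℝ → ℝ} {B dk c δ α : ℝ} (hB0 : 0 < B) (hdk : 4 * B ≤ dk) (hc : 0 < c)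
    (hθ : ContinuousOn θ (Icc (0:ℝ) 1)) (hθpos : ∀ x ∈ Icc (0:ℝ) 1, 0 < θ x)
    (hy : ∀ x ∈ Icc (0:ℝ) 1, |Real.log (θ x) - Real.log (θ 0)| ≤ 4 * B / dk)
    (hzc : ContinuousOn z (Icc (0:ℝ) 1)) (hz : ∀ x ∈ Icc (0:ℝ) 1, |z x| ≤ 4 * B / dk)
    (hzl : c / (4 * dk ^ 2) ≤ ∫ x in (0:ℝ)..1, z x ^ 2)
    (hδ : 0 ≤ δ) (hδc : 128 * B ^ 2 * Real.sqrt δ ≤ c)
    (hα : 0 ≤ α) (hα1 : α ≤ 1)
    (hv : ContinuousOn v (Icc (0:ℝ) 1)) (hvpos : ∀ x ∈ Icc (0:ℝ) 1, 0 < v x)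
    (hR : (∫ x in (0:ℝ)..1, v x ^ 2) ≤ (1 + δ) * (∫ x in (0:ℝ)..1, v x) ^ 2) :
    θ 0 * c / (24 * dk ^ 2) * (∫ x in (0:ℝ)..1, v x) ≤
      ∫ x in (0:ℝ)..1, wgt θ α x * z x ^ 2 * v x := by
  have hdk0 : 0 < dk := by linarith
  have h01 : (0:ℝ) ∈ Icc (0:ℝ) 1 := ⟨le_rfl, zero_le_one⟩
  have hθ0 : 0 < θ 0 := hθpos 0 h01
  have hτ1 : 4 * B / dk ≤ 1 := by rw [div_le_one hdk0]; exact hdk
  have hwc : ContinuousOn (wgt θ α) (Icc (0:ℝ) 1) := by
    unfold wgt
    apply Real.continuous_exp.comp_continuousOn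
    apply ContinuousOn.add continuousOn_const
    apply ContinuousOn.mul continuousOn_const
    exact hθ.log (fun x hx => (hθpos x hx).ne')
  set s := ∫ x in (0:ℝ)..1, v x with hs
  have hs0 : 0 ≤ s := intervalIntegral.integral_nonneg zero_le_one (fun x hx => (hvpos x hx).le)
  -- the integral of `z² v`
  have h1 : (∫ x in (0:ℝ)..1, z x ^ 2 * (v x - s)) ^ 2 ≤
      (∫ x in (0:ℝ)..1, (z x ^ 2) ^ 2) * (∫ x in (0:ℝ)..1, (v x - s) ^ 2) :=
    cauchy_schwarz (fun x => z x ^ 2) (fun x => v x - s) (hzc.pow 2) (hv.sub continuousOn_const)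
  have h2 : (∫ x in (0:ℝ)..1, (z x ^ 2) ^ 2) ≤ (16 * B ^ 2 / dk ^ 2) ^ 2 := by
    have h3 : (∫ x in (0:ℝ)..1, (z x ^ 2) ^ 2) ≤ ∫ _ in (0:ℝ)..1, (16 * B ^ 2 / dk ^ 2) ^ 2 := by
      apply intervalIntegral.integral_mono_on zero_le_one (L5_int ((hzc.pow 2).pow 2))
        (L5_int continuousOn_const)
      intro x hx
      have h4 : z x ^ 2 ≤ 16 * B ^ 2 / dk ^ 2 := by
        rw [← sq_abs]
        have h5 := pow_le_pow_left₀ (abs_nonneg _) (hz x hx) 2
        refine h5.trans (le_of_eq ?_)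
        rw [div_pow]
        ring
      exact pow_le_pow_left₀ (sq_nonneg _) h4 2
    simpa using h3
  have h6 : (∫ x in (0:ℝ)..1, (v x - s) ^ 2) ≤ δ * s ^ 2 := by
    have h7 : (∫ x in (0:ℝ)..1, (v x - s) ^ 2) = (∫ x in (0:ℝ)..1, v x ^ 2) - s ^ 2 := by
      have h8 : (∫ x in (0:ℝ)..1, (v x - s) ^ 2) =
          ∫ x in (0:ℝ)..1, (v x ^ 2 - (2 * s * v x - s ^ 2)) := by
        apply intervalIntegral.integral_congr
        intro x _
        simp only
        ring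
      rw [h8, intervalIntegral.integral_sub, intervalIntegral.integral_sub,
        intervalIntegral.integral_const_mul, ← hs]
      · simp
        ring
      · exact L5_int (continuousOn_const.mul hv)
      · exact L5_int continuousOn_const
      · exact L5_int (hv.pow 2)
      · exact L5_int ((continuousOn_const.mul hv).sub continuousOn_const)
    rw [h7]
    linarith
  have h9 : |∫ x in (0:ℝ)..1, z x ^ 2 * (v x - s)| ≤ 16 * B ^ 2 / dk ^ 2 * (Real.sqrt δ * s) := by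
    apply abs_le_of_sq_le_sq _ (by positivity)
    refine h1.trans ?_
    have h10 : (16 * B ^ 2 / dk ^ 2 * (Real.sqrt δ * s)) ^ 2 =
        (16 * B ^ 2 / dk ^ 2) ^ 2 * (δ * s ^ 2) := by
      rw [mul_pow, mul_pow, Real.sq_sqrt hδ]
    rw [h10]
    apply mul_le_mul h2 h6 _ (sq_nonneg _)
    exact intervalIntegral.integral_nonneg zero_le_one (fun x _ => sq_nonneg _)
  have h11 : 16 * B ^ 2 / dk ^ 2 * (Real.sqrt δ * s) ≤ c / (8 * dk ^ 2) * s := by
    have h12 : 16 * B ^ 2 / dk ^ 2 * (Real.sqrt δ * s) =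
        (128 * B ^ 2 * Real.sqrt δ) / (8 * dk ^ 2) * s := by
      field_simp
      ring
    rw [h12]
    apply mul_le_mul_of_nonneg_right _ hs0
    exact div_le_div_of_nonneg_right hδc (by positivity)
  have h13 : (∫ x in (0:ℝ)..1, z x ^ 2 * v x) =
      (∫ x in (0:ℝ)..1, z x ^ 2 * (v x - s)) + s * ∫ x in (0:ℝ)..1, z x ^ 2 := by
    rw [← intervalIntegral.integral_const_mul, ← intervalIntegral.integral_add]
    · apply intervalIntegral.integral_congr
      intro x _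
      simp only
      ring
    · exact L5_int ((hzc.pow 2).mul (hv.sub continuousOn_const))
    · exact L5_int (continuousOn_const.mul (hzc.pow 2))
  have h14 : c / (8 * dk ^ 2) * s ≤ ∫ x in (0:ℝ)..1, z x ^ 2 * v x := by
    rw [h13]
    have h15 := neg_le_of_abs_le (h9.trans h11)
    have h16 := mul_le_mul_of_nonneg_left hzl hs0
    have h17 : s * (c / (4 * dk ^ 2)) = c / (8 * dk ^ 2) * s + c / (8 * dk ^ 2) * s := by
      field_simp
      ring
    linarith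
  have h18 : θ 0 / 3 * (∫ x in (0:ℝ)..1, z x ^ 2 * v x) ≤
      ∫ x in (0:ℝ)..1, wgt θ α x * z x ^ 2 * v x := by
    rw [← intervalIntegral.integral_const_mul]
    apply intervalIntegral.integral_mono_on zero_le_one
      (L5_int (continuousOn_const.mul ((hzc.pow 2).mul hv)))
      (L5_int ((hwc.mul (hzc.pow 2)).mul hv))
    intro x hx
    have h19 := (wgt_bounds (θ := θ) (x := x) (α := α) (τ := 4 * B / dk) hθ0 (hθpos x hx)
      hα hα1 (hy x hx) hτ1).1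
    have h20 : 0 ≤ z x ^ 2 * v x := mul_nonneg (sq_nonneg _) (hvpos x hx).le
    have h21 := mul_le_mul_of_nonneg_right h19 h20
    show θ 0 / 3 * (z x ^ 2 * v x) ≤ wgt θ α x * z x ^ 2 * v x
    rw [mul_assoc (wgt θ α x)]
    exact h21
  refine le_trans ?_ h18
  have h22 := mul_le_mul_of_nonneg_left h14 (show 0 ≤ θ 0 / 3 by positivity)
  refine le_trans (le_of_eq ?_) h22
  field_simp
  ring

end Pool.Agent.Lib.MP_d8ef8f_an
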