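import Pool.Agent.Lib.MP_d8ef8f_an.Defs

namespace Pool.Agent.Lib.MP_d8ef8f_an

open Set Filter Topology MeasureTheory

/-- restriction of a solution to the species of a set outside which everything vanishes -/
theorem isSol_restrict {ι : Type} [Fintype ι] {d : ι → ℝ} {m : ℝ → ℝ} {T : Set ℝ}
    {u ut ux uxx : ι → ℝ → ℝ → ℝ} (hs : IsSol d m T u ut ux uxx)
    (P : ι → Prop) [DecidablePred P]
    (hP : ∀ j, ¬ P j → ∀ t ∈ T, ∀ x ∈ Icc (0:ℝ) 1, u j t x = 0) :
    IsSol (ι := {j // P j}) (fun j => d j) m T (fun j => u j) (fun j => ut j) (fun j => ux j)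
      (fun j => uxx j) where
  c0 j := hs.c0 j
  ct j := hs.ct j
  cx j := hs.cx j
  cxx j := hs.cxx j
  dt j := hs.dt j
  dx j := hs.dx j
  dxx j := hs.dxx j
  bc0 j := hs.bc0 j
  bc1 j := hs.bc1 j
  nonneg j := hs.nonneg j
  eq j t ht x hx := by
    have h1 : ∑ k : {j // P j}, u k t x = ∑ k, u k t x := by
      rw [← Finset.sum_subtype (Finset.univ.filter P) (fun k => by simp) (fun k => u k t x)]
      refine Finset.sum_subset (Finset.filter_subset _ _) fun k _ hk => ?_
      exact hP k (fun h => hk (Finset.mem_filter.2 ⟨Finset.mem_univ _, h⟩)) t ht x hx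
    rw [h1]
    exact hs.eq j t ht x hx

end Pool.Agent.Lib.MP_d8ef8f_an
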