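import Pool.Agent.Lib.MP_d8ef8f_an.Defs

namespace Pool.Agent.Lib.MP_d8ef8f_an

open Set Filter Topology MeasureTheory

/-- the equilibria are entire trajectories and they are pairwise different -/
theorem eqm_entire {N : ℕ} {d : Fin N → ℝ} {m : ℝ → ℝ} (hm : ContinuousOn m (Icc (0:ℝ) 1))
    (hd : ∀ i, 0 < d i) {θ : Fin N → ℝ → ℝ} (hθ : ∀ i, IsSteady (d i) m (θ i)) (i : Fin (N + 1)) :
    Entire d m (fun j _ x => Eqm θ i j x) := by
  classical
  choose θ' θ'' hst using hθ
  have hθc : ∀ j, ContinuousOn (θ j) (Icc (0:ℝ) 1) := fun j x hx =>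
    ((hst j).d1 x hx).continuousWithinAt
  have hθ'c : ∀ j, ContinuousOn (θ' j) (Icc (0:ℝ) 1) := fun j x hx =>
    ((hst j).d2 x hx).continuousWithinAt
  have hθ''c : ∀ j, ContinuousOn (θ'' j) (Icc (0:ℝ) 1) := by
    intro j
    have h1 : ContinuousOn (fun x => - (θ j x * (m x - θ j x)) / d j) (Icc (0:ℝ) 1) :=
      (((hθc j).mul (hm.sub (hθc j))).neg).div_const _
    refine h1.congr (fun x hx => ?_)
    have h2 := (hst j).eq x hx
    have h3 := hd j
    rw [eq_div_iff h3.ne']
    linarith
  have lift : ∀ f : ℝ → ℝ, ContinuousOn f (Icc (0:ℝ) 1) →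
      ContinuousOn (fun p : ℝ × ℝ => f p.2) ((univ : Set ℝ) ×ˢ Icc (0:ℝ) 1) := fun f hf =>
    hf.comp continuousOn_snd (fun p hp => hp.2)
  refine ⟨⟨fun _ _ _ => 0, fun j _ x => if (j : ℕ) = (i : ℕ) then θ' j x else 0,
    fun j _ x => if (j : ℕ) = (i : ℕ) then θ'' j x else 0, ?_⟩, ?_⟩
  · constructor
    · intro j
      by_cases h : (j : ℕ) = (i : ℕ)
      · simpa only [Eqm, if_pos h] using lift _ (hθc j)
      · simpa only [Eqm, if_neg h] using continuousOn_const
    · intro j
      exact continuousOn_const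
    · intro j
      by_cases h : (j : ℕ) = (i : ℕ)
      · simpa only [if_pos h] using lift _ (hθ'c j)
      · simpa only [if_neg h] using continuousOn_const
    · intro j
      by_cases h : (j : ℕ) = (i : ℕ)
      · simpa only [if_pos h] using lift _ (hθ''c j)
      · simpa only [if_neg h] using continuousOn_const
    · intro j t _ x _
      exact hasDerivAt_const t _
    · intro j t _ x hx
      by_cases h : (j : ℕ) = (i : ℕ)
      · have e : (fun x => Eqm θ i j x) = θ j := by
          funext y; simp only [Eqm, if_pos h]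
        show HasDerivWithinAt (fun x => Eqm θ i j x) _ _ _
        rw [e, if_pos h]
        exact (hst j).d1 x hx
      · have e : (fun x => Eqm θ i j x) = fun _ => 0 := by
          funext y; simp only [Eqm, if_neg h]
        show HasDerivWithinAt (fun x => Eqm θ i j x) _ _ _
        rw [e, if_neg h]
        exact hasDerivWithinAt_const x _ _
    · intro j t _ x hx
      by_cases h : (j : ℕ) = (i : ℕ)
      · simp only [if_pos h]
        exact (hst j).d2 x hx
      · simp only [if_neg h]
        exact hasDerivWithinAt_const x _ _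
    · intro j t _
      by_cases h : (j : ℕ) = (i : ℕ)
      · simp only [if_pos h]
        exact (hst j).bc0
      · simp only [if_neg h]
    · intro j t _
      by_cases h : (j : ℕ) = (i : ℕ)
      · simp only [if_pos h]
        exact (hst j).bc1
      · simp only [if_neg h]
    · intro j t _ x hx
      by_cases h : (j : ℕ) = (i : ℕ)
      · simp only [Eqm, if_pos h]
        exact ((hst j).pos x hx).le
      · simp only [Eqm, if_neg h]
        exact le_refl _
    · intro j t _ x hx
      by_cases h : (j : ℕ) = (i : ℕ)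
      · have hsum : ∑ k, Eqm θ i k x = θ j x := by
          rw [Finset.sum_eq_single j]
          · simp only [Eqm, if_pos h]
          · intro k _ hk
            have : ¬ (k : ℕ) = (i : ℕ) := by
              intro h'
              exact hk (Fin.ext (h'.trans h.symm))
            simp only [Eqm, if_neg this]
          · intro hj
            exact absurd (Finset.mem_univ j) hj
        rw [hsum]
        simp only [Eqm, if_pos h]
        exact ((hst j).eq x hx).symm
      · simp only [Eqm, if_neg h]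
        ring
  · have hb : ∀ j, ∃ C, ∀ x ∈ Icc (0:ℝ) 1, |θ j x| ≤ C := by
      intro j
      obtain ⟨C, hC⟩ := (isCompact_Icc (a := (0:ℝ)) (b := 1)).exists_bound_of_continuousOn (hθc j)
      exact ⟨C, fun x hx => by simpa [Real.norm_eq_abs] using hC x hx⟩
    choose C hC using hb
    refine ⟨∑ j, |C j|, fun j t x hx => ?_⟩
    have h1 : |C j| ≤ ∑ k, |C k| :=
      Finset.single_le_sum (f := fun k => |C k|) (fun k _ => abs_nonneg _) (Finset.mem_univ j)
    by_cases h : (j : ℕ) = (i : ℕ)
    · simp only [Eqm, if_pos h]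
      exact le_trans (le_trans (le_abs_self _) (le_trans (hC j x hx) (le_abs_self _))) h1
    · simp only [Eqm, if_neg h]
      exact le_trans (abs_nonneg _) h1

theorem eqm_ne {N : ℕ} {d : Fin N → ℝ} {m : ℝ → ℝ} {θ : Fin N → ℝ → ℝ}
    (hθ : ∀ i, IsSteady (d i) m (θ i)) (i i' : Fin (N + 1)) (h : i ≠ i') :
    ∃ j, ∃ x ∈ Icc (0:ℝ) 1, Eqm θ i j x ≠ Eqm θ i' j x := by
  have h0 : (0:ℝ) ∈ Icc (0:ℝ) 1 := ⟨le_refl _, zero_le_one⟩
  have hne : (i : ℕ) ≠ (i' : ℕ) := fun hh => h (Fin.ext hh)
  by_cases hi : (i : ℕ) < N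
  · obtain ⟨θ', θ'', hst⟩ := hθ ⟨i, hi⟩
    refine ⟨⟨i, hi⟩, 0, h0, ?_⟩
    simp only [Eqm]
    rw [if_pos trivial, if_neg hne]
    exact (hst.pos 0 h0).ne'
  · have hi' : (i' : ℕ) < N := by
      have h1 := i.isLt
      have h2 := i'.isLt
      omega
    obtain ⟨θ', θ'', hst⟩ := hθ ⟨i', hi'⟩
    refine ⟨⟨i', hi'⟩, 0, h0, ?_⟩
    simp only [Eqm]
    rw [if_neg (Ne.symm hne), if_pos trivial]
    exact (hst.pos 0 h0).ne

end Pool.Agent.Lib.MP_d8ef8f_an
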