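import Pool.Agent.Lib.MP_d8ef8f_an.Defs

namespace Pool.Agent.Lib.MP_d8ef8f_an

open Set Filter Topology MeasureTheory

private theorem T4_ii {m : ℝ → ℝ} (hm : ContinuousOn m (Icc (0:ℝ) 1)) {x : ℝ}
    (hx : x ∈ Icc (0:ℝ) 1) : IntervalIntegrable m volume 0 x := by
  apply ContinuousOn.intervalIntegrable
  rw [uIcc_of_le hx.1]
  exact hm.mono (Icc_subset_Icc_right hx.2)

private theorem T4_cont {m : ℝ → ℝ} (hm : ContinuousOn m (Icc (0:ℝ) 1)) :
    ContinuousOn (fun x => x * (∫ y in (0:ℝ)..1, m y) - ∫ y in (0:ℝ)..x, m y) (Icc (0:ℝ) 1) := by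
  refine ContinuousOn.sub (continuousOn_id.mul continuousOn_const) ?_
  have h := intervalIntegral.continuousOn_primitive_interval' (a := (0:ℝ))
    (T4_ii hm (right_mem_Icc.2 zero_le_one)) (left_mem_uIcc)
  rwa [uIcc_of_le (zero_le_one' ℝ)] at h

theorem cF_pos {m : ℝ → ℝ} (hm : ContinuousOn m (Icc (0:ℝ) 1))
    (hnc : ∃ x ∈ Icc (0:ℝ) 1, ∃ y ∈ Icc (0:ℝ) 1, m x ≠ m y) : 0 < cF m := by
  have hF := T4_cont hm
  set F : ℝ → ℝ := fun x => x * (∫ y in (0:ℝ)..1, m y) - ∫ y in (0:ℝ)..x, m y with hFdef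
  have hex : ∃ c ∈ Icc (0:ℝ) 1, F c ≠ 0 := by
    by_contra hcon
    push Not at hcon
    have h1 : ∀ x ∈ Ioo (0:ℝ) 1, m x = ∫ y in (0:ℝ)..1, m y := by
      intro x hx
      have hd : HasDerivAt (fun u => ∫ y in (0:ℝ)..u, m y) (m x) x :=
        intervalIntegral.integral_hasDerivAt_right (T4_ii hm (Ioo_subset_Icc_self hx))
          ((hm.mono Ioo_subset_Icc_self).stronglyMeasurableAtFilter isOpen_Ioo x hx)
          (hm.continuousAt (Icc_mem_nhds hx.1 hx.2))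
      have hd2 : HasDerivAt F (1 * (∫ y in (0:ℝ)..1, m y) - m x) x :=
        ((hasDerivAt_id x).mul_const _).sub hd
      have h0 : F =ᶠ[𝓝 x] fun _ => 0 := by
        filter_upwards [Icc_mem_nhds hx.1 hx.2] with y hy
        exact hcon y hy
      have hd3 : HasDerivAt F 0 x := (hasDerivAt_const x (0:ℝ)).congr_of_eventuallyEq h0
      have := hd2.unique hd3
      linarith
    have h2 : ∀ x ∈ Icc (0:ℝ) 1, m x = ∫ y in (0:ℝ)..1, m y := by
      have hcl : closure (Ioo (0:ℝ) 1) = Icc 0 1 := closure_Ioo zero_ne_one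
      intro x hx
      have hx' : x ∈ closure (Ioo (0:ℝ) 1) := by rwa [hcl]
      have hc : ContinuousOn m (closure (Ioo (0:ℝ) 1)) := by rwa [hcl]
      have hEq : EqOn m (fun _ => ∫ y in (0:ℝ)..1, m y) (Ioo (0:ℝ) 1) := h1
      exact hEq.of_subset_closure hm continuousOn_const Ioo_subset_Icc_self (by rw [hcl]) hx
    obtain ⟨x, hx, y, hy, hxy⟩ := hnc
    exact hxy ((h2 x hx).trans (h2 y hy).symm)
  obtain ⟨c, hc, hc0⟩ := hex
  exact intervalIntegral.integral_pos zero_lt_one (hF.pow 2) (fun x _ => sq_nonneg (F x))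
    ⟨c, hc, by positivity⟩

end Pool.Agent.Lib.MP_d8ef8f_an
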