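import Pool.Agent.Lib.MP_d8ef8f_an.Setup
import Pool.Agent.Lib.MP_d8ef8f_an.T4

namespace Pool.Agent.Lib.MP_d8ef8f_an

open Set Filter Topology MeasureTheory

/-- choice of the threshold -/
theorem exists_threshold {m : ℝ → ℝ} (hm : ContinuousOn m (Icc (0:ℝ) 1))
    (hnc : ∃ x ∈ Icc (0:ℝ) 1, ∃ y ∈ Icc (0:ℝ) 1, m x ≠ m y) :
    ∃ D B c δ : ℝ, 0 < D ∧ ∀ (ι : Type) [Fintype ι] [LinearOrder ι] (d : ι → ℝ)
      (θ θ' θ'' : ι → ℝ → ℝ), StrictMono d → (∀ i, D ≤ d i) →
      (∀ k, Steady (d k) m (θ k) (θ' k) (θ'' k)) → Data d m θ θ' θ'' B c δ := by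
  obtain ⟨B0, hB0⟩ := (isCompact_Icc (a := (0:ℝ)) (b := 1)).exists_bound_of_continuousOn hm
  set B : ℝ := |B0| + 1 with hBdef
  have hBpos : 0 < B := by positivity
  have hB : ∀ x ∈ Icc (0:ℝ) 1, |m x| ≤ B := by
    intro x hx
    have h1 := hB0 x hx
    rw [Real.norm_eq_abs] at h1
    have h2 := le_abs_self B0
    linarith
  have hc : 0 < cF m := cF_pos hm hnc
  set c : ℝ := cF m with hcdef
  set e : ℝ := c / (128 * B ^ 2) with hedef
  have he : 0 < e := by positivity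
  set δ : ℝ := min 1 (e ^ 2) with hδdef
  have hδ : 0 < δ := lt_min one_pos (by positivity)
  have hδ1 : δ ≤ 1 := min_le_left _ _
  have hsq : Real.sqrt δ ≤ e := by
    rw [Real.sqrt_le_left he.le]
    exact min_le_right _ _
  have hδc : 128 * B ^ 2 * Real.sqrt δ ≤ c := by
    calc 128 * B ^ 2 * Real.sqrt δ ≤ 128 * B ^ 2 * e := by
          apply mul_le_mul_of_nonneg_left hsq (by positivity)
      _ = c := by rw [hedef]; field_simp
  have p1 : 0 < 32 * B / δ ^ 2 := by positivity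
  have p2 : 0 < 82944 * B ^ 3 / c := by positivity
  have p3 : 0 < 6400 * B ^ 4 / c := by positivity
  refine ⟨1 + 4 * B + 32 * B / δ ^ 2 + 82944 * B ^ 3 / c + 6400 * B ^ 4 / c, B, c, δ, by positivity, ?_⟩
  intro ι _ _ d θ θ' θ'' hmono hd hst
  refine { hm := hm, hB0 := hBpos, hB := hB, hc := hc, hcF := rfl, hδ := hδ, hδ1 := hδ1, hδc := hδc,
           mono := hmono, dB := ?_, dδ := ?_, dc := ?_, dc2 := ?_, st := hst }
  · intro j
    have := hd j
    linarith
  · intro j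
    have := hd j
    linarith
  · intro j
    have h1 := hd j
    have h2 : 82944 * B ^ 3 / c ≤ d j := by linarith
    rw [div_le_iff₀ hc] at h2
    linarith
  · intro j
    have h1 := hd j
    have h2 : 6400 * B ^ 4 / c ≤ d j := by linarith
    have h3 : 1 ≤ d j := by linarith
    rw [div_le_iff₀ hc] at h2
    have h4 : d j ≤ d j ^ 2 := by nlinarith
    calc 6400 * B ^ 4 ≤ d j * c := h2
      _ ≤ d j ^ 2 * c := mul_le_mul_of_nonneg_right h4 hc.le
      _ = c * d j ^ 2 := by ring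

end Pool.Agent.Lib.MP_d8ef8f_an
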