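import Pool.Agent.Lib.MP_d8ef8f_an.Defs
import Pool.Agent.Lib.MP_d8ef8f_an.A5
import Pool.Agent.Lib.MP_d8ef8f_an.A6

namespace Pool.Agent.Lib.MP_d8ef8f_an

open Set Filter Topology MeasureTheory

/-- a species absent at time `a` is absent on `[a,b]` -/
theorem R1_zero {ι : Type} [Fintype ι] {d : ι → ℝ} {m : ℝ → ℝ} {T : Set ℝ}
    {u ut ux uxx : ι → ℝ → ℝ → ℝ} (hd : ∀ j, 0 < d j) (hm : ContinuousOn m (Icc (0:ℝ) 1))
    (hs : IsSol d m T u ut ux uxx) {a b : ℝ} (hab : a < b) (hsub : Ioc a b ⊆ T) (j : ι)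
    (hc : ContinuousOn (fun p : ℝ × ℝ => u j p.1 p.2) (Icc a b ×ˢ Icc (0:ℝ) 1))
    (hz : ∀ x ∈ Icc (0:ℝ) 1, u j a x = 0) : ∀ t ∈ Icc a b, ∀ x ∈ Icc (0:ℝ) 1, u j t x ≤ 0 := by
  obtain ⟨K, hK⟩ := isCompact_Icc.exists_bound_of_continuousOn hm
  have h := comparison a b (d j) K hab (hd j).le (fun t x => -u j t x) (fun t x => -ut j t x)
    (fun t x => -ux j t x) (fun t x => -uxx j t x) hc.neg
    (fun t ht x hx => (hs.dt j t (hsub ht) x hx).neg)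
    (fun t ht x hx => (hs.dx j t (hsub ht) x hx).neg)
    (fun t ht x hx => (hs.dxx j t (hsub ht) x hx).neg)
    (fun t ht => by rw [hs.bc0 j t (hsub ht), neg_zero])
    (fun t ht => by rw [hs.bc1 j t (hsub ht), neg_zero])
    (fun t ht x hx hneg => by
      have h1 := hs.eq j t (hsub ht) x hx
      have h2 : 0 ≤ ∑ k, u k t x := Finset.sum_nonneg (fun k _ => hs.nonneg k t (hsub ht) x hx)
      have h3 := le_of_abs_le (hK x hx)
      have h4 : 0 < u j t x := by linarith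
      have h5 : u j t x * (m x - ∑ k, u k t x) ≤ u j t x * K :=
        mul_le_mul_of_nonneg_left (by linarith) h4.le
      rw [h1]
      linarith)
    (fun x hx => by rw [hz x hx, neg_zero])
  intro t ht x hx
  have := h t ht x hx
  linarith

/-- a species present at time `a` is positive at time `b` -/
theorem R1_pos {ι : Type} [Fintype ι] {d : ι → ℝ} {m : ℝ → ℝ} {T : Set ℝ}
    {u ut ux uxx : ι → ℝ → ℝ → ℝ} (hd : ∀ j, 0 < d j) (hm : ContinuousOn m (Icc (0:ℝ) 1))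
    (hs : IsSol d m T u ut ux uxx) {a b : ℝ} (hab : a < b) (hsub : Ioc a b ⊆ T) (j : ι)
    (hc : ∀ k, ContinuousOn (fun p : ℝ × ℝ => u k p.1 p.2) (Icc a b ×ˢ Icc (0:ℝ) 1))
    (ha : ∀ x ∈ Icc (0:ℝ) 1, 0 ≤ u j a x)
    (hi : ∃ x ∈ Icc (0:ℝ) 1, u j a x ≠ 0) : ∀ x ∈ Icc (0:ℝ) 1, 0 < u j b x := by
  obtain ⟨K, hK⟩ := isCompact_Icc.exists_bound_of_continuousOn hm
  have hcs : ContinuousOn (fun p : ℝ × ℝ => ∑ k, u k p.1 p.2) (Icc a b ×ˢ Icc (0:ℝ) 1) :=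
    continuousOn_finsetSum _ (fun k _ => hc k)
  obtain ⟨M, hM⟩ := (isCompact_Icc.prod isCompact_Icc).exists_bound_of_continuousOn hcs
  have hnn : ∀ t ∈ Icc a b, ∀ x ∈ Icc (0:ℝ) 1, 0 ≤ u j t x := by
    intro t ht x hx
    rcases eq_or_lt_of_le ht.1 with h | h
    · rw [← h]; exact ha x hx
    · exact hs.nonneg j t (hsub ⟨h, ht.2⟩) x hx
  refine strong_pos a b (d j) (K + M) hab (hd j) (u j) (ut j) (ux j) (uxx j) (hc j)
    (fun t ht x hx => hs.dt j t (hsub ht) x hx)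
    (fun t ht x hx => hs.dx j t (hsub ht) x hx)
    (fun t ht x hx => hs.dxx j t (hsub ht) x hx)
    (fun t ht => hs.bc0 j t (hsub ht)) (fun t ht => hs.bc1 j t (hsub ht)) hnn ?_ hi
  intro t ht x hx
  have h1 := hs.eq j t (hsub ht) x hx
  have h2 := (abs_le.1 (hK x hx)).1
  have h3 : ∑ k, u k t x ≤ M :=
    le_of_abs_le (hM (t, x) ⟨⟨ht.1.le, ht.2⟩, hx⟩)
  have h4 := hnn t ⟨ht.1.le, ht.2⟩ x hx
  have h5 : u j t x * (-(K + M)) ≤ u j t x * (m x - ∑ k, u k t x) :=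
    mul_le_mul_of_nonneg_left (by linarith) h4
  rw [h1]
  linarith

/-- forward trajectories: a species absent at time `0` stays absent, a species present at time `0`
is positive for all `t > 0` -/
theorem forward_dichotomy {ι : Type} [Fintype ι] {d : ι → ℝ} {m : ℝ → ℝ} {u : ι → ℝ → ℝ → ℝ}
    (hd : ∀ j, 0 < d j) (hm : ContinuousOn m (Icc (0:ℝ) 1)) (hu : Forward d m u) (j : ι) :
    ((∀ x ∈ Icc (0:ℝ) 1, u j 0 x = 0) → ∀ t ≥ 0, ∀ x ∈ Icc (0:ℝ) 1, u j t x = 0) ∧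
    ((∃ x ∈ Icc (0:ℝ) 1, u j 0 x ≠ 0) → ∀ t > 0, ∀ x ∈ Icc (0:ℝ) 1, 0 < u j t x) := by
  obtain ⟨⟨ut, ux, uxx, hs⟩, hc, h0⟩ := hu
  have hc' : ∀ b : ℝ, ∀ k,
      ContinuousOn (fun p : ℝ × ℝ => u k p.1 p.2) (Icc 0 b ×ˢ Icc (0:ℝ) 1) := fun b k =>
    (hc k).mono (prod_mono (fun t ht => ht.1) (fun x hx => hx))
  have hsub : ∀ b : ℝ, Ioc 0 b ⊆ Ioi (0:ℝ) := fun b t ht => ht.1
  constructor
  · intro hz t ht x hx
    rcases eq_or_lt_of_le ht with h | h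
    · rw [← h]; exact hz x hx
    · have h1 := R1_zero hd hm hs h (hsub t) j (hc' t j) hz t ⟨ht, le_rfl⟩ x hx
      exact le_antisymm h1 (hs.nonneg j t h x hx)
  · intro hi t ht
    exact R1_pos hd hm hs ht (hsub t) j (hc' t) (h0 j) hi

/-- entire trajectories: every species is absent for all times or positive for all times -/
theorem entire_dichotomy {ι : Type} [Fintype ι] {d : ι → ℝ} {m : ℝ → ℝ} {u : ι → ℝ → ℝ → ℝ}
    (hd : ∀ j, 0 < d j) (hm : ContinuousOn m (Icc (0:ℝ) 1)) (hu : Entire d m u) (j : ι) :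
    (∀ t, ∀ x ∈ Icc (0:ℝ) 1, u j t x = 0) ∨ (∀ t, ∀ x ∈ Icc (0:ℝ) 1, 0 < u j t x) := by
  obtain ⟨⟨ut, ux, uxx, hs⟩, _⟩ := hu
  have hc' : ∀ a b : ℝ, ∀ k,
      ContinuousOn (fun p : ℝ × ℝ => u k p.1 p.2) (Icc a b ×ˢ Icc (0:ℝ) 1) := fun a b k =>
    (hs.c0 k).mono (prod_mono (fun t _ => mem_univ t) (fun x hx => hx))
  have hnn : ∀ t, ∀ x ∈ Icc (0:ℝ) 1, 0 ≤ u j t x := fun t x hx =>
    hs.nonneg j t (mem_univ t) x hx
  by_cases hall : ∀ t, ∀ x ∈ Icc (0:ℝ) 1, 0 < u j t x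
  · exact Or.inr hall
  · left
    push Not at hall
    obtain ⟨t1, x1, hx1, h1⟩ := hall
    have hbefore : ∀ t0 < t1, ∀ x ∈ Icc (0:ℝ) 1, u j t0 x = 0 := by
      intro t0 ht0
      by_contra hcon
      push Not at hcon
      have h2 := R1_pos hd hm hs ht0 (fun t _ => mem_univ t) j (hc' t0 t1) (hnn t0) hcon x1 hx1
      linarith
    intro t x hx
    have h3 : min t t1 - 1 < t1 := by have := min_le_right t t1; linarith
    have h4 : min t t1 - 1 < t := by have := min_le_left t t1; linarith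
    have h5 := R1_zero hd hm hs h4 (fun t _ => mem_univ t) j (hc' _ t j) (hbefore _ h3) t
      ⟨h4.le, le_rfl⟩ x hx
    exact le_antisymm h5 (hnn t x hx)

end Pool.Agent.Lib.MP_d8ef8f_an
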