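import Pool.Agent.Lib.MP_d8ef8f_an.S1
import Pool.Agent.Lib.MP_d8ef8f_an.A3
import Pool.Agent.Lib.MP_d8ef8f_an.O2
import Pool.Agent.Lib.MP_d8ef8f_an.O3

namespace Pool.Agent.Lib.MP_d8ef8f_an

open Set Filter Topology MeasureTheory

variable {ι : Type} [Fintype ι]

/-- total mass: `S' ≤ B S - S²` -/
theorem total_deriv_le {d : ι → ℝ} {m : ℝ → ℝ} {T : Set ℝ} {u ut ux uxx : ι → ℝ → ℝ → ℝ} {B : ℝ}
    (hT : IsOpen T) (hm : ContinuousOn m (Icc (0:ℝ) 1)) (hB : ∀ x ∈ Icc (0:ℝ) 1, |m x| ≤ B)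
    (hs : IsSol d m T u ut ux uxx) :
    ∀ t ∈ T, ∃ D : ℝ, HasDerivAt (fun s => ∑ j, mass u j s) D t ∧
      D ≤ B * (∑ j, mass u j t) - (∑ j, mass u j t) ^ 2 := by
  intro t ht
  have hu : Icc (0:ℝ) 1 = uIcc (0:ℝ) 1 := (uIcc_of_le zero_le_one).symm
  have hcont : ∀ j, ContinuousOn (u j t) (Icc (0:ℝ) 1) :=
    fun j x hx => (hs.dx j t ht x hx).continuousWithinAt
  have hUc : ContinuousOn (fun x => ∑ k, u k t x) (Icc (0:ℝ) 1) :=
    continuousOn_finset_sum _ (fun j _ => hcont j)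
  have hUnn : ∀ x ∈ Icc (0:ℝ) 1, 0 ≤ ∑ k, u k t x := fun x hx =>
    Finset.sum_nonneg (fun k _ => hs.nonneg k t ht x hx)
  refine ⟨∑ j, ∫ x in (0:ℝ)..1, u j t x * (m x - ∑ k, u k t x), ?_, ?_⟩
  · exact HasDerivAt.fun_sum (fun j _ => mass_deriv hT hs j t ht)
  · have e1 : ∑ j, ∫ x in (0:ℝ)..1, u j t x * (m x - ∑ k, u k t x) =
        ∫ x in (0:ℝ)..1, (∑ k, u k t x) * (m x - ∑ k, u k t x) := by
      rw [← intervalIntegral.integral_finset_sum]
      · apply intervalIntegral.integral_congr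
        intro x _
        simp only
        rw [Finset.sum_mul]
      · intro j _
        exact (hu ▸ ((hcont j).mul (hm.sub hUc))).intervalIntegrable
    have e2 : ∑ j, mass u j t = ∫ x in (0:ℝ)..1, ∑ k, u k t x := by
      unfold mass
      rw [← intervalIntegral.integral_finset_sum]
      intro j _
      exact (hu ▸ (hcont j)).intervalIntegrable
    rw [e1, e2]
    have h1 : (∫ x in (0:ℝ)..1, (∑ k, u k t x) * (m x - ∑ k, u k t x)) ≤
        ∫ x in (0:ℝ)..1, (B * (∑ k, u k t x) - (∑ k, u k t x) ^ 2) := by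
      apply intervalIntegral.integral_mono_on zero_le_one
        (hu ▸ (hUc.mul (hm.sub hUc))).intervalIntegrable
        (hu ▸ ((continuousOn_const.mul hUc).sub (hUc.pow 2))).intervalIntegrable
      intro x hx
      have h2 := hUnn x hx
      have h3 := le_trans (le_abs_self _) (hB x hx)
      nlinarith
    have h4 : (∫ x in (0:ℝ)..1, (B * (∑ k, u k t x) - (∑ k, u k t x) ^ 2)) =
        B * (∫ x in (0:ℝ)..1, ∑ k, u k t x) - ∫ x in (0:ℝ)..1, (∑ k, u k t x) ^ 2 := by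
      rw [intervalIntegral.integral_sub, intervalIntegral.integral_const_mul]
      · exact (hu ▸ (continuousOn_const.mul hUc)).intervalIntegrable
      · exact (hu ▸ (hUc.pow 2)).intervalIntegrable
    have h5 := cauchy_schwarz (fun x => ∑ k, u k t x) (fun _ => 1) hUc continuousOn_const
    simp only [mul_one, one_pow, intervalIntegral.integral_const, sub_zero, smul_eq_mul] at h5
    linarith

theorem total_forward {d : ι → ℝ} {m : ℝ → ℝ} {a : ℝ} {u ut ux uxx : ι → ℝ → ℝ → ℝ} {B : ℝ}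
    (hB0 : 0 < B) (hm : ContinuousOn m (Icc (0:ℝ) 1)) (hB : ∀ x ∈ Icc (0:ℝ) 1, |m x| ≤ B)
    (hs : IsSol d m (Ioi a) u ut ux uxx) :
    ∃ t0 > a, ∀ t ≥ t0, ∑ j, mass u j t ≤ 2 * B := by
  have h := total_deriv_le isOpen_Ioi hm hB hs
  choose! D hD hDle using h
  obtain ⟨t0, ht0, h0⟩ := fam_eventually_le (ι := Unit) (fun _ s => ∑ j, mass u j s) (fun _ s => D s)
    a (2 * B) (2 * B ^ 2) (by positivity) (fun _ t ht => hD t ht)
    (fun t ht _ _ hK => by
      have h1 := hDle t ht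
      nlinarith)
  exact ⟨t0, ht0, fun t ht => h0 t ht ()⟩

theorem total_entire {d : ι → ℝ} {m : ℝ → ℝ} {u ut ux uxx : ι → ℝ → ℝ → ℝ} {B : ℝ}
    (hB0 : 0 < B) (hm : ContinuousOn m (Icc (0:ℝ) 1)) (hB : ∀ x ∈ Icc (0:ℝ) 1, |m x| ≤ B)
    (hs : IsSol d m univ u ut ux uxx) : ∀ t, ∑ j, mass u j t ≤ 2 * B := by
  have h := total_deriv_le isOpen_univ hm hB hs
  have h' : ∀ t, ∃ D : ℝ, HasDerivAt (fun s => ∑ j, mass u j s) D t ∧
      D ≤ B * (∑ j, mass u j t) - (∑ j, mass u j t) ^ 2 := fun t => h t (mem_univ t)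
  choose D hD hDle using h'
  intro t
  exact fam_entire_le (ι := Unit) (fun _ s => ∑ j, mass u j s) (fun _ s => D s)
    (2 * B) (1 / 2) (by norm_num) (by positivity) (fun _ t => hD t)
    (fun t _ _ hK => by
      have h1 := hDle t
      nlinarith) t ()

end Pool.Agent.Lib.MP_d8ef8f_an
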