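import Pool.Agent.Lib.MP_d8ef8f_an.Defs

namespace Pool.Agent.Lib.MP_d8ef8f_an

open Set Filter Topology MeasureTheory

/-- standing assumptions on the data: `B` bounds `|m|`, the rates `d` are strictly increasing and
large, `θ k` are the steady states with derivatives `θ' k`, `θ'' k`. -/
structure Data {ι : Type} [Fintype ι] [LinearOrder ι] (d : ι → ℝ) (m : ℝ → ℝ)
    (θ θ' θ'' : ι → ℝ → ℝ) (B c δ : ℝ) : Prop where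
  hm : ContinuousOn m (Icc (0:ℝ) 1)
  hB0 : 0 < B
  hB : ∀ x ∈ Icc (0:ℝ) 1, |m x| ≤ B
  hc : 0 < c
  hcF : c = cF m
  hδ : 0 < δ
  hδ1 : δ ≤ 1
  hδc : 128 * B ^ 2 * Real.sqrt δ ≤ c
  mono : StrictMono d
  dB : ∀ j, 4 * B ≤ d j
  dδ : ∀ j, 32 * B / δ ^ 2 ≤ d j
  dc : ∀ j, 82944 * B ^ 3 ≤ c * d j
  dc2 : ∀ j, 6400 * B ^ 4 ≤ c * d j ^ 2
  st : ∀ k, Steady (d k) m (θ k) (θ' k) (θ'' k)

/-- bounds on the state at time `t` -/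
def Tame {ι : Type} [Fintype ι] (u : ι → ℝ → ℝ → ℝ) (B δ t : ℝ) : Prop :=
  (∑ j, mass u j t ≤ 2 * B) ∧ ∀ j, rat u j t ≤ 1 + δ

end Pool.Agent.Lib.MP_d8ef8f_an
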